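import Pool.Agent.Lib.H1F.AT.At

/-!
# H1F, part AMP: definitions (helper14)

Ampleness, quasi-projectivity and the relative Picard number.
-/

open CategoryTheory CategoryTheory.Limits AlgebraicGeometry Order

universe u

namespace H1F.AMP

/-- `a` is not a unit of the subring `L` (of a field). -/
def NonUnit {k K : Type*} [Field k] [Field K] [Algebra k K] (L : Subalgebra k K) (a : K) : Prop :=
  a = 0 ∨ a⁻¹ ∉ L

section

variable {k : Type u} [Field k]

open Classical in
/-- The restriction of rational functions on `X` to the subscheme `j : C ⟶ X` (for functions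
which are regular at the image of the generic point of `C`; junk value `0` otherwise). -/
noncomputable def red {C X : Over (Spec (CommRingCat.of k))} [IsIntegral C.left]
    [IsIntegral X.left] (j : C ⟶ X) (a : X.left.functionField) : C.left.functionField :=
  if h : ∃ s : X.left.presheaf.stalk (j.left (genericPoint C.left)),
      algebraMap _ X.left.functionField s = a then
    (j.left.stalkMap (genericPoint C.left)).hom h.choose else 0

/-- The data of a smooth rational curve with generic point `z₀` in `X`: it is covered by the two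
charts `U₁, U₂` of `X`, on which it is the affine line with coordinate `θ` resp. `θ⁻¹`. -/
structure Line (X : Over (Spec (CommRingCat.of k))) [IsIntegral X.left] (U₁ U₂ : X.left.Opens)
    (R₁ R₂ : Subalgebra k X.left.functionField) (z₀ : X.left) (θ : X.left.functionField) :
    Prop where
  mem₁ : z₀ ∈ U₁
  mem₂ : z₀ ∈ U₂
  cover : ∀ x : X.left, z₀ ⤳ x → x ∈ U₁ ∨ x ∈ U₂
  coord₁ : θ ∈ R₁
  coord₂ : θ⁻¹ ∈ R₂
  red₁ : ∀ a ∈ R₁, ∃ q ∈ Algebra.adjoin k {θ}, NonUnit (localRing k X z₀) (a - q)
  red₂ : ∀ a ∈ R₂, ∃ q ∈ Algebra.adjoin k {θ⁻¹}, NonUnit (localRing k X z₀) (a - q)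
  unit : ∀ P : Polynomial k, P ≠ 0 → ¬ NonUnit (localRing k X z₀) (Polynomial.aeval θ P)

/-- `C` is a projective line with coordinate `t`. -/
structure P1Curve (C : Over (Spec (CommRingCat.of k))) [IsIntegral C.left]
    (U : Fin 2 → C.left.Opens) (t : C.left.functionField) : Prop where
  charts : Charts C U ![Algebra.adjoin k {t}, Algebra.adjoin k {t⁻¹}]
  tr : Transcendental k t

/-- The morphism `f : X ⟶ Y` in terms of the local rings of `X` and the rings `S j` of the affine
charts `V j` of `Y`, seen in the function field of `X`. -/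
structure FiberData {κ : Type} {X Y : Over (Spec (CommRingCat.of k))} [IsIntegral X.left]
    (f : X ⟶ Y) (V : κ → Y.left.Opens) (S : κ → Subalgebra k X.left.functionField) : Prop where
  affine : ∀ j, IsAffineOpen (V j)
  cover : ∀ y, ∃ j, y ∈ V j
  mem_iff : ∀ (x : X.left) (j : κ), f.left x ∈ V j ↔ S j ≤ localRing k X x
  eq_of : ∀ (x x' : X.left) (j : κ), S j ≤ localRing k X x → S j ≤ localRing k X x' →
    (∀ g ∈ S j, g⁻¹ ∈ localRing k X x ↔ g⁻¹ ∈ localRing k X x') → f.left x = f.left x'
  inv_iff : ∀ (x x' : X.left), f.left x = f.left x' → ∀ j, S j ≤ localRing k X x →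
    ∀ g ∈ S j, (g⁻¹ ∈ localRing k X x ↔ g⁻¹ ∈ localRing k X x')

end

end H1F.AMP
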