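import Pool.Agent.Lib.H1F.AMP.A0

/-!
# H1F AMP, chunk A1: elementary facts on local rings
-/

open CategoryTheory CategoryTheory.Limits AlgebraicGeometry Order

universe u

namespace H1F.AMP

variable {k : Type u} [Field k] {X : Over (Spec (CommRingCat.of k))} [IsIntegral X.left]

theorem A1_alg {x y : X.left} (h : x ⤳ y) (s : X.left.presheaf.stalk y) :
    algebraMap (X.left.presheaf.stalk x) X.left.functionField
      ((X.left.presheaf.stalkSpecializes h).hom s) =
    algebraMap (X.left.presheaf.stalk y) X.left.functionField s := by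
  have := TopCat.Presheaf.stalkSpecializes_comp_apply (C := CommRingCat) X.left.presheaf
    ((genericPoint_spec X.left).specializes trivial) h s
  exact this

theorem localRing_le {x y : X.left} (h : x ⤳ y) : localRing k X y ≤ localRing k X x := by
  intro f hf
  obtain ⟨s, rfl⟩ := (mem_localRing X y f).1 hf
  refine (mem_localRing X x _).2 ⟨(X.left.presheaf.stalkSpecializes h).hom s, A1_alg h s⟩

theorem A1_inj (x : X.left) :
    Function.Injective (algebraMap (X.left.presheaf.stalk x) X.left.functionField) := by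
  have : IsFractionRing (X.left.presheaf.stalk x) X.left.functionField := inferInstance
  exact IsFractionRing.injective _ _

theorem A1_isUnit_iff {x : X.left} (s : X.left.presheaf.stalk x) :
    IsUnit s ↔ ¬ NonUnit (localRing k X x) (algebraMap _ X.left.functionField s) := by
  have hi := A1_inj x
  constructor
  · intro hs h
    rcases h with h | h
    · have : s = 0 := hi (by rw [h, map_zero])
      rw [this] at hs
      exact not_isUnit_zero hs
    · apply h
      obtain ⟨t, ht⟩ := hs.exists_right_inv
      refine (mem_localRing X x _).2 ⟨t, ?_⟩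
      have h1 : algebraMap _ X.left.functionField s * algebraMap _ X.left.functionField t = 1 := by
        rw [← map_mul, ht, map_one]
      exact eq_inv_of_mul_eq_one_right h1
  · intro h
    unfold NonUnit at h
    push Not at h
    obtain ⟨h0, h1⟩ := h
    obtain ⟨t, ht⟩ := (mem_localRing X x _).1 h1
    refine IsUnit.of_mul_eq_one t (hi ?_)
    rw [map_mul, ht, map_one, mul_inv_cancel₀ h0]

theorem nonUnit_add {x : X.left} {a b : X.left.functionField} (ha : a ∈ localRing k X x)
    (hb : b ∈ localRing k X x) (ha' : NonUnit (localRing k X x) a)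
    (hb' : NonUnit (localRing k X x) b) : NonUnit (localRing k X x) (a + b) := by
  obtain ⟨s, rfl⟩ := (mem_localRing X x _).1 ha
  obtain ⟨t, rfl⟩ := (mem_localRing X x _).1 hb
  by_contra hcon
  rw [← map_add, ← A1_isUnit_iff] at hcon
  have hs : s ∈ nonunits _ := fun h ↦ (A1_isUnit_iff s).1 h ha'
  have ht : t ∈ nonunits _ := fun h ↦ (A1_isUnit_iff t).1 h hb'
  exact IsLocalRing.nonunits_add hs ht hcon

theorem nonUnit_mul {K : Type*} [Field K] [Algebra k K] {L : Subalgebra k K} {a b : K}
    (hb : b ∈ L) (ha' : NonUnit L a) : NonUnit L (a * b) := by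
  by_cases hb0 : b = 0
  · left; rw [hb0, mul_zero]
  rcases ha' with h | h
  · left; rw [h, zero_mul]
  · right
    intro h1
    apply h
    have : a⁻¹ = (a * b)⁻¹ * b := by
      rw [mul_inv, mul_assoc, inv_mul_cancel₀ hb0, mul_one]
    rw [this]
    exact L.mul_mem h1 hb

theorem nonUnit_or {K : Type*} [Field K] [Algebra k K] {L : Subalgebra k K} {a b : K}
    (h : NonUnit L (a * b)) : NonUnit L a ∨ NonUnit L b := by
  by_contra hcon
  push Not at hcon
  obtain ⟨h1, h2⟩ := hcon
  unfold NonUnit at h1 h2
  push Not at h1 h2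
  rcases h with h | h
  · exact mul_ne_zero h1.1 h2.1 h
  · apply h
    rw [mul_inv]
    exact L.mul_mem h1.2 h2.2

theorem not_nonUnit_algebraMap {K : Type*} [Field K] [Algebra k K] (L : Subalgebra k K) {c : k}
    (hc : c ≠ 0) : ¬ NonUnit L (algebraMap k K c) := by
  rintro (h | h)
  · exact hc ((map_eq_zero _).1 h)
  · rw [← map_inv₀] at h
    exact h (L.algebraMap_mem _)

theorem exists_div {ι : Type} {U : ι → X.left.Opens}
    {R : ι → Subalgebra k X.left.functionField} (c : Charts X U R) (i : ι)
    (f : X.left.functionField) : ∃ a ∈ R i, ∃ b ∈ R i, b ≠ 0 ∧ f = a / b := by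
  have := c.nonempty i
  have hfr := functionField_isFractionRing_of_isAffineOpen X.left (U i) (c.affine i)
  obtain ⟨a, b, hb, rfl⟩ := IsFractionRing.div_surjective (A := Γ(X.left, U i)) f
  refine ⟨_, (c.range i _).2 ⟨a, rfl⟩, _, (c.range i _).2 ⟨b, rfl⟩, ?_, rfl⟩
  have : (algebraMap Γ(X.left, U i) X.left.functionField) b ≠ 0 :=
    IsFractionRing.to_map_ne_zero_of_mem_nonZeroDivisors hb
  exact this

theorem localRing_eq {ι : Type} [Finite ι] [Nonempty ι] {U : ι → X.left.Opens}
    {R : ι → Subalgebra k X.left.functionField} (c : Charts X U R) (i : ι) {x y : X.left}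
    (hx : R i ≤ localRing k X x) (hy : R i ≤ localRing k X y)
    (h : ∀ g ∈ R i, (g⁻¹ ∈ localRing k X x ↔ g⁻¹ ∈ localRing k X y)) :
    localRing k X x = localRing k X y := by
  have hx' := (c.mem_iff i x).2 hx
  have hy' := (c.mem_iff i y).2 hy
  ext f
  rw [c.mem_localRing hx', c.mem_localRing hy']
  constructor
  · rintro ⟨a, ha, s, hs, hs0, hsi, rfl⟩
    exact ⟨a, ha, s, hs, hs0, (h s hs).1 hsi, rfl⟩
  · rintro ⟨a, ha, s, hs, hs0, hsi, rfl⟩
    exact ⟨a, ha, s, hs, hs0, (h s hs).2 hsi, rfl⟩

theorem eq_of_localRing_eq {ι : Type} [Finite ι] [Nonempty ι] {U : ι → X.left.Opens}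
    {R : ι → Subalgebra k X.left.functionField} (c : Charts X U R) {x y : X.left}
    (h : localRing k X x = localRing k X y) : x = y := by
  refine c.eq_of_dominates x y h.le ?_
  intro f _ hf
  rw [h]
  exact hf

end H1F.AMP
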