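import Pool.Agent.Lib.H1F.AMP.A1
import Pool.Agent.Lib.H1F.N.N1

/-!
# H1F AMP, chunk A10A: the line in a chart
-/

open CategoryTheory CategoryTheory.Limits AlgebraicGeometry Order MvPolynomial

universe u

namespace H1F.AMP

variable {k : Type u} [Field k]

/-- The chart `R` is `k[x₀, x₁, x₂, 1/U]`, and `U(T, 0, 0) = 1`. -/
structure FrData (k : Type*) {K : Type*} [Field k] [Field K] [Algebra k K] (R : Subalgebra k K)
    (x : Fin 3 → K) : Prop where
  ind : AlgebraicIndependent k x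
  eq : ∃ U : MvPolynomial (Fin 3) k, R = Fr (x 0) (x 1) (x 2) U ∧
    aeval ![(Polynomial.X : Polynomial k), 0, 0] U = 1

/-- The evaluation `P ↦ P(T, 0, 0)`. -/
noncomputable def A10A_ev (k : Type*) [Field k] : MvPolynomial (Fin 3) k →ₐ[k] Polynomial k :=
  aeval ![(Polynomial.X : Polynomial k), 0, 0]

theorem A10A_ker {k : Type*} [Field k] (Q : MvPolynomial (Fin 3) k) :
    Q - Polynomial.aeval (X 0 : MvPolynomial (Fin 3) k) (A10A_ev k Q) ∈
      Ideal.span {(X 1 : MvPolynomial (Fin 3) k), X 2} := by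
  induction Q using MvPolynomial.induction_on with
  | C a =>
    have : A10A_ev k (C a) = Polynomial.C a := by
      rw [← MvPolynomial.algebraMap_eq, AlgHom.commutes]
      rfl
    rw [this, Polynomial.aeval_C, MvPolynomial.algebraMap_eq, sub_self]
    exact Ideal.zero_mem _
  | add P Q hP hQ =>
    have e : P + Q - Polynomial.aeval (X 0 : MvPolynomial (Fin 3) k) (A10A_ev k (P + Q)) =
        (P - Polynomial.aeval (X 0 : MvPolynomial (Fin 3) k) (A10A_ev k P)) +
        (Q - Polynomial.aeval (X 0 : MvPolynomial (Fin 3) k) (A10A_ev k Q)) := by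
      rw [map_add, map_add]; ring
    rw [e]
    exact Ideal.add_mem _ hP hQ
  | mul_X P i hP =>
    rw [map_mul, map_mul]
    have h1 : (X 1 : MvPolynomial (Fin 3) k) ∈ Ideal.span {(X 1 : MvPolynomial (Fin 3) k), X 2} :=
      Ideal.subset_span (by simp)
    have h2 : (X 2 : MvPolynomial (Fin 3) k) ∈ Ideal.span {(X 1 : MvPolynomial (Fin 3) k), X 2} :=
      Ideal.subset_span (by simp)
    fin_cases i
    · have e0 : A10A_ev k (X 0) = Polynomial.X := by simp [A10A_ev]
      change P * X 0 - _ * Polynomial.aeval (X 0) (A10A_ev k (X 0)) ∈ _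
      rw [e0, Polynomial.aeval_X, ← sub_mul]
      exact Ideal.mul_mem_right _ _ hP
    · have e0 : A10A_ev k (X 1) = 0 := by simp [A10A_ev]
      change P * X 1 - _ * Polynomial.aeval (X 0) (A10A_ev k (X 1)) ∈ _
      rw [e0, map_zero, mul_zero, sub_zero]
      exact Ideal.mul_mem_left _ _ h1
    · have e0 : A10A_ev k (X 2) = 0 := by simp [A10A_ev]
      change P * X 2 - _ * Polynomial.aeval (X 0) (A10A_ev k (X 2)) ∈ _
      rw [e0, map_zero, mul_zero, sub_zero]
      exact Ideal.mul_mem_left _ _ h2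

/-- `q` is the value of `r` on the line. -/
def A10A_Ev {k K : Type*} [Field k] [Field K] [Algebra k K] (x : Fin 3 → K)
    (U : MvPolynomial (Fin 3) k) (r : K) (q : Polynomial k) : Prop :=
  ∃ (Q : MvPolynomial (Fin 3) k) (N : ℕ), r * aeval x U ^ N = aeval x Q ∧ A10A_ev k Q = q

section Ev

variable {k K : Type*} [Field k] [Field K] [Algebra k K] {x : Fin 3 → K}
  {U : MvPolynomial (Fin 3) k}

theorem A10A_unique (hx : AlgebraicIndependent k x) (hU : A10A_ev k U = 1) {r : K}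
    {q q' : Polynomial k} (h : A10A_Ev x U r q) (h' : A10A_Ev x U r q') : q = q' := by
  obtain ⟨Q, N, hQ, rfl⟩ := h
  obtain ⟨Q', N', hQ', rfl⟩ := h'
  have e : aeval x (Q * U ^ N') = aeval x (Q' * U ^ N) := by
    rw [map_mul, map_mul, map_pow, map_pow, ← hQ, ← hQ']
    ring
  have e' := congrArg (A10A_ev k) (hx e)
  rw [map_mul, map_mul, map_pow, map_pow, hU, one_pow, one_pow, mul_one, mul_one] at e'
  exact e'

theorem A10A_add (hU : A10A_ev k U = 1) {r s : K} {q q' : Polynomial k}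
    (h : A10A_Ev x U r q) (h' : A10A_Ev x U s q') : A10A_Ev x U (r + s) (q + q') := by
  obtain ⟨Q, N, hQ, rfl⟩ := h
  obtain ⟨Q', N', hQ', rfl⟩ := h'
  refine ⟨Q * U ^ N' + Q' * U ^ N, N + N', ?_, ?_⟩
  · rw [map_add, map_mul, map_mul, map_pow, map_pow, ← hQ, ← hQ']
    ring
  · rw [map_add, map_mul, map_mul, map_pow, map_pow, hU, one_pow, one_pow, mul_one, mul_one]

theorem A10A_mul {r s : K} {q q' : Polynomial k}
    (h : A10A_Ev x U r q) (h' : A10A_Ev x U s q') : A10A_Ev x U (r * s) (q * q') := by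
  obtain ⟨Q, N, hQ, rfl⟩ := h
  obtain ⟨Q', N', hQ', rfl⟩ := h'
  refine ⟨Q * Q', N + N', ?_, ?_⟩
  · rw [map_mul, ← hQ, ← hQ']
    ring
  · rw [map_mul]

theorem A10A_poly (Q : MvPolynomial (Fin 3) k) : A10A_Ev x U (aeval x Q) (A10A_ev k Q) :=
  ⟨Q, 0, by rw [pow_zero, mul_one], rfl⟩

/-- The prime ideal of the line. -/
def A10A_P (hx : AlgebraicIndependent k x) (hU : A10A_ev k U = 1)
    (S : Subalgebra k K) (hS : ∀ r ∈ S, ∃ q, A10A_Ev x U r q) : Ideal S where
  carrier := {r | A10A_Ev x U r 0}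
  add_mem' := by
    intro a b ha hb
    have := A10A_add hU ha hb
    rwa [add_zero] at this
  zero_mem' := ⟨0, 0, by simp, by simp⟩
  smul_mem' := by
    intro c a ha
    obtain ⟨q, hq⟩ := hS c c.2
    have := A10A_mul hq ha
    rw [mul_zero] at this
    exact this

end Ev

/-- **A10a (M/L).** The point `x₁ = x₂ = 0` (generic in `x₀`) of a chart
`k[x₀, x₁, x₂, 1/U]`. -/
theorem exists_linePoint {X : Over (Spec (CommRingCat.of k))} [IsIntegral X.left] {ι : Type}
    [Finite ι] [Nonempty ι] {U : ι → X.left.Opens} {R : ι → Subalgebra k X.left.functionField}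
    (c : Charts X U R) (i : ι) {x : Fin 3 → X.left.functionField} (hR : FrData k (R i) x) :
    ∃ z₀ ∈ U i, NonUnit (localRing k X z₀) (x 1) ∧ NonUnit (localRing k X z₀) (x 2) ∧
      (∀ P : Polynomial k, P ≠ 0 → ¬ NonUnit (localRing k X z₀) (Polynomial.aeval (x 0) P)) ∧
      (∀ a ∈ R i, ∃ q ∈ Algebra.adjoin k {x 0}, NonUnit (localRing k X z₀) (a - q)) ∧
      ∀ a ∈ R i, NonUnit (localRing k X z₀) a → ∃ b ∈ R i, ∃ b' ∈ R i, a = b * x 1 + b' * x 2 := by
  obtain ⟨hx, V, hV, hV1⟩ := hR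
  have hxx : ![x 0, x 1, x 2] = x := by
    ext a
    fin_cases a <;> rfl
  have hev : A10A_ev k V = 1 := hV1
  have hV0 : aeval x V ≠ 0 := by
    intro h
    have h1 : V = 0 := (map_eq_zero_iff (aeval x : MvPolynomial (Fin 3) k →ₐ[k] _) hx).1 h
    rw [h1, map_zero] at hev
    exact zero_ne_one hev
  have hmem : ∀ r, r ∈ R i ↔ ∃ (P : MvPolynomial (Fin 3) k) (N : ℕ),
      r * aeval x V ^ N = aeval x P := by
    intro r
    have := mem_Fr (x := x 0) (y := x 1) (z := x 2) (U := V) (r := r) (by rw [hxx]; exact hV0)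
    rw [hxx, ← hV] at this
    exact this
  have hS : ∀ r ∈ R i, ∃ q, A10A_Ev x V r q := by
    intro r hr
    obtain ⟨P, N, hP⟩ := (hmem r).1 hr
    exact ⟨_, P, N, hP, rfl⟩
  let P := A10A_P hx hev (R i) hS
  have hPmem : ∀ a : R i, a ∈ P ↔ A10A_Ev x V a 0 := fun a ↦ Iff.rfl
  have hprime : P.IsPrime := by
    refine Ideal.isPrime_iff.2 ⟨?_, ?_⟩
    · rw [Ne, Ideal.eq_top_iff_one, hPmem]
      intro h
      have h1 : A10A_Ev x V ((1 : R i) : X.left.functionField) 1 := ⟨1, 0, by simp, by simp⟩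
      exact zero_ne_one (A10A_unique hx hev h h1)
    · intro a b hab
      rw [hPmem] at hab
      obtain ⟨q, hq⟩ := hS a a.2
      obtain ⟨q', hq'⟩ := hS b b.2
      have h1 := A10A_unique hx hev hab (A10A_mul hq hq')
      rcases mul_eq_zero.1 h1.symm with h2 | h2
      · left
        rw [hPmem, ← h2]
        exact hq
      · right
        rw [hPmem, ← h2]
        exact hq'
  obtain ⟨z₀, hz₀, hz⟩ := c.exists_point i P
  have key : ∀ a ∈ R i, (NonUnit (localRing k X z₀) a ↔ A10A_Ev x V a 0) := by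
    intro a ha
    exact ((hz ⟨a, ha⟩).symm.trans (hPmem ⟨a, ha⟩))
  have hpR : ∀ Q : MvPolynomial (Fin 3) k, aeval x Q ∈ R i := fun Q ↦
    (hmem _).2 ⟨Q, 0, by rw [pow_zero, mul_one]⟩
  have hxR : ∀ a, x a ∈ R i := fun a ↦ by
    have := hpR (MvPolynomial.X a)
    rwa [aeval_X] at this
  have hx1 : A10A_Ev x V (x 1) 0 := by
    have := A10A_poly (x := x) (U := V) (MvPolynomial.X 1)
    rw [aeval_X] at this
    have e : A10A_ev k (MvPolynomial.X 1) = 0 := by simp [A10A_ev]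
    rwa [e] at this
  have hx2 : A10A_Ev x V (x 2) 0 := by
    have := A10A_poly (x := x) (U := V) (MvPolynomial.X 2)
    rw [aeval_X] at this
    have e : A10A_ev k (MvPolynomial.X 2) = 0 := by simp [A10A_ev]
    rwa [e] at this
  have hpol : ∀ P : Polynomial k, A10A_Ev x V (Polynomial.aeval (x 0) P) P := by
    intro P
    have h1 := A10A_poly (x := x) (U := V)
      (Polynomial.aeval (MvPolynomial.X 0 : MvPolynomial (Fin 3) k) P)
    have e1 : aeval x (Polynomial.aeval (MvPolynomial.X 0 : MvPolynomial (Fin 3) k) P) =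
        Polynomial.aeval (x 0) P := by
      rw [← Polynomial.aeval_algHom_apply, aeval_X]
    have e2 : A10A_ev k (Polynomial.aeval (MvPolynomial.X 0 : MvPolynomial (Fin 3) k) P) = P := by
      rw [← Polynomial.aeval_algHom_apply]
      have : A10A_ev k (MvPolynomial.X 0) = Polynomial.X := by simp [A10A_ev]
      rw [this, Polynomial.aeval_X_left_apply]
    rwa [e1, e2] at h1
  have hpolR : ∀ P : Polynomial k, Polynomial.aeval (x 0) P ∈ R i := by
    intro P
    have h1 : Polynomial.aeval (x 0) P ∈ Algebra.adjoin k {x 0} :=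
      Polynomial.aeval_mem_adjoin_singleton k (x 0)
    exact (Algebra.adjoin_le (by simpa using hxR 0)) h1
  refine ⟨z₀, hz₀, (key _ (hxR 1)).2 hx1, (key _ (hxR 2)).2 hx2, ?_, ?_, ?_⟩
  · intro P hP hn
    exact hP (A10A_unique hx hev (hpol P) ((key _ (hpolR P)).1 hn))
  · intro a ha
    obtain ⟨q, hq⟩ := hS a ha
    refine ⟨Polynomial.aeval (x 0) q, Polynomial.aeval_mem_adjoin_singleton k (x 0), ?_⟩
    rw [key _ (Subalgebra.sub_mem _ ha (hpolR q))]
    have h1 := A10A_add hev hq (hpol (-q))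
    rw [map_neg, ← sub_eq_add_neg, add_neg_cancel] at h1
    exact h1
  · intro a ha hn
    obtain ⟨Q, N, hQ, hQ0⟩ := (key a ha).1 hn
    have h1 := A10A_ker Q
    rw [hQ0, map_zero, sub_zero, Ideal.mem_span_pair] at h1
    obtain ⟨Q1, Q2, hQQ⟩ := h1
    have hVi : (aeval x V)⁻¹ ∈ R i := by
      rw [hmem]
      exact ⟨1, 1, by rw [pow_one, inv_mul_cancel₀ hV0, map_one]⟩
    refine ⟨aeval x Q1 * (aeval x V)⁻¹ ^ N, Subalgebra.mul_mem _ (hpR Q1)
      (Subalgebra.pow_mem _ hVi N), aeval x Q2 * (aeval x V)⁻¹ ^ N,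
      Subalgebra.mul_mem _ (hpR Q2) (Subalgebra.pow_mem _ hVi N), ?_⟩
    have e : a = aeval x Q * (aeval x V)⁻¹ ^ N := by
      rw [← hQ, mul_assoc, ← mul_pow, mul_inv_cancel₀ hV0, one_pow, mul_one]
    rw [e, ← hQQ, map_add, map_mul, map_mul, aeval_X, aeval_X]
    ring

end H1F.AMP
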