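import Pool.Agent.Lib.H1F.AMP.A1

/-!
# H1F AMP, chunk A10B: points of the line
-/

open CategoryTheory CategoryTheory.Limits AlgebraicGeometry Order

universe u

namespace H1F.AMP

variable {k : Type u} [Field k]

theorem A10B_le {X : Over (Spec (CommRingCat.of k))} [IsIntegral X.left] {z x : X.left}
    (hx : z ⤳ x) {a : X.left.functionField}
    (ha : NonUnit (localRing k X z) a) : NonUnit (localRing k X x) a :=
  ha.imp id fun h h' ↦ h (localRing_le hx h')

theorem A10B_sub {X : Over (Spec (CommRingCat.of k))} [IsIntegral X.left] {x : X.left}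
    {a b : X.left.functionField} (ha : a ∈ localRing k X x)
    (hb : b ∈ localRing k X x) (ha' : NonUnit (localRing k X x) a)
    (hb' : NonUnit (localRing k X x) b) : NonUnit (localRing k X x) (a - b) := by
  rw [sub_eq_add_neg]
  refine nonUnit_add ha (Subalgebra.neg_mem _ hb) ha' ?_
  have := nonUnit_mul (Subalgebra.neg_mem _ (Subalgebra.one_mem (localRing k X x))) hb'
  rwa [mul_neg_one] at this

/-- A polynomial in `t` which is a non-unit has a factor `t - l` which is a non-unit. -/
theorem A10B_poly [IsAlgClosed k] {K : Type*} [Field K] [Algebra k K] {L : Subalgebra k K}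
    (t : K) : ∀ (n : ℕ) (P : Polynomial k), P.natDegree = n → P ≠ 0 →
      NonUnit L (Polynomial.aeval t P) → ∃ l : k, NonUnit L (t - algebraMap k K l) := by
  intro n
  induction n with
  | zero =>
    intro P hn h0 hP
    rw [Polynomial.eq_C_of_natDegree_eq_zero hn, Polynomial.aeval_C] at hP
    exfalso
    refine not_nonUnit_algebraMap L ?_ hP
    intro hc
    apply h0
    rw [Polynomial.eq_C_of_natDegree_eq_zero hn, hc, Polynomial.C_0]
  | succ n ih =>
    intro P hn h0 hP
    have hdeg : P.degree ≠ 0 := by
      intro h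
      have := Polynomial.natDegree_eq_zero_iff_degree_le_zero.2 h.le
      omega
    obtain ⟨l, hl⟩ := IsAlgClosed.exists_root P hdeg
    obtain ⟨Q, hQ⟩ := Polynomial.dvd_iff_isRoot.2 hl
    have hQ0 : Q ≠ 0 := by
      rintro rfl
      apply h0
      rw [hQ, mul_zero]
    have hQn : Q.natDegree = n := by
      have h1 : P.natDegree = 1 + Q.natDegree := by
        rw [hQ, Polynomial.natDegree_mul (Polynomial.X_sub_C_ne_zero l) hQ0,
          Polynomial.natDegree_X_sub_C]
      omega
    rw [hQ, map_mul] at hP
    rcases nonUnit_or hP with h | h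
    · refine ⟨l, ?_⟩
      simpa using h
    · exact ih Q hQn hQ0 h

/-- `P(t) - P(l)` is a non-unit if `t - l` is. -/
theorem A10B_eval {K : Type*} [Field K] [Algebra k K] {L : Subalgebra k K} {t : K} (ht : t ∈ L)
    {l : k} (hl : NonUnit L (t - algebraMap k K l)) (P : Polynomial k) :
    NonUnit L (Polynomial.aeval t P - algebraMap k K (P.eval l)) := by
  obtain ⟨Q, hQ⟩ := Polynomial.X_sub_C_dvd_sub_C_eval (p := P) (a := l)
  have e : Polynomial.aeval t P - algebraMap k K (P.eval l) =
      (t - algebraMap k K l) * Polynomial.aeval t Q := by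
    have := congrArg (Polynomial.aeval t) hQ
    simpa using this
  rw [e]
  refine nonUnit_mul ?_ hl
  have h1 : Polynomial.aeval t Q ∈ Algebra.adjoin k {t} := Polynomial.aeval_mem_adjoin_singleton k t
  have h2 : Algebra.adjoin k {t} ≤ L := Algebra.adjoin_le (by simpa using ht)
  exact h2 h1

/-- **A10b (M).** The points of the curve `x₁ = x₂ = 0` of a chart: generic or closed in the
chart. -/
theorem eq_of_specializes_of_line {X : Over (Spec (CommRingCat.of k))} [IsIntegral X.left]
    [IsAlgClosed k] {ι : Type} [Finite ι] [Nonempty ι] {U : ι → X.left.Opens}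
    {R : ι → Subalgebra k X.left.functionField} (c : Charts X U R) (i : ι)
    {x : Fin 3 → X.left.functionField} {z₀ : X.left} (hz₀ : z₀ ∈ U i)
    (hx : ∀ a, x a ∈ R i)
    (hred : ∀ a ∈ R i, ∃ q ∈ Algebra.adjoin k {x 0}, NonUnit (localRing k X z₀) (a - q))
    (hgen : ∀ a ∈ R i, NonUnit (localRing k X z₀) a →
      ∃ b ∈ R i, ∃ b' ∈ R i, a = b * x 1 + b' * x 2)
    {y y' : X.left} (hy : y' ∈ U i) (hyy : y ⤳ y') (h1 : NonUnit (localRing k X y) (x 1))
    (h2 : NonUnit (localRing k X y) (x 2)) (hne : y ≠ z₀) : y = y' := by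
  have hz : R i ≤ localRing k X z₀ := (c.mem_iff i z₀).1 hz₀
  have hy' : R i ≤ localRing k X y' := (c.mem_iff i y').1 hy
  have hyR : R i ≤ localRing k X y := hy'.trans (localRing_le hyy)
  have hadj : Algebra.adjoin k {x 0} ≤ R i := Algebra.adjoin_le (by simpa using hx 0)
  have hsub : ∀ a ∈ R i, NonUnit (localRing k X z₀) a → NonUnit (localRing k X y) a := by
    intro a ha hn
    obtain ⟨b, hb, b', hb', rfl⟩ := hgen a ha hn
    refine nonUnit_add (Subalgebra.mul_mem _ (hyR hb) (hyR (hx 1)))
      (Subalgebra.mul_mem _ (hyR hb') (hyR (hx 2))) ?_ ?_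
    · rw [mul_comm]
      exact nonUnit_mul (hyR hb) h1
    · rw [mul_comm]
      exact nonUnit_mul (hyR hb') h2
  have hl : ∃ l : k, NonUnit (localRing k X y) (x 0 - algebraMap k _ l) := by
    by_contra hcon
    apply hne
    refine eq_of_localRing_eq c (localRing_eq c i hyR hz ?_)
    intro g hg
    by_cases hg0 : g = 0
    · rw [hg0, inv_zero]
      exact ⟨fun _ ↦ Subalgebra.zero_mem _, fun _ ↦ Subalgebra.zero_mem _⟩
    constructor
    · intro h
      by_contra hcon'
      rcases hsub g hg (Or.inr hcon') with h' | h'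
      · exact hg0 h'
      · exact h' h
    · intro h
      by_contra hcon'
      have hgy : NonUnit (localRing k X y) g := Or.inr hcon'
      obtain ⟨q, hq, hgq⟩ := hred g hg
      have hgq' := hsub _ (Subalgebra.sub_mem _ hg (hadj hq)) hgq
      have hqy : NonUnit (localRing k X y) q := by
        have e : q = g - (g - q) := by ring
        rw [e]
        exact A10B_sub (hyR hg) (Subalgebra.sub_mem _ (hyR hg) (hyR (hadj hq))) hgy hgq'
      rw [Algebra.adjoin_singleton_eq_range_aeval] at hq
      obtain ⟨P, rfl⟩ := hq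
      by_cases hP : P = 0
      · rw [hP] at hgq
        have : NonUnit (localRing k X z₀) g := by simpa using hgq
        rcases this with h' | h'
        · exact hg0 h'
        · exact h' h
      · exact hcon (A10B_poly (x 0) _ P rfl hP hqy)
  obtain ⟨l, hl⟩ := hl
  refine eq_of_localRing_eq c (localRing_eq c i hyR hy' ?_)
  intro g hg
  by_cases hg0 : g = 0
  · rw [hg0, inv_zero]
    exact ⟨fun _ ↦ Subalgebra.zero_mem _, fun _ ↦ Subalgebra.zero_mem _⟩
  constructor
  · intro h
    by_contra hcon'
    have hgy' : NonUnit (localRing k X y') g := Or.inr hcon'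
    obtain ⟨q, hq, hgq⟩ := hred g hg
    have hgq' := hsub _ (Subalgebra.sub_mem _ hg (hadj hq)) hgq
    rw [Algebra.adjoin_singleton_eq_range_aeval] at hq
    obtain ⟨P, hPq⟩ := hq
    have h3 := A10B_eval (hyR (hx 0)) hl P
    have hqR : q ∈ R i := by
      apply hadj
      rw [Algebra.adjoin_singleton_eq_range_aeval]
      exact ⟨P, hPq⟩
    have h4 : NonUnit (localRing k X y) (g - algebraMap k _ (P.eval l)) := by
      have e : g - algebraMap k X.left.functionField (P.eval l) =
          (g - q) + (Polynomial.aeval (x 0) P - algebraMap k _ (P.eval l)) := by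
        have : Polynomial.aeval (x 0) P = q := hPq
        rw [this]; ring
      rw [e]
      refine nonUnit_add (Subalgebra.sub_mem _ (hyR hg) (hyR hqR)) ?_ hgq' h3
      have : Polynomial.aeval (x 0) P = q := hPq
      rw [this]
      exact Subalgebra.sub_mem _ (hyR hqR) (Subalgebra.algebraMap_mem _ _)
    by_cases hc : P.eval l = 0
    · rw [hc, map_zero, sub_zero] at h4
      rcases h4 with h' | h'
      · exact hg0 h'
      · exact h' h
    · have h5 := A10B_le hyy h4
      have h6 := A10B_sub (hy' hg)
        (Subalgebra.sub_mem _ (hy' hg) (Subalgebra.algebraMap_mem _ (P.eval l))) hgy' h5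
      have e : g - (g - algebraMap k X.left.functionField (P.eval l)) =
          algebraMap k _ (P.eval l) := by ring
      rw [e] at h6
      exact not_nonUnit_algebraMap _ hc h6
  · intro h
    exact localRing_le hyy h

end H1F.AMP
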