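import Pool.Agent.Lib.H1F.AMP.A1
import Pool.Agent.Lib.H1F.FLIP.F1

/-!
# H1F AMP, chunk A10C: points which are separated by a chart
-/

open CategoryTheory CategoryTheory.Limits AlgebraicGeometry Order

universe u

namespace H1F.AMP

variable {k : Type u} [Field k]

/-- **A10c (S/M).** Points which are separated by the chart but not by `S`. -/
theorem nonUnit_of_ne {X : Over (Spec (CommRingCat.of k))} [IsIntegral X.left]
    {ι : Type} [Finite ι] [Nonempty ι] {U : ι → X.left.Opens}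
    {R : ι → Subalgebra k X.left.functionField} (c : Charts X U R) (i : ι)
    {S : Subalgebra k X.left.functionField} (hS : S ≤ R i) {b : X.left.functionField}
    (hb : b ∈ S) (hb0 : b ≠ 0) (hR : R i ≤ S ⊔ Algebra.adjoin k {b⁻¹}) {y y' : X.left}
    (hy : y' ∈ U i) (hyy : y ⤳ y') (hne : y ≠ y')
    (hinv : ∀ g ∈ S, (g⁻¹ ∈ localRing k X y ↔ g⁻¹ ∈ localRing k X y')) :
    NonUnit (localRing k X y') b ∧ NonUnit (localRing k X y) b := by
  have hy' : R i ≤ localRing k X y' := (c.mem_iff i y').1 hy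
  have hyR : R i ≤ localRing k X y := hy'.trans (localRing_le hyy)
  have key : b⁻¹ ∉ localRing k X y' := by
    intro hbi
    have hbi' : b⁻¹ ∈ localRing k X y := (hinv b hb).2 hbi
    apply hne
    refine eq_of_localRing_eq c (localRing_eq c i hyR hy' ?_)
    intro a ha
    obtain ⟨n, r, hr, rfl⟩ := (FLIP.mem_sup_inv_iff S hb hb0 a).1 (hR ha)
    have e1 : (r * b⁻¹ ^ n)⁻¹ = r⁻¹ * b ^ n := by
      rw [mul_inv, inv_pow, inv_inv]
    have e2 : r⁻¹ = (r⁻¹ * b ^ n) * b⁻¹ ^ n := by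
      rw [mul_assoc, ← mul_pow, mul_inv_cancel₀ hb0, one_pow, mul_one]
    have aux : ∀ L : Subalgebra k X.left.functionField, R i ≤ L → b⁻¹ ∈ L →
        ((r * b⁻¹ ^ n)⁻¹ ∈ L ↔ r⁻¹ ∈ L) := by
      intro L hL hbL
      rw [e1]
      constructor
      · intro h
        rw [e2]
        exact L.mul_mem h (L.pow_mem hbL n)
      · intro h
        exact L.mul_mem h (L.pow_mem (hL (hS hb)) n)
    rw [aux _ hyR hbi', aux _ hy' hbi]
    exact hinv r hr
  exact ⟨Or.inr key, Or.inr fun h ↦ key ((hinv b hb).1 h)⟩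

end H1F.AMP
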