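import Pool.Agent.Lib.H1F.AMP.A4

/-!
# H1F AMP, chunk A10F: the line is contracted
-/

open CategoryTheory CategoryTheory.Limits AlgebraicGeometry Order

universe u

namespace H1F.AMP

variable {k : Type u} [Field k] {X Y : Over (Spec (CommRingCat.of k))} [IsIntegral X.left]
  [IsLocallyNoetherian X.left] {p : ℕ} [Fact p.Prime] [CharP k p]
  {A v w : X.left.functionField}

omit [IsLocallyNoetherian X.left] in
theorem A10F_const {z : X.left} {G : Set X.left.functionField}
    (hG : ∀ g ∈ G, g ∈ localRing k X z ∧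
      ∃ c : k, NonUnit (localRing k X z) (g - algebraMap k _ c)) :
    ∀ g ∈ Algebra.adjoin k G, g ∈ localRing k X z ∧
      ∃ c : k, NonUnit (localRing k X z) (g - algebraMap k _ c) := by
  intro g hg
  induction hg using Algebra.adjoin_induction with
  | mem x hx => exact hG x hx
  | algebraMap r => exact ⟨Subalgebra.algebraMap_mem _ r, r, Or.inl (sub_self _)⟩
  | add x y _ _ hx hy =>
    obtain ⟨hxL, c, hc⟩ := hx
    obtain ⟨hyL, d, hd⟩ := hy
    refine ⟨Subalgebra.add_mem _ hxL hyL, c + d, ?_⟩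
    have e : x + y - algebraMap k X.left.functionField (c + d) =
        (x - algebraMap k _ c) + (y - algebraMap k _ d) := by
      rw [map_add]; ring
    rw [e]
    exact nonUnit_add (Subalgebra.sub_mem _ hxL (Subalgebra.algebraMap_mem _ c))
      (Subalgebra.sub_mem _ hyL (Subalgebra.algebraMap_mem _ d)) hc hd
  | mul x y _ _ hx hy =>
    obtain ⟨hxL, c, hc⟩ := hx
    obtain ⟨hyL, d, hd⟩ := hy
    refine ⟨Subalgebra.mul_mem _ hxL hyL, c * d, ?_⟩
    have e : x * y - algebraMap k X.left.functionField (c * d) =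
        (x - algebraMap k _ c) * y + (y - algebraMap k _ d) * algebraMap k _ c := by
      rw [map_mul]; ring
    rw [e]
    exact nonUnit_add
      (Subalgebra.mul_mem _ (Subalgebra.sub_mem _ hxL (Subalgebra.algebraMap_mem _ c)) hyL)
      (Subalgebra.mul_mem _ (Subalgebra.sub_mem _ hyL (Subalgebra.algebraMap_mem _ d))
        (Subalgebra.algebraMap_mem _ c))
      (nonUnit_mul hyL hc) (nonUnit_mul (Subalgebra.algebraMap_mem _ c) hd)

omit [IsLocallyNoetherian X.left] in
/-- The elements of `Y0` are constant on the line. -/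
theorem A10F_Y0 (h : FLIP.Gen A v w) {z : X.left}
    (hP : ring k p A v w .P1 ≤ localRing k X z)
    (hz1 : NonUnit (localRing k X z) (v - 1))
    (hz2 : NonUnit (localRing k X z) ((v - 1) ^ 2 * yy p A v w)) :
    ∀ g ∈ ring k p A v w .Y0, g ∈ localRing k X z ∧
      ∃ c : k, NonUnit (localRing k X z) (g - algebraMap k _ c) := by
  have h1 : v - 1 ≠ 0 := sub_ne_zero.2 h.v1
  have h2 : w - 1 ≠ 0 := sub_ne_zero.2 h.w1
  have h3 : v - w ≠ 0 := sub_ne_zero.2 h.vw
  have hY : ring k p A v w .Y0 ≤ localRing k X z :=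
    (Y0_le h.v1 h.w1 h.vw).1.trans hP
  have hθ : (w - 1) / (v - 1) ∈ localRing k X z := hP (Algebra.subset_adjoin (by simp))
  have m1 : v - 1 ∈ localRing k X z := hY (Algebra.subset_adjoin (by simp))
  have m2 : w - 1 ∈ localRing k X z := hY (Algebra.subset_adjoin (by simp))
  have m5 : (v - 1) ^ 2 * yy p A v w ∈ localRing k X z := hY (Algebra.subset_adjoin (by simp))
  have m6 : (v - 1) * (w - 1) * yy p A v w ∈ localRing k X z :=
    hY (Algebra.subset_adjoin (by simp))
  have m7 : (w - 1) ^ 2 * yy p A v w ∈ localRing k X z := hY (Algebra.subset_adjoin (by simp))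
  have mA : A⁻¹ ∈ localRing k X z := hY (Algebra.subset_adjoin (by simp))
  have mv : v⁻¹ ∈ localRing k X z := hY (Algebra.subset_adjoin (by simp))
  have mw : w⁻¹ ∈ localRing k X z := hY (Algebra.subset_adjoin (by simp))
  have n2 : NonUnit (localRing k X z) (w - 1) := by
    have e : w - 1 = (v - 1) * ((w - 1) / (v - 1)) := by field_simp
    rw [e]
    exact nonUnit_mul hθ hz1
  have n6 : NonUnit (localRing k X z) ((v - 1) * (w - 1) * yy p A v w) := by
    have e : (v - 1) * (w - 1) * yy p A v w =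
        ((v - 1) ^ 2 * yy p A v w) * ((w - 1) / (v - 1)) := by field_simp
    rw [e]
    exact nonUnit_mul hθ hz2
  have n7 : NonUnit (localRing k X z) ((w - 1) ^ 2 * yy p A v w) := by
    have e : (w - 1) ^ 2 * yy p A v w =
        ((v - 1) ^ 2 * yy p A v w) * ((w - 1) / (v - 1)) ^ 2 := by field_simp
    rw [e]
    exact nonUnit_mul (Subalgebra.pow_mem _ hθ 2) hz2
  have mvw : v - w ∈ localRing k X z := by
    have e : v - w = (v - 1) - (w - 1) := by ring
    rw [e]
    exact Subalgebra.sub_mem _ m1 m2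
  have eA : A - 1 = (w - 1) * (v - 1) ^ (p - 1) + (v - 1) * (w - 1) * yy p A v w * (v - w) := by
    rw [yy]
    field_simp
    ring
  have nA : NonUnit (localRing k X z) (A - 1) := by
    rw [eA]
    exact nonUnit_add (Subalgebra.mul_mem _ m2 (Subalgebra.pow_mem _ m1 _))
      (Subalgebra.mul_mem _ m6 mvw) (nonUnit_mul (Subalgebra.pow_mem _ m1 _) n2)
      (nonUnit_mul mvw n6)
  have inv1 : ∀ a : X.left.functionField, a ≠ 0 → a⁻¹ ∈ localRing k X z →
      NonUnit (localRing k X z) (a - 1) →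
      NonUnit (localRing k X z) (a⁻¹ - algebraMap k _ 1) := by
    intro a ha hai hn
    have e : a⁻¹ - algebraMap k X.left.functionField 1 = (a - 1) * (-a⁻¹) := by
      rw [map_one]
      field_simp
      ring
    rw [e]
    exact nonUnit_mul (Subalgebra.neg_mem _ hai) hn
  apply A10F_const
  intro g hg
  simp only [Set.mem_insert_iff, Set.mem_singleton_iff] at hg
  rcases hg with rfl | rfl | rfl | rfl | rfl | rfl | rfl | rfl
  · exact ⟨m1, 0, by rw [map_zero, sub_zero]; exact hz1⟩
  · exact ⟨m2, 0, by rw [map_zero, sub_zero]; exact n2⟩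
  · exact ⟨m5, 0, by rw [map_zero, sub_zero]; exact hz2⟩
  · exact ⟨m6, 0, by rw [map_zero, sub_zero]; exact n6⟩
  · exact ⟨m7, 0, by rw [map_zero, sub_zero]; exact n7⟩
  · exact ⟨mA, 1, inv1 A h.A0 mA nA⟩
  · exact ⟨mv, 1, inv1 v h.v0 mv hz1⟩
  · exact ⟨mw, 1, inv1 w h.w0 mw n2⟩

omit [IsLocallyNoetherian X.left] in
theorem A10F_le {z x : X.left} (hx : z ⤳ x) {a : X.left.functionField}
    (ha : NonUnit (localRing k X z) a) : NonUnit (localRing k X x) a :=
  ha.imp id fun h h' ↦ h (localRing_le hx h')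

omit [IsLocallyNoetherian X.left] in
theorem A10F_inv {z : X.left} {g : X.left.functionField} (hgL : g ∈ localRing k X z) {c : k}
    (hg : NonUnit (localRing k X z) (g - algebraMap k _ c)) (hg0 : g ≠ 0) :
    g⁻¹ ∈ localRing k X z ↔ c ≠ 0 := by
  constructor
  · rintro h rfl
    rw [map_zero, sub_zero] at hg
    rcases hg with hg | hg
    · exact hg0 hg
    · exact hg h
  · intro hc
    by_contra hcon
    have h1 : NonUnit (localRing k X z) g := Or.inr hcon
    have h2 : NonUnit (localRing k X z) (-(g - algebraMap k _ c)) := by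
      have := nonUnit_mul (Subalgebra.neg_mem _ (Subalgebra.one_mem (localRing k X z))) hg
      rwa [mul_neg_one] at this
    have h3 := nonUnit_add hgL (Subalgebra.neg_mem _
      (Subalgebra.sub_mem _ hgL (Subalgebra.algebraMap_mem _ c))) h1 h2
    have e : g + -(g - algebraMap k X.left.functionField c) = algebraMap k _ c := by ring
    rw [e] at h3
    exact not_nonUnit_algebraMap _ hc h3

omit [IsLocallyNoetherian X.left] in
/-- **A10f (M).** `f` is constant on the line. -/
theorem map_eq_of_line {U : {c : Ch // c.inX} → X.left.Opens}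
    (c : Charts X U (fun c ↦ ring k p A v w c.1))
    (h : FLIP.Gen A v w) (f : X ⟶ Y)
    {V : {c : Ch // c.inY} → Y.left.Opens}
    (hf : FiberData f V (fun c ↦ ring k p A v w c.1))
    {z₀ : X.left} (hl : Line X (U ⟨.P1, trivial⟩) (U ⟨.P2, trivial⟩) (ring k p A v w .P1)
        (ring k p A v w .P2) z₀ ((w - 1) / (v - 1)))
    (hz1 : NonUnit (localRing k X z₀) (v - 1))
    (hz2 : NonUnit (localRing k X z₀) ((v - 1) ^ 2 * yy p A v w)) (x : X.left) (hx : z₀ ⤳ x) :
    f.left x = f.left z₀ := by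
  have hP1 : ring k p A v w .P1 ≤ localRing k X z₀ := (c.mem_iff ⟨.P1, trivial⟩ z₀).1 hl.mem₁
  have hY0 : ring k p A v w .Y0 ≤ localRing k X z₀ := (Y0_le h.v1 h.w1 h.vw).1.trans hP1
  have hYx : ring k p A v w .Y0 ≤ localRing k X x := by
    rcases hl.cover x hx with h' | h'
    · exact (Y0_le h.v1 h.w1 h.vw).1.trans ((c.mem_iff ⟨.P1, trivial⟩ x).1 h')
    · exact (Y0_le h.v1 h.w1 h.vw).2.trans ((c.mem_iff ⟨.P2, trivial⟩ x).1 h')
  refine hf.eq_of x z₀ ⟨.Y0, trivial⟩ hYx hY0 ?_
  intro g hg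
  by_cases hg0 : g = 0
  · rw [hg0, inv_zero]
    exact ⟨fun _ ↦ Subalgebra.zero_mem _, fun _ ↦ Subalgebra.zero_mem _⟩
  obtain ⟨hgL, c', hc'⟩ := A10F_Y0 h hP1 hz1 hz2 g hg
  rw [A10F_inv (hYx hg) (A10F_le hx hc') hg0, A10F_inv hgL hc' hg0]

end H1F.AMP
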