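import Pool.Agent.Lib.H1F.AMP.A10A
import Pool.Agent.Lib.H1F.AMP.A10F

/-!
# H1F AMP, chunk A10D: the line
-/

open CategoryTheory CategoryTheory.Limits AlgebraicGeometry Order

universe u

namespace H1F.AMP

variable {k : Type u} [Field k] {X Y : Over (Spec (CommRingCat.of k))} [IsIntegral X.left]
  [IsLocallyNoetherian X.left] {p : ℕ} [Fact p.Prime] [CharP k p]
  {A v w : X.left.functionField}

omit [IsLocallyNoetherian X.left] in
theorem A10D_red {z : X.left} {G : Set X.left.functionField}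
    {T : Subalgebra k X.left.functionField} (hT : T ≤ localRing k X z)
    (hG : ∀ g ∈ G, g ∈ localRing k X z ∧ ∃ q ∈ T, NonUnit (localRing k X z) (g - q)) :
    ∀ g ∈ Algebra.adjoin k G, g ∈ localRing k X z ∧
      ∃ q ∈ T, NonUnit (localRing k X z) (g - q) := by
  intro g hg
  induction hg using Algebra.adjoin_induction with
  | mem x hx => exact hG x hx
  | algebraMap r =>
    exact ⟨Subalgebra.algebraMap_mem _ r, _, Subalgebra.algebraMap_mem T r, Or.inl (sub_self _)⟩
  | add x y _ _ hx hy =>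
    obtain ⟨hxL, c, hcT, hc⟩ := hx
    obtain ⟨hyL, d, hdT, hd⟩ := hy
    refine ⟨Subalgebra.add_mem _ hxL hyL, c + d, Subalgebra.add_mem _ hcT hdT, ?_⟩
    have e : x + y - (c + d) = (x - c) + (y - d) := by ring
    rw [e]
    exact nonUnit_add (Subalgebra.sub_mem _ hxL (hT hcT))
      (Subalgebra.sub_mem _ hyL (hT hdT)) hc hd
  | mul x y _ _ hx hy =>
    obtain ⟨hxL, c, hcT, hc⟩ := hx
    obtain ⟨hyL, d, hdT, hd⟩ := hy
    refine ⟨Subalgebra.mul_mem _ hxL hyL, c * d, Subalgebra.mul_mem _ hcT hdT, ?_⟩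
    have e : x * y - c * d = (x - c) * y + (y - d) * c := by ring
    rw [e]
    exact nonUnit_add
      (Subalgebra.mul_mem _ (Subalgebra.sub_mem _ hxL (hT hcT)) hyL)
      (Subalgebra.mul_mem _ (Subalgebra.sub_mem _ hyL (hT hdT)) (hT hcT))
      (nonUnit_mul hyL hc) (nonUnit_mul (hT hcT) hd)

omit [IsLocallyNoetherian X.left] in
/-- **A10d (M).** The line. -/
theorem exists_line {U : {c : Ch // c.inX} → X.left.Opens}
    (c : Charts X U (fun c ↦ ring k p A v w c.1)) (h : FLIP.Gen A v w)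
    (h1 : FrData k (ring k p A v w .P1) ![(w - 1) / (v - 1), v - 1, -((v - 1) ^ 2 * yy p A v w)]) :
    ∃ z₀ : X.left, Line X (U ⟨.P1, trivial⟩) (U ⟨.P2, trivial⟩) (ring k p A v w .P1)
        (ring k p A v w .P2) z₀ ((w - 1) / (v - 1)) ∧
      NonUnit (localRing k X z₀) (v - 1) ∧ NonUnit (localRing k X z₀) (w - 1) ∧
      NonUnit (localRing k X z₀) ((v - 1) ^ 2 * yy p A v w) ∧
      (∀ a ∈ ring k p A v w .P1, NonUnit (localRing k X z₀) a →
        ∃ b ∈ ring k p A v w .P1, ∃ b' ∈ ring k p A v w .P1,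
          a = b * (v - 1) + b' * ((v - 1) ^ 2 * yy p A v w)) := by
  have := charP_of_algebra k X.left.functionField p
  have h1' : v - 1 ≠ 0 := sub_ne_zero.2 h.v1
  have h2' : w - 1 ≠ 0 := sub_ne_zero.2 h.w1
  obtain ⟨z₀, hz₀, n1, n2, hunit, hred, hgen⟩ := exists_linePoint c ⟨.P1, trivial⟩ h1
  have n1 : NonUnit (localRing k X z₀) (v - 1) := n1
  have n2 : NonUnit (localRing k X z₀) (-((v - 1) ^ 2 * yy p A v w)) := n2
  have hunit : ∀ P : Polynomial k, P ≠ 0 →
      ¬ NonUnit (localRing k X z₀) (Polynomial.aeval ((w - 1) / (v - 1)) P) := hunit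
  have hred : ∀ a ∈ ring k p A v w .P1, ∃ q ∈ Algebra.adjoin k {(w - 1) / (v - 1)},
      NonUnit (localRing k X z₀) (a - q) := hred
  have hgen : ∀ a ∈ ring k p A v w .P1, NonUnit (localRing k X z₀) a →
      ∃ b ∈ ring k p A v w .P1, ∃ b' ∈ ring k p A v w .P1,
        a = b * (v - 1) + b' * (-((v - 1) ^ 2 * yy p A v w)) := hgen
  have hP1 : ring k p A v w .P1 ≤ localRing k X z₀ := (c.mem_iff ⟨.P1, trivial⟩ z₀).1 hz₀
  have hY0 : ring k p A v w .Y0 ≤ localRing k X z₀ := (Y0_le h.v1 h.w1 h.vw).1.trans hP1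
  have hθ : (w - 1) / (v - 1) ∈ ring k p A v w .P1 := Algebra.subset_adjoin (by simp)
  have n3 : NonUnit (localRing k X z₀) ((v - 1) ^ 2 * yy p A v w) := by
    have := nonUnit_mul (Subalgebra.neg_mem _ (Subalgebra.one_mem (localRing k X z₀))) n2
    rwa [mul_neg_one, neg_neg] at this
  have n4 : NonUnit (localRing k X z₀) (w - 1) := by
    have e : w - 1 = (v - 1) * ((w - 1) / (v - 1)) := by field_simp
    rw [e]
    exact nonUnit_mul (hP1 hθ) n1
  have hθi : (v - 1) / (w - 1) ∈ localRing k X z₀ := by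
    have h3 := hunit Polynomial.X Polynomial.X_ne_zero
    rw [Polynomial.aeval_X] at h3
    unfold NonUnit at h3
    push Not at h3
    rw [← inv_div]
    exact h3.2
  have hP2 : ring k p A v w .P2 ≤ localRing k X z₀ := (P2_le_iff h.v1 h.w1 h.vw hY0).2 hθi
  have hθ2 : ((w - 1) / (v - 1))⁻¹ ∈ ring k p A v w .P2 := by
    rw [inv_div]
    exact Algebra.subset_adjoin (by simp)
  refine ⟨z₀, ⟨hz₀, (c.mem_iff ⟨.P2, trivial⟩ z₀).2 hP2, ?_, hθ, hθ2, hred, ?_, hunit⟩, n1, n4, n3,
    ?_⟩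
  · intro x hx
    obtain ⟨i, hi⟩ := c.cover x
    by_cases hY : FLIP.toY i.1 = .Y0
    · obtain ⟨i, hi'⟩ := i
      cases i with
      | P1 => exact Or.inl hi
      | P2 => exact Or.inr hi
      | NI f => simp [FLIP.toY] at hY
      | NII f => simp [FLIP.toY] at hY
      | M f => simp [FLIP.toY] at hY
      | T6 => simp [FLIP.toY] at hY
      | P3 => exact absurd hi' (by simp [Ch.inX])
      | P4 => exact absurd hi' (by simp [Ch.inX])
      | Y0 => exact absurd hi' (by simp [Ch.inX])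
    · exfalso
      have hi' := FLIP.inX_cases i.2 hY
      have := isLocalRing_localRing X z₀
      rcases FLIP.unit_of_chart_of_Y0 p A v w h.A0 h.v0 h.w0 h.v1 h.w1 h.vw h.A1
        (localRing k X z₀) i.1 hi'.1 hi'.2
        (((c.mem_iff i x).1 hi).trans (localRing_le hx)) hY0 with hu | hu
      · rcases n1 with n1 | n1
        · exact h1' n1
        · exact n1 hu
      · rcases n4 with n4 | n4
        · exact h2' n4
        · exact n4 hu
  · intro a ha
    have hT : Algebra.adjoin k {((w - 1) / (v - 1))⁻¹} ≤ localRing k X z₀ := by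
      refine Algebra.adjoin_le ?_
      rw [Set.singleton_subset_iff]
      exact hP2 hθ2
    have hle : ring k p A v w .P2 = Algebra.adjoin k
        ((ring k p A v w .Y0 : Set X.left.functionField) ∪ {(v - 1) / (w - 1)}) := by
      rw [Algebra.adjoin_union, Algebra.adjoin_eq]
      exact FLIP.P2_eq k p A v w h.v1 h.w1 h.vw
    rw [hle] at ha
    refine (A10D_red hT ?_ a ha).2
    rintro g (hg | hg)
    · obtain ⟨hgL, c', hc'⟩ := A10F_Y0 h hP1 n1 n3 g hg
      exact ⟨hgL, _, Subalgebra.algebraMap_mem _ c', hc'⟩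
    · rw [Set.mem_singleton_iff] at hg
      rw [hg]
      refine ⟨hθi, (v - 1) / (w - 1), ?_, Or.inl (sub_self _)⟩
      rw [inv_div]
      exact Algebra.subset_adjoin rfl
  · intro a ha hn
    obtain ⟨b, hb, b', hb', e⟩ := hgen a ha hn
    refine ⟨b, hb, -b', Subalgebra.neg_mem _ hb', ?_⟩
    rw [e]
    ring

end H1F.AMP
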