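import Pool.Agent.Lib.H1F.AMP.A2
import Pool.Agent.Lib.H1F.FLIP.F7

/-!
# H1F AMP, chunks A4: `-(K + Δ)` is `f`-ample, `K' + Δ'` is `f'`-ample
-/

open CategoryTheory CategoryTheory.Limits AlgebraicGeometry Order

universe u

namespace H1F.AMP

section Algebra

variable {k K : Type*} [Field k] [Field K] [Algebra k K] {p : ℕ} [Fact p.Prime] [CharP k p]
  {A v w : K}

theorem charP_of_algebra (k K : Type*) [Field k] [Field K] [Algebra k K] (p : ℕ) [CharP k p] :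
    CharP K p := charP_of_injective_algebraMap (algebraMap k K).injective p

theorem adjoin_singleton_le_iff {L : Subalgebra k K} {a : K} :
    Algebra.adjoin k {a} ≤ L ↔ a ∈ L := by
  rw [Algebra.adjoin_le_iff, Set.singleton_subset_iff]
  rfl

/-- **A4a.** -/
theorem nn_eq (hv : v ≠ 1) (hw : w ≠ 1) (hvw : v ≠ w) (k : Type*) [Field k] [Algebra k K]
    [CharP k p] : nn p A v w = (w - 1) ^ 2 * yy p A v w := by
  have := charP_of_algebra k K p
  exact FLIP.nn_eq p A v w hv hw hvw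

/-- **A4b.** -/
theorem P1_le_iff (hv : v ≠ 1) (hw : w ≠ 1) (hvw : v ≠ w) {L : Subalgebra k K}
    (hL : ring k p A v w .Y0 ≤ L) : ring k p A v w .P1 ≤ L ↔ (w - 1) / (v - 1) ∈ L := by
  have := charP_of_algebra k K p
  change P1 k p A v w ≤ L ↔ _
  rw [FLIP.P1_eq k p A v w hv hw hvw, sup_le_iff, adjoin_singleton_le_iff]
  exact ⟨fun h ↦ h.2, fun h ↦ ⟨hL, h⟩⟩

/-- **A4c.** -/
theorem P2_le_iff (hv : v ≠ 1) (hw : w ≠ 1) (hvw : v ≠ w) {L : Subalgebra k K}
    (hL : ring k p A v w .Y0 ≤ L) : ring k p A v w .P2 ≤ L ↔ (v - 1) / (w - 1) ∈ L := by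
  have := charP_of_algebra k K p
  change P2 k p A v w ≤ L ↔ _
  rw [FLIP.P2_eq k p A v w hv hw hvw, sup_le_iff, adjoin_singleton_le_iff]
  exact ⟨fun h ↦ h.2, fun h ↦ ⟨hL, h⟩⟩

/-- **A4d.** -/
theorem Y0_le (hv : v ≠ 1) (hw : w ≠ 1) (hvw : v ≠ w) :
    ring k p A v w .Y0 ≤ ring k p A v w .P1 ∧ ring k p A v w .Y0 ≤ ring k p A v w .P2 := by
  have := charP_of_algebra k K p
  exact ⟨le_sup_left.trans (FLIP.P1_eq k p A v w hv hw hvw).ge,
    le_sup_left.trans (FLIP.P2_eq k p A v w hv hw hvw).ge⟩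

omit [Fact p.Prime] [CharP k p] in
/-- **A4e.** -/
theorem P3_le_iff {L : Subalgebra k K} (hL : ring k p A v w .Y0 ≤ L) :
    ring k p A v w .P3 ≤ L ↔ yy p A v w ∈ L := by
  change P3 k p A v w ≤ L ↔ _
  rw [FLIP.P3_eq k p A v w, sup_le_iff, adjoin_singleton_le_iff]
  exact ⟨fun h ↦ h.2, fun h ↦ ⟨hL, h⟩⟩

omit [Fact p.Prime] [CharP k p] in
/-- **A4f.** -/
theorem P4_le_iff {L : Subalgebra k K} (hL : ring k p A v w .Y0 ≤ L) :
    ring k p A v w .P4 ≤ L ↔ (yy p A v w)⁻¹ ∈ L := by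
  change P4 k p A v w ≤ L ↔ _
  rw [FLIP.P4_eq k p A v w, sup_le_iff, adjoin_singleton_le_iff]
  exact ⟨fun h ↦ h.2, fun h ↦ ⟨hL, h⟩⟩

omit [Fact p.Prime] [CharP k p] in
/-- **A4g.** `Y0 ≤ P3`, `Y0 ≤ P4`. -/
theorem Y0_le' : ring k p A v w .Y0 ≤ ring k p A v w .P3 ∧
    ring k p A v w .Y0 ≤ ring k p A v w .P4 :=
  ⟨le_sup_left.trans (FLIP.P3_eq k p A v w).ge, le_sup_left.trans (FLIP.P4_eq k p A v w).ge⟩

end Algebra

section Geometry

variable {k : Type u} [Field k] {X Y : Over (Spec (CommRingCat.of k))} [IsIntegral X.left]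
  [IsLocallyNoetherian X.left] {p : ℕ} [Fact p.Prime] [CharP k p]
  {A v w : X.left.functionField}

/-- **A4h.** The local ring is a local ring. -/
theorem isLocalRing_localRing (X : Over (Spec (CommRingCat.of k))) [IsIntegral X.left]
    (x : X.left) : IsLocalRing (localRing k X x) := by
  let φ : X.left.presheaf.stalk x →+* localRing k X x :=
    (algebraMap (X.left.presheaf.stalk x) X.left.functionField).codRestrict (localRing k X x)
      (fun s ↦ (mem_localRing X x _).2 ⟨s, rfl⟩)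
  have hφ : Function.Surjective φ := by
    rintro ⟨f, hf⟩
    obtain ⟨s, hs⟩ := (mem_localRing X x f).1 hf
    exact ⟨s, Subtype.ext hs⟩
  exact IsLocalRing.of_surjective' φ hφ

/-- **A4i.** A point over the chart `Y0` of `Y` lies in `P1` or in `P2`. -/
theorem mem_P1_or_P2 {U : {c : Ch // c.inX} → X.left.Opens}
    (c : Charts X U (fun c ↦ ring k p A v w c.1)) (h : FLIP.Gen A v w) {x : X.left}
    (hx : ring k p A v w .Y0 ≤ localRing k X x) :
    x ∈ U ⟨.P1, trivial⟩ ∨ x ∈ U ⟨.P2, trivial⟩ := by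
  have := charP_of_algebra k X.left.functionField p
  have := isLocalRing_localRing X x
  obtain ⟨i, hi⟩ := c.cover x
  by_cases hY : FLIP.toY i.1 = .Y0
  · obtain ⟨i, hi'⟩ := i
    cases i with
    | P1 => exact Or.inl hi
    | P2 => exact Or.inr hi
    | NI f => simp [FLIP.toY] at hY
    | NII f => simp [FLIP.toY] at hY
    | M f => simp [FLIP.toY] at hY
    | T6 => simp [FLIP.toY] at hY
    | P3 => exact absurd hi' (by simp [Ch.inX])
    | P4 => exact absurd hi' (by simp [Ch.inX])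
    | Y0 => exact absurd hi' (by simp [Ch.inX])
  · have hi' := FLIP.inX_cases i.2 hY
    rcases FLIP.unit_of_chart_of_Y0 p A v w h.A0 h.v0 h.w0 h.v1 h.w1 h.vw h.A1 (localRing k X x)
      i.1 hi'.1 hi'.2 ((c.mem_iff i x).1 hi) hx with hu | hu
    · exact Or.inl ((c.mem_iff ⟨.P1, trivial⟩ x).2 (FLIP.P1_le k p h hx hu))
    · exact Or.inr ((c.mem_iff ⟨.P2, trivial⟩ x).2 (FLIP.P2_le k p h hx hu))

/-- **A4j.** The same for `X'`: `P3` or `P4`. -/
theorem mem_P3_or_P4 {U : {c : Ch // c.inX'} → X.left.Opens}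
    (c : Charts X U (fun c ↦ ring k p A v w c.1)) (h : FLIP.Gen A v w) {x : X.left}
    (hx : ring k p A v w .Y0 ≤ localRing k X x) :
    x ∈ U ⟨.P3, trivial⟩ ∨ x ∈ U ⟨.P4, trivial⟩ := by
  have := charP_of_algebra k X.left.functionField p
  have := isLocalRing_localRing X x
  obtain ⟨i, hi⟩ := c.cover x
  by_cases hY : FLIP.toY i.1 = .Y0
  · obtain ⟨i, hi'⟩ := i
    cases i with
    | P3 => exact Or.inl hi
    | P4 => exact Or.inr hi
    | NI f => simp [FLIP.toY] at hY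
    | NII f => simp [FLIP.toY] at hY
    | M f => simp [FLIP.toY] at hY
    | T6 => simp [FLIP.toY] at hY
    | P1 => exact absurd hi' (by simp [Ch.inX'])
    | P2 => exact absurd hi' (by simp [Ch.inX'])
    | Y0 => exact absurd hi' (by simp [Ch.inX'])
  · have hi' := FLIP.inX'_cases i.2 hY
    rcases FLIP.unit_of_chart_of_Y0 p A v w h.A0 h.v0 h.w0 h.v1 h.w1 h.vw h.A1 (localRing k X x)
      i.1 hi'.1 hi'.2 ((c.mem_iff i x).1 hi) hx with hu | hu
    · exact Or.inl ((c.mem_iff ⟨.P3, trivial⟩ x).2 (FLIP.P3_le_v k p h hx hu))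
    · exact Or.inl ((c.mem_iff ⟨.P3, trivial⟩ x).2 (FLIP.P3_le_w k p h hx hu))

/-- The two charts over a chart of `Y`: `FLIP.toY i = FLIP.toY i'` for charts of `X` only if
`i = i'` or `{i, i'} = {P1, P2}`. -/
theorem A4_cases {i i' : Ch} (hi : i.inX) (hi' : i'.inX) (h : FLIP.toY i = FLIP.toY i') :
    i = i' ∨ (i = .P1 ∧ i' = .P2) ∨ (i = .P2 ∧ i' = .P1) := by
  cases i <;> cases i' <;> simp_all [FLIP.toY, Ch.inX]

theorem A4_cases' {i i' : Ch} (hi : i.inX') (hi' : i'.inX') (h : FLIP.toY i = FLIP.toY i') :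
    i = i' ∨ (i = .P3 ∧ i' = .P4) ∨ (i = .P4 ∧ i' = .P3) := by
  cases i <;> cases i' <;> simp_all [FLIP.toY, Ch.inX']

/-- **A4k.** `-D` is `f`-ample, `D = 10 (K + Δ)`. -/
theorem ample_negative {U : {c : Ch // c.inX} → X.left.Opens} (hX : Variety k X)
    (c : Charts X U (fun c ↦ ring k p A v w c.1)) (h : FLIP.Gen A v w) (f : X ⟶ Y)
    {V : {c : Ch // c.inY} → Y.left.Opens}
    (hf : FiberData f V (fun c ↦ ring k p A v w c.1)) (D : X.left → ℤ)
    (d : Ch → X.left.functionField) (hd0 : ∀ c, d c ≠ 0)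
    (hD : ∀ (c : {c : Ch // c.inX}) (z : X.left), z ∈ U c → coheight z = 1 →
      D z = Scheme.ord (d c.1) z)
    (h12 : d .P1 = (v - 1) / (w - 1) * d .P2) : Ample f.left (fun z ↦ - D z) := by
  have := charP_of_algebra k X.left.functionField p
  have h1 : v - 1 ≠ 0 := sub_ne_zero.2 h.v1
  have h2 : w - 1 ≠ 0 := sub_ne_zero.2 h.w1
  have hle : ∀ i : {c : Ch // c.inX}, ∀ x ∈ U i,
      ring k p A v w (FLIP.toY i.1) ≤ localRing k X x := fun i x hx ↦
    (FLIP.toY_le k p h i.1).trans ((c.mem_iff i x).1 hx)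
  refine ample_of_sections (D := fun z ↦ - D z) f.left hX c (d := fun i ↦ (d i.1)⁻¹)
    (fun i ↦ inv_ne_zero (hd0 i.1)) ?_ V hf.affine hf.cover (fun i j ↦ FLIP.toY i.1 = j.1) ?_ ?_
    (fun _ _ ↦ 1) (fun _ _ ↦ one_pos) (fun i _ ↦ d i.1) (fun i _ ↦ hd0 i.1) ?_ ?_
  · intro i z hz hz1
    rw [ord_inv, hD i z hz hz1]
  · intro i j hij x hx
    rw [hf.mem_iff]
    have := hle i x hx
    rw [hij] at this
    exact this
  · intro x j hj
    rw [hf.mem_iff] at hj
    obtain ⟨j, hj'⟩ := j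
    by_cases hY : j = .Y0
    · subst hY
      rcases mem_P1_or_P2 c h hj with hx | hx
      · exact ⟨⟨.P1, trivial⟩, rfl, hx⟩
      · exact ⟨⟨.P2, trivial⟩, rfl, hx⟩
    · have hj2 := FLIP.inY_cases hj' hY
      exact ⟨⟨j, hj2.1⟩, hj2.2.2, (c.mem_iff ⟨j, hj2.1⟩ x).2 hj⟩
  · intro j i i' hi hi'
    rw [pow_one]
    rcases A4_cases i.2 i'.2 (hi.trans hi'.symm) with hii | ⟨h3, h4⟩ | ⟨h3, h4⟩
    · rw [hii, mul_inv_cancel₀ (hd0 i'.1)]
      exact Subalgebra.one_mem _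
    · rw [h3, h4, h12, mul_inv_cancel_right₀ (hd0 .P2)]
      exact Algebra.subset_adjoin (by simp)
    · rw [h3, h4, h12]
      have : d .P2 * ((v - 1) / (w - 1) * d .P2)⁻¹ = (w - 1) / (v - 1) := by
        have := hd0 .P2
        field_simp
      rw [this]
      exact Algebra.subset_adjoin (by simp)
  · intro j i i' hi hi' x hx
    rw [pow_one]
    rcases A4_cases i.2 i'.2 (hi.trans hi'.symm) with hii | ⟨h3, h4⟩ | ⟨h3, h4⟩
    · have e : i = i' := Subtype.ext hii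
      subst e
      rw [mul_inv_cancel₀ (hd0 i.1), inv_one]
      exact ⟨fun _ ↦ hx, fun _ ↦ Subalgebra.one_mem _⟩
    · have e : i = ⟨.P1, trivial⟩ := Subtype.ext h3
      have e' : i' = ⟨.P2, trivial⟩ := Subtype.ext h4
      subst e e'
      rw [c.mem_iff, P1_le_iff h.v1 h.w1 h.vw (hle _ x hx)]
      change (d .P1 * (d .P2)⁻¹)⁻¹ ∈ _ ↔ _
      rw [h12, mul_inv_cancel_right₀ (hd0 .P2), inv_div]
    · have e : i = ⟨.P2, trivial⟩ := Subtype.ext h3
      have e' : i' = ⟨.P1, trivial⟩ := Subtype.ext h4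
      subst e e'
      rw [c.mem_iff, P2_le_iff h.v1 h.w1 h.vw (hle _ x hx)]
      change (d .P2 * (d .P1)⁻¹)⁻¹ ∈ _ ↔ _
      have : (d .P2 * ((v - 1) / (w - 1) * d .P2)⁻¹)⁻¹ = (v - 1) / (w - 1) := by
        have := hd0 .P2
        field_simp
      rw [h12, this]

/-- **A4l.** `D` is `f'`-ample, `D = 20 (K' + Δ')` (the scheme `X` is `X'` here). -/
theorem ample_positive {U : {c : Ch // c.inX'} → X.left.Opens} (hX : Variety k X)
    (c : Charts X U (fun c ↦ ring k p A v w c.1)) (h : FLIP.Gen A v w) (hy : yy p A v w ≠ 0)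
    (f : X ⟶ Y) {V : {c : Ch // c.inY} → Y.left.Opens}
    (hf : FiberData f V (fun c ↦ ring k p A v w c.1)) (D : X.left → ℤ)
    (d : Ch → X.left.functionField) (hd0 : ∀ c, d c ≠ 0)
    (hD : ∀ (c : {c : Ch // c.inX'}) (z : X.left), z ∈ U c → coheight z = 1 →
      D z = Scheme.ord (d c.1) z)
    (h34 : d .P4 = d .P3 / yy p A v w) : Ample f.left D := by
  have := charP_of_algebra k X.left.functionField p
  have hle : ∀ i : {c : Ch // c.inX'}, ∀ x ∈ U i,
      ring k p A v w (FLIP.toY i.1) ≤ localRing k X x := fun i x hx ↦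
    (FLIP.toY_le k p h i.1).trans ((c.mem_iff i x).1 hx)
  refine ample_of_sections f.left hX c (d := fun i ↦ d i.1)
    (fun i ↦ hd0 i.1) (fun i z hz hz1 ↦ hD i z hz hz1) V hf.affine hf.cover
    (fun i j ↦ FLIP.toY i.1 = j.1) ?_ ?_
    (fun _ _ ↦ 1) (fun _ _ ↦ one_pos) (fun i _ ↦ (d i.1)⁻¹) (fun i _ ↦ inv_ne_zero (hd0 i.1)) ?_ ?_
  · intro i j hij x hx
    rw [hf.mem_iff]
    have := hle i x hx
    rw [hij] at this
    exact this
  · intro x j hj
    rw [hf.mem_iff] at hj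
    obtain ⟨j, hj'⟩ := j
    by_cases hY : j = .Y0
    · subst hY
      rcases mem_P3_or_P4 c h hj with hx | hx
      · exact ⟨⟨.P3, trivial⟩, rfl, hx⟩
      · exact ⟨⟨.P4, trivial⟩, rfl, hx⟩
    · have hj2 := FLIP.inY_cases hj' hY
      exact ⟨⟨j, hj2.2.1⟩, hj2.2.2, (c.mem_iff ⟨j, hj2.2.1⟩ x).2 hj⟩
  · intro j i i' hi hi'
    rw [pow_one]
    rcases A4_cases' i.2 i'.2 (hi.trans hi'.symm) with hii | ⟨h3, h4⟩ | ⟨h3, h4⟩
    · rw [hii, inv_mul_cancel₀ (hd0 i'.1)]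
      exact Subalgebra.one_mem _
    · rw [h3, h4, h34]
      have : (d .P3)⁻¹ * (d .P3 / yy p A v w) = (yy p A v w)⁻¹ := by
        have := hd0 .P3
        field_simp
      rw [this]
      exact Algebra.subset_adjoin (by simp)
    · rw [h3, h4, h34]
      have : (d .P3 / yy p A v w)⁻¹ * d .P3 = yy p A v w := by
        have := hd0 .P3
        field_simp
      rw [this]
      exact Algebra.subset_adjoin (by simp)
  · intro j i i' hi hi' x hx
    rw [pow_one]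
    rcases A4_cases' i.2 i'.2 (hi.trans hi'.symm) with hii | ⟨h3, h4⟩ | ⟨h3, h4⟩
    · have e : i = i' := Subtype.ext hii
      subst e
      rw [inv_mul_cancel₀ (hd0 i.1), inv_one]
      exact ⟨fun _ ↦ hx, fun _ ↦ Subalgebra.one_mem _⟩
    · have e : i = ⟨.P3, trivial⟩ := Subtype.ext h3
      have e' : i' = ⟨.P4, trivial⟩ := Subtype.ext h4
      subst e e'
      rw [c.mem_iff, P3_le_iff (hle _ x hx)]
      change ((d .P3)⁻¹ * d .P4)⁻¹ ∈ _ ↔ _
      have : ((d .P3)⁻¹ * (d .P3 / yy p A v w))⁻¹ = yy p A v w := by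
        have := hd0 .P3
        field_simp
      rw [h34, this]
    · have e : i = ⟨.P4, trivial⟩ := Subtype.ext h3
      have e' : i' = ⟨.P3, trivial⟩ := Subtype.ext h4
      subst e e'
      rw [c.mem_iff, P4_le_iff (hle _ x hx)]
      change ((d .P4)⁻¹ * d .P3)⁻¹ ∈ _ ↔ _
      have : ((d .P3 / yy p A v w)⁻¹ * d .P3)⁻¹ = (yy p A v w)⁻¹ := by
        have := hd0 .P3
        field_simp
      rw [h34, this]

end Geometry

end H1F.AMP
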