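import Pool.Agent.Lib.H1F.AMP.A10A
import Pool.Agent.Lib.H1F.AMP.A4

/-!
# H1F AMP, chunk A10E: the ideal of the line in the second chart
-/

open CategoryTheory CategoryTheory.Limits AlgebraicGeometry Order

universe u

namespace H1F.AMP

variable {k : Type u} [Field k] {X Y : Over (Spec (CommRingCat.of k))} [IsIntegral X.left]
  [IsLocallyNoetherian X.left] {p : ℕ} [Fact p.Prime] [CharP k p]
  {A v w : X.left.functionField}

omit [IsLocallyNoetherian X.left] in
/-- **A10e (M).** The ideal of the line in the chart `P2`. -/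
theorem Line.ideal_P2 {U : {c : Ch // c.inX} → X.left.Opens}
    (c : Charts X U (fun c ↦ ring k p A v w c.1))
    (h : FLIP.Gen A v w)
    (h2 : FrData k (ring k p A v w .P2) ![(v - 1) / (w - 1), w - 1, (w - 1) ^ 2 * yy p A v w])
    {z₀ : X.left} (hl : Line X (U ⟨.P1, trivial⟩) (U ⟨.P2, trivial⟩) (ring k p A v w .P1)
        (ring k p A v w .P2) z₀ ((w - 1) / (v - 1)))
    (hz1 : NonUnit (localRing k X z₀) (w - 1))
    (hz2 : NonUnit (localRing k X z₀) ((w - 1) ^ 2 * yy p A v w)) :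
    ∀ a ∈ ring k p A v w .P2, NonUnit (localRing k X z₀) a →
        ∃ b ∈ ring k p A v w .P2, ∃ b' ∈ ring k p A v w .P2,
          a = b * (w - 1) + b' * ((w - 1) ^ 2 * yy p A v w) := by
  have := charP_of_algebra k X.left.functionField p
  have h1' : v - 1 ≠ 0 := sub_ne_zero.2 h.v1
  have h2' : w - 1 ≠ 0 := sub_ne_zero.2 h.w1
  obtain ⟨z₁, hz₁, n1, n2, hunit, hred, hgen⟩ := exists_linePoint c ⟨.P2, trivial⟩ h2
  have hred : ∀ a ∈ ring k p A v w .P2, ∃ q ∈ Algebra.adjoin k {(v - 1) / (w - 1)},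
      NonUnit (localRing k X z₁) (a - q) := hred
  have hgen : ∀ a ∈ ring k p A v w .P2, NonUnit (localRing k X z₁) a →
      ∃ b ∈ ring k p A v w .P2, ∃ b' ∈ ring k p A v w .P2,
        a = b * (w - 1) + b' * ((w - 1) ^ 2 * yy p A v w) := hgen
  have hP2 : ring k p A v w .P2 ≤ localRing k X z₀ := (c.mem_iff ⟨.P2, trivial⟩ z₀).1 hl.mem₂
  have hP1 : ring k p A v w .P1 ≤ localRing k X z₀ := (c.mem_iff ⟨.P1, trivial⟩ z₀).1 hl.mem₁
  have hθ' : (v - 1) / (w - 1) ∈ ring k p A v w .P2 := Algebra.subset_adjoin (by simp)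
  have hθ : (w - 1) / (v - 1) ∈ localRing k X z₀ := hP1 (Algebra.subset_adjoin (by simp))
  have m1 : w - 1 ∈ localRing k X z₀ := hP2 (Algebra.subset_adjoin (by simp))
  have m2 : (w - 1) ^ 2 * yy p A v w ∈ localRing k X z₀ := by
    have : (w - 1) ^ 2 * yy p A v w ∈ ring k p A v w .P2 :=
      (Y0_le h.v1 h.w1 h.vw).2 (Algebra.subset_adjoin (by simp))
    exact hP2 this
  have hadj : Algebra.adjoin k {(v - 1) / (w - 1)} ≤ ring k p A v w .P2 := by
    refine Algebra.adjoin_le ?_
    rw [Set.singleton_subset_iff]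
    exact hθ'
  intro a ha hn
  obtain ⟨q, hq, hqn⟩ := hred a ha
  have hqP := hadj hq
  obtain ⟨b, hb, b', hb', e⟩ := hgen (a - q) (Subalgebra.sub_mem _ ha hqP) hqn
  have hn' : NonUnit (localRing k X z₀) (a - q) := by
    rw [e]
    refine nonUnit_add (Subalgebra.mul_mem _ (hP2 hb) m1) (Subalgebra.mul_mem _ (hP2 hb') m2) ?_ ?_
    · rw [mul_comm]
      exact nonUnit_mul (hP2 hb) hz1
    · rw [mul_comm]
      exact nonUnit_mul (hP2 hb') hz2
  have hq' : NonUnit (localRing k X z₀) q := by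
    have h3 : NonUnit (localRing k X z₀) (-(a - q)) := by
      have := nonUnit_mul (Subalgebra.neg_mem _ (Subalgebra.one_mem (localRing k X z₀))) hn'
      rwa [mul_neg_one] at this
    have h4 := nonUnit_add (hP2 ha) (Subalgebra.neg_mem _
      (Subalgebra.sub_mem _ (hP2 ha) (hP2 hqP))) hn h3
    have e5 : a + -(a - q) = q := by ring
    rwa [e5] at h4
  rw [Algebra.adjoin_singleton_eq_range_aeval] at hq
  obtain ⟨P, hP⟩ := hq
  have hP : Polynomial.aeval ((v - 1) / (w - 1)) P = q := hP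
  by_cases hP0 : P = 0
  · rw [hP0, map_zero] at hP
    rw [← hP, sub_zero] at e
    exact ⟨b, hb, b', hb', e⟩
  · exfalso
    have hne : (v - 1) / (w - 1) ≠ 0 := div_ne_zero h1' h2'
    have : Invertible ((v - 1) / (w - 1)) := invertibleOfNonzero hne
    have e6 : Polynomial.aeval ((v - 1) / (w - 1)) P =
        Polynomial.aeval ((w - 1) / (v - 1)) P.reverse *
          ((v - 1) / (w - 1)) ^ P.natDegree := by
      have := Polynomial.eval₂_reverse_mul_pow (algebraMap k X.left.functionField)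
        ((v - 1) / (w - 1)) P
      rw [invOf_eq_inv, inv_div] at this
      exact this.symm
    rw [← hP, e6] at hq'
    rcases nonUnit_or hq' with h5 | h5
    · refine hl.unit P.reverse ?_ h5
      rw [Ne, Polynomial.reverse_eq_zero]
      exact hP0
    · rcases h5 with h5 | h5
      · exact pow_ne_zero _ hne h5
      · apply h5
        rw [← inv_pow, inv_div]
        exact Subalgebra.pow_mem _ hθ _

end H1F.AMP
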