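import Pool.Agent.Lib.H1F.AMP.A10B
import Pool.Agent.Lib.H1F.AMP.A10C
import Pool.Agent.Lib.H1F.AMP.A4

/-!
# H1F AMP, chunk A10G: there is no other contracted curve
-/

open CategoryTheory CategoryTheory.Limits AlgebraicGeometry Order

universe u

namespace H1F.AMP

variable {k : Type u} [Field k] {X Y : Over (Spec (CommRingCat.of k))} [IsIntegral X.left]
  [IsLocallyNoetherian X.left] {p : ℕ} [Fact p.Prime] [CharP k p]
  {A v w : X.left.functionField}

omit [IsLocallyNoetherian X.left] [Fact p.Prime] [CharP k p] in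
/-- A chart of `Y` separates points: two points in a chart which is a chart of `Y`, too. -/
theorem A10G_eq {ι : Type} [Finite ι] [Nonempty ι] {U : ι → X.left.Opens}
    {R : ι → Subalgebra k X.left.functionField} (c : Charts X U R) (i : ι) {y y' : X.left}
    (hy : y' ∈ U i) (hyy : y ⤳ y')
    (hinv : ∀ g ∈ R i, (g⁻¹ ∈ localRing k X y ↔ g⁻¹ ∈ localRing k X y')) : y = y' := by
  have hy' : R i ≤ localRing k X y' := (c.mem_iff i y').1 hy
  exact eq_of_localRing_eq c (localRing_eq c i (hy'.trans (localRing_le hyy)) hy' hinv)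

omit [IsLocallyNoetherian X.left] in
/-- **A10g (M/L).** Every contracted curve has the generic point `z₀`. -/
theorem genericPoint_eq_of_contracted [IsAlgClosed k] {U : {c : Ch // c.inX} → X.left.Opens}
    (c : Charts X U (fun c ↦ ring k p A v w c.1))
    (h : FLIP.Gen A v w) (hy : yy p A v w ≠ 0) (f : X ⟶ Y)
    {V : {c : Ch // c.inY} → Y.left.Opens}
    (hf : FiberData f V (fun c ↦ ring k p A v w c.1))
    {z₀ : X.left} (hl : Line X (U ⟨.P1, trivial⟩) (U ⟨.P2, trivial⟩) (ring k p A v w .P1)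
        (ring k p A v w .P2) z₀ ((w - 1) / (v - 1)))
    (h1 : ∀ a ∈ ring k p A v w .P1, NonUnit (localRing k X z₀) a →
        ∃ b ∈ ring k p A v w .P1, ∃ b' ∈ ring k p A v w .P1,
          a = b * (v - 1) + b' * ((v - 1) ^ 2 * yy p A v w))
    (h2 : ∀ a ∈ ring k p A v w .P2, NonUnit (localRing k X z₀) a →
        ∃ b ∈ ring k p A v w .P2, ∃ b' ∈ ring k p A v w .P2,
          a = b * (w - 1) + b' * ((w - 1) ^ 2 * yy p A v w))
    (C : Scheme.{u}) (_ : IsIntegral C) (i : C ⟶ X.left) (hC : ContractedCurve k f i) :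
    i (genericPoint C) = z₀ := by
  have := charP_of_algebra k X.left.functionField p
  have h1' : v - 1 ≠ 0 := sub_ne_zero.2 h.v1
  have h2' : w - 1 ≠ 0 := sub_ne_zero.2 h.w1
  -- a second point
  obtain ⟨c₁, hc₁⟩ : ∃ c₁ : C, c₁ ≠ genericPoint C := by
    by_contra hcon
    push Not at hcon
    have hsub : Subsingleton C := ⟨fun a b ↦ (hcon a).trans (hcon b).symm⟩
    have h0 : topologicalKrullDim C ≤ 0 := by
      have : Subsingleton (TopologicalSpace.IrreducibleCloseds C) := by
        refine ⟨fun a b ↦ ?_⟩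
        apply TopologicalSpace.IrreducibleCloseds.ext
        have ha := a.isIrreducible.nonempty
        have hb := b.isIrreducible.nonempty
        rw [Subsingleton.eq_univ_of_nonempty ha, Subsingleton.eq_univ_of_nonempty hb]
      exact Order.krullDim_nonpos_of_subsingleton
    rw [hC.dim] at h0
    exact absurd h0 (by decide)
  have := hC.closed
  have hinj : Function.Injective i := i.isClosedEmbedding.injective
  have hyy : i (genericPoint C) ⤳ i c₁ :=
    ((genericPoint_spec C).specializes trivial).map i.continuous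
  have hne : i (genericPoint C) ≠ i c₁ := fun h' ↦ hc₁ (hinj h').symm
  obtain ⟨y₀, hy₀⟩ := hC.contracted
  have hff : f.left (i (genericPoint C)) = f.left (i c₁) := (hy₀ _).trans (hy₀ _).symm
  set y := i (genericPoint C) with hydef
  set y' := i c₁ with hydef'
  obtain ⟨j, hj⟩ := c.cover y'
  have hjle : ring k p A v w j.1 ≤ localRing k X y' := (c.mem_iff j y').1 hj
  have hjle' : ring k p A v w j.1 ≤ localRing k X y := hjle.trans (localRing_le hyy)
  by_cases hY : FLIP.toY j.1 = .Y0
  · obtain ⟨j, hj'⟩ := j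
    have P1case : ∀ (hj1 : y' ∈ U ⟨.P1, trivial⟩), y = z₀ := by
      intro hj1
      have hP1 : ring k p A v w .P1 ≤ localRing k X y' := (c.mem_iff ⟨.P1, trivial⟩ y').1 hj1
      have hY0 := (Y0_le (k := k) (p := p) (A := A) h.v1 h.w1 h.vw).1
      have hinv := hf.inv_iff y y' hff ⟨.Y0, trivial⟩ ((hY0.trans hP1).trans (localRing_le hyy))
      have hb1 : v - 1 ∈ ring k p A v w .Y0 := Algebra.subset_adjoin (by simp)
      have hb2 : (v - 1) ^ 2 * yy p A v w ∈ ring k p A v w .Y0 :=
        Algebra.subset_adjoin (by simp)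
      have hb3 : (v - 1) * (w - 1) * yy p A v w ∈ ring k p A v w .Y0 :=
        Algebra.subset_adjoin (by simp)
      have hb4 : w - 1 ∈ ring k p A v w .Y0 := Algebra.subset_adjoin (by simp)
      have hle : ∀ b ∈ ring k p A v w .Y0, (∃ b' ∈ ring k p A v w .Y0,
          (w - 1) / (v - 1) = b' * b⁻¹) →
          ring k p A v w .P1 ≤ ring k p A v w .Y0 ⊔ Algebra.adjoin k {b⁻¹} := by
        rintro b hb ⟨b', hb', e⟩
        rw [P1_le_iff h.v1 h.w1 h.vw le_sup_left, e]
        exact Subalgebra.mul_mem _ ((le_sup_left : ring k p A v w .Y0 ≤ _) hb')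
          ((le_sup_right : Algebra.adjoin k {b⁻¹} ≤ _) (Algebra.subset_adjoin rfl))
      have e1 := (nonUnit_of_ne c ⟨.P1, trivial⟩ hY0 hb1 h1'
        (hle _ hb1 ⟨w - 1, hb4, div_eq_mul_inv _ _⟩) hj1 hyy hne hinv).2
      have e2 := (nonUnit_of_ne c ⟨.P1, trivial⟩ hY0 hb2 (mul_ne_zero (pow_ne_zero 2 h1') hy)
        (hle _ hb2 ⟨_, hb3, by field_simp⟩) hj1 hyy hne hinv).2
      by_contra hyz
      apply hne
      refine eq_of_specializes_of_line c ⟨.P1, trivial⟩
        (x := ![(w - 1) / (v - 1), v - 1, (v - 1) ^ 2 * yy p A v w]) hl.mem₁ ?_ hl.red₁ h1 hj1 hyy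
        e1 e2 hyz
      intro a
      fin_cases a
      · exact Algebra.subset_adjoin (by simp)
      · exact hY0 hb1
      · exact hY0 hb2
    have P2case : ∀ (hj1 : y' ∈ U ⟨.P2, trivial⟩), y = z₀ := by
      intro hj1
      have hP1 : ring k p A v w .P2 ≤ localRing k X y' := (c.mem_iff ⟨.P2, trivial⟩ y').1 hj1
      have hY0 := (Y0_le (k := k) (p := p) (A := A) h.v1 h.w1 h.vw).2
      have hinv := hf.inv_iff y y' hff ⟨.Y0, trivial⟩ ((hY0.trans hP1).trans (localRing_le hyy))
      have hb1 : w - 1 ∈ ring k p A v w .Y0 := Algebra.subset_adjoin (by simp)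
      have hb2 : (w - 1) ^ 2 * yy p A v w ∈ ring k p A v w .Y0 :=
        Algebra.subset_adjoin (by simp)
      have hb3 : (v - 1) * (w - 1) * yy p A v w ∈ ring k p A v w .Y0 :=
        Algebra.subset_adjoin (by simp)
      have hb4 : v - 1 ∈ ring k p A v w .Y0 := Algebra.subset_adjoin (by simp)
      have hle : ∀ b ∈ ring k p A v w .Y0, (∃ b' ∈ ring k p A v w .Y0,
          (v - 1) / (w - 1) = b' * b⁻¹) →
          ring k p A v w .P2 ≤ ring k p A v w .Y0 ⊔ Algebra.adjoin k {b⁻¹} := by
        rintro b hb ⟨b', hb', e⟩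
        rw [P2_le_iff h.v1 h.w1 h.vw le_sup_left, e]
        exact Subalgebra.mul_mem _ ((le_sup_left : ring k p A v w .Y0 ≤ _) hb')
          ((le_sup_right : Algebra.adjoin k {b⁻¹} ≤ _) (Algebra.subset_adjoin rfl))
      have e1 := (nonUnit_of_ne c ⟨.P2, trivial⟩ hY0 hb1 h2'
        (hle _ hb1 ⟨v - 1, hb4, div_eq_mul_inv _ _⟩) hj1 hyy hne hinv).2
      have e2 := (nonUnit_of_ne c ⟨.P2, trivial⟩ hY0 hb2 (mul_ne_zero (pow_ne_zero 2 h2') hy)
        (hle _ hb2 ⟨_, hb3, by field_simp⟩) hj1 hyy hne hinv).2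
      by_contra hyz
      apply hne
      have hred2 := hl.red₂
      rw [inv_div] at hred2
      refine eq_of_specializes_of_line c ⟨.P2, trivial⟩
        (x := ![(v - 1) / (w - 1), w - 1, (w - 1) ^ 2 * yy p A v w]) hl.mem₂ ?_ hred2 h2 hj1 hyy
        e1 e2 hyz
      intro a
      fin_cases a
      · exact Algebra.subset_adjoin (by simp)
      · exact hY0 hb1
      · exact hY0 hb2
    cases j with
    | P1 => exact P1case hj
    | P2 => exact P2case hj
    | NI f => simp [FLIP.toY] at hY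
    | NII f => simp [FLIP.toY] at hY
    | M f => simp [FLIP.toY] at hY
    | T6 => simp [FLIP.toY] at hY
    | P3 => exact absurd hj' (by simp [Ch.inX])
    | P4 => exact absurd hj' (by simp [Ch.inX])
    | Y0 => exact absurd hj' (by simp [Ch.inX])
  · exfalso
    have hj' := FLIP.inX_cases j.2 hY
    exact hne (A10G_eq c j hj hyy (hf.inv_iff y y' hff ⟨j.1, hj'.1⟩ hjle'))

end H1F.AMP
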