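import Pool.Agent.Lib.H1F.AMP.A4
import Pool.Agent.Lib.H1F.FLIP.Loc

/-!
# H1F AMP, A11: from level 1 (atlases) to level 2 (function fields)
-/

open CategoryTheory CategoryTheory.Limits AlgebraicGeometry Order

universe u

namespace H1F.AMP

/-- The chart rings and homomorphisms of fields. -/
theorem ring_map {k K K' : Type*} [CommRing k] [Field K] [Field K'] [Algebra k K] [Algebra k K']
    (φ : K →ₐ[k] K') (p : ℕ) (A v w : K) (c : Ch) :
    (ring k p A v w c).map φ = ring k p (φ A) (φ v) (φ w) c := by
  have hfa : ∀ f, φ (fa p A v w f) = fa p (φ A) (φ v) (φ w) f := by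
    intro f
    fin_cases f <;> simp [fa]
  have hfv : ∀ f, φ (fv v w f) = fv (φ v) (φ w) f := by
    intro f
    fin_cases f <;> simp [fv]
  have hfw : ∀ f, φ (fw v w f) = fw (φ v) (φ w) f := by
    intro f
    fin_cases f <;> simp [fw]
  have hyy : φ (yy p A v w) = yy p (φ A) (φ v) (φ w) := by
    simp [yy]
  have hnn : φ (nn p A v w) = nn p (φ A) (φ v) (φ w) := by
    simp [nn]
  cases c with
  | NI f => simp only [ring, NI, AlgHom.map_adjoin, Set.image_insert_eq, Set.image_singleton,
      map_sub, map_div₀, map_inv₀, map_one, hfa, hfv, hfw]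
  | NII f => simp only [ring, NII, AlgHom.map_adjoin, Set.image_insert_eq, Set.image_singleton,
      map_sub, map_div₀, map_inv₀, map_one, hfa, hfv, hfw]
  | M i => fin_cases i <;>
      simp only [ring, MM, AlgHom.map_adjoin, Set.image_insert_eq, Set.image_singleton,
      map_sub, map_div₀, map_inv₀, map_one, map_pow]
  | T6 => simp only [ring, T6, AlgHom.map_adjoin, Set.image_insert_eq, Set.image_singleton,
      map_sub, map_div₀, map_inv₀, map_one, map_pow]
  | P1 => simp only [ring, P1, AlgHom.map_adjoin, Set.image_insert_eq, Set.image_singleton,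
      map_sub, map_add, map_mul, map_neg, map_div₀, map_inv₀, map_one, map_pow, hnn, map_natCast]
  | P2 => simp only [ring, P2, AlgHom.map_adjoin, Set.image_insert_eq, Set.image_singleton,
      map_sub, map_div₀, map_inv₀, map_one, map_pow, hnn]
  | P3 => simp only [ring, P3, AlgHom.map_adjoin, Set.image_insert_eq, Set.image_singleton,
      map_sub, map_mul, map_div₀, map_inv₀, map_one, map_pow, hyy]
  | P4 => simp only [ring, P4, AlgHom.map_adjoin, Set.image_insert_eq, Set.image_singleton,
      map_sub, map_mul, map_div₀, map_inv₀, map_one, map_pow, hyy]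
  | Y0 => simp only [ring, Y0, AlgHom.map_adjoin, Set.image_insert_eq, Set.image_singleton,
      map_sub, map_mul, map_div₀, map_inv₀, map_one, map_pow, hyy]

theorem mem_comap_equiv {k K K' : Type*} [CommRing k] [Field K] [Field K'] [Algebra k K]
    [Algebra k K'] (e : K ≃ₐ[k] K') (S : Subalgebra k K') (x : K) :
    x ∈ S.comap e.toAlgHom ↔ e x ∈ S := Iff.rfl

theorem comap_eq_map_symm {k K K' : Type*} [CommRing k] [Field K] [Field K'] [Algebra k K]
    [Algebra k K'] (e : K ≃ₐ[k] K') (S : Subalgebra k K') :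
    S.comap e.toAlgHom = S.map e.symm.toAlgHom := by
  ext x
  constructor
  · intro hx
    exact ⟨e x, hx, e.symm_apply_apply x⟩
  · rintro ⟨y, hy, rfl⟩
    change e (e.symm y) ∈ S
    rw [e.apply_symm_apply]
    exact hy

/-- The chart rings in the function field. -/
theorem ring_comap {k K K' : Type*} [CommRing k] [Field K] [Field K'] [Algebra k K]
    [Algebra k K'] (e : K ≃ₐ[k] K') (p : ℕ) (A v w : K') (c : Ch) :
    (ring k p A v w c).comap e.toAlgHom = ring k p (e.symm A) (e.symm v) (e.symm w) c := by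
  rw [comap_eq_map_symm, ring_map]
  rfl

variable {k : Type u} [Field k] {K : Type u} [Field K] [Algebra k K]
  {ι κ : Type} [Finite ι] [Nonempty ι] [Finite κ] [Nonempty κ]

/-- The morphism `f` in terms of local rings. -/
theorem fiberData_of_locData {R : ι → Subalgebra k K} {S : κ → Subalgebra k K}
    {X Y : Over (Spec (CommRingCat.of k))} [IsIntegral X.left] (a : Atlas R X) (b : Atlas S Y)
    (e : X.left.functionField ≃ₐ[k] K)
    (h : FLIP.LocData a (fun x ↦ (localRing k X x).map e.toAlgHom))
    {M : Y.left → Subalgebra k K} (h' : FLIP.LocData b M) (f : X ⟶ Y)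
    (hf : ∀ i j (hij : S j ≤ R i), a.c i ≫ f.left = specIncl hij ≫ b.c j)
    (hs : ∀ i, ∃ j, S j ≤ R i) :
    FiberData f (fun j ↦ (b.c j).opensRange (H := b.isOpen j))
      (fun j ↦ (S j).comap e.toAlgHom) := by
  have hle : ∀ (x : X.left) (j : κ),
      (S j).comap e.toAlgHom ≤ localRing k X x ↔ S j ≤ (localRing k X x).map e.toAlgHom := by
    intro x j
    constructor
    · intro hj y hy
      refine ⟨e.symm y, hj ?_, e.apply_symm_apply y⟩
      change e (e.symm y) ∈ S j
      rw [e.apply_symm_apply]
      exact hy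
    · intro hj y hy
      obtain ⟨z, hz, hzy⟩ := hj hy
      have : z = y := e.injective hzy
      exact this ▸ hz
  have hmem : ∀ (x : X.left) (g : X.left.functionField),
      e g ∈ (localRing k X x).map e.toAlgHom ↔ g ∈ localRing k X x := by
    intro x g
    constructor
    · rintro ⟨z, hz, hzy⟩
      have : z = g := e.injective hzy
      exact this ▸ hz
    · intro hg
      exact ⟨g, hg, rfl⟩
  have hinv : ∀ (x : X.left) (g : X.left.functionField),
      (e g)⁻¹ ∈ (localRing k X x).map e.toAlgHom ↔ g⁻¹ ∈ localRing k X x := by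
    intro x g
    rw [← map_inv₀, hmem]
  have hMinv : ∀ (x : X.left) (j : κ), S j ≤ (localRing k X x).map e.toAlgHom → ∀ g ∈ S j,
      (g⁻¹ ∈ (localRing k X x).map e.toAlgHom ↔ g⁻¹ ∈ M (f.left x)) := by
    intro x j hj g hg
    have hx := (h.hom_mem_range_iff f h' hf hs x j).2 hj
    obtain ⟨y, hy⟩ := hx
    constructor
    · intro hgi
      refine h.dom_of_hom f h' hf hs x g ?_ hgi
      rw [← hy]
      exact h'.le j y hg
    · intro hgi
      exact h.le_of_hom f h' hf hs x hgi
  refine ⟨?_, ?_, ?_, ?_, ?_⟩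
  · intro j
    have := b.isOpen j
    exact isAffineOpen_opensRange (b.c j)
  · intro y
    obtain ⟨j, t, ht⟩ := b.cover y
    exact ⟨j, ⟨t, ht⟩⟩
  · intro x j
    rw [hle]
    exact h.hom_mem_range_iff f h' hf hs x j
  · intro x x' j hj hj' hg
    rw [hle] at hj hj'
    obtain ⟨y, hy⟩ := (h.hom_mem_range_iff f h' hf hs x j).2 hj
    obtain ⟨y', hy'⟩ := (h.hom_mem_range_iff f h' hf hs x' j).2 hj'
    rw [← hy, ← hy']
    congr 1
    apply PrimeSpectrum.ext
    ext r
    rw [h'.prime j y r, h'.prime j y' r, hy, hy']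
    have e1 := hMinv x j hj r r.2
    have e2 := hMinv x' j hj' r r.2
    rw [← e1, ← e2]
    obtain ⟨s, hs'⟩ := e.surjective (r : K)
    have hs2 : s ∈ (S j).comap e.toAlgHom := by
      change e s ∈ S j
      rw [hs']
      exact r.2
    have := hg s hs2
    rw [← hs', hinv, hinv, this]
  · intro x x' hxx j hj g hg
    rw [hle] at hj
    have hj' : S j ≤ (localRing k X x').map e.toAlgHom := by
      rw [← h.hom_mem_range_iff f h' hf hs x' j, ← hxx]
      exact (h.hom_mem_range_iff f h' hf hs x j).2 hj
    have e1 := hMinv x j hj _ hg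
    have e2 := hMinv x' j hj' _ hg
    rw [← hinv, ← hinv]
    exact (e1.trans (by rw [hxx])).trans e2.symm

end H1F.AMP
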