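import Pool.Agent.Lib.H1F.AMP.A2

/-!
# H1F AMP, chunk A7: the projective line
-/

open CategoryTheory CategoryTheory.Limits AlgebraicGeometry Order

universe u

namespace H1F.AMP

section Ring

variable {k K : Type*} [Field k] [Field K] [Algebra k K]

theorem A7_equiv {t : K} (h : Transcendental k t) :
    ∃ e : Polynomial k ≃ₐ[k] Algebra.adjoin k {t},
      ∀ q, ((e q : Algebra.adjoin k {t}) : K) = Polynomial.aeval t q := by
  have hinj := transcendental_iff_injective.1 h
  let e := AlgEquiv.ofInjective (Polynomial.aeval t : Polynomial k →ₐ[k] K) hinj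
  have hr : (Polynomial.aeval t : Polynomial k →ₐ[k] K).range = Algebra.adjoin k {t} :=
    (Algebra.adjoin_singleton_eq_range_aeval k t).symm
  exact ⟨e.trans (Subalgebra.equivOfEq _ _ hr), fun q ↦ rfl⟩

theorem A7_fg (t : K) : (Algebra.adjoin k {t}).FG := ⟨{t}, by simp⟩

theorem A7_pid {t : K} (h : Transcendental k t) :
    IsPrincipalIdealRing (Algebra.adjoin k {t}) := by
  obtain ⟨e, -⟩ := A7_equiv h
  exact IsPrincipalIdealRing.of_surjective e.toRingEquiv.toRingHom e.surjective

theorem A7_inv {t : K} (h : Transcendental k t) : Transcendental k t⁻¹ :=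
  fun h1 ↦ h (IsAlgebraic.inv_iff.1 h1)

end Ring

variable {k : Type u} [Field k]

section Chart

variable {C : Over (Spec (CommRingCat.of k))} [IsIntegral C.left] {ι : Type} [Finite ι]
  [Nonempty ι] {U : ι → C.left.Opens} {R : ι → Subalgebra k C.left.functionField}

omit [Finite ι] [Nonempty ι] in
theorem A7_mem_gen (f : C.left.functionField) : f ∈ localRing k C (genericPoint C.left) := by
  refine (mem_localRing C _ f).2 ⟨f, ?_⟩
  have h := C.left.presheaf.stalkSpecializes_refl (genericPoint C.left)
  change (C.left.presheaf.stalkSpecializes _).hom f = f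
  rw [h]
  rfl

/-- Zeros: existence. -/
theorem A7_exists (c : Charts C U R) (i : ι) {t : C.left.functionField} (ht : Transcendental k t)
    (hR : R i = Algebra.adjoin k {t}) (l : k) :
    ∃ z : C.left, z ∈ U i ∧ z ≠ genericPoint C.left ∧
      NonUnit (localRing k C z) (t - algebraMap k _ l) := by
  obtain ⟨e, he⟩ := A7_equiv ht
  have hp : (Ideal.span {(Polynomial.X - Polynomial.C l : Polynomial k)}).IsPrime :=
    (Ideal.span_singleton_prime (Polynomial.X_sub_C_ne_zero l)).2 (Polynomial.prime_X_sub_C l)
  let f : R i →+* Polynomial k := (e.symm.toRingEquiv.toRingHom).comp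
    (Subalgebra.equivOfEq _ _ hR).toRingEquiv.toRingHom
  obtain ⟨z, hz, h⟩ := c.exists_point i
    ((Ideal.span {(Polynomial.X - Polynomial.C l : Polynomial k)}).comap f)
  have hmem : t - algebraMap k _ l ∈ R i := by
    rw [hR]
    exact sub_mem (Algebra.self_mem_adjoin_singleton k t) (Subalgebra.algebraMap_mem _ l)
  have h1 := (h ⟨t - algebraMap k _ l, hmem⟩).1 (by
    rw [Ideal.mem_comap]
    have : f ⟨t - algebraMap k _ l, hmem⟩ = Polynomial.X - Polynomial.C l := by
      change e.symm _ = _
      rw [AlgEquiv.symm_apply_eq]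
      apply Subtype.ext
      rw [he, map_sub, Polynomial.aeval_X, Polynomial.aeval_C]
      rfl
    rw [this]
    exact Ideal.mem_span_singleton_self _)
  refine ⟨z, hz, ?_, h1⟩
  rintro rfl
  rcases h1 with h1 | h1
  · exact ht ⟨Polynomial.X - Polynomial.C l, Polynomial.X_sub_C_ne_zero l, by
      rw [map_sub, Polynomial.aeval_X, Polynomial.aeval_C]
      exact h1⟩
  · exact h1 (A7_mem_gen _)

/-- Zeros: uniqueness. -/
theorem A7_unique (c : Charts C U R) (i : ι) {t : C.left.functionField} (ht : Transcendental k t)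
    (hR : R i = Algebra.adjoin k {t}) (l : k) {z z' : C.left} (hz : z ∈ U i)
    (hz' : z' ∈ U i) (h1 : NonUnit (localRing k C z) (t - algebraMap k _ l))
    (h2 : NonUnit (localRing k C z') (t - algebraMap k _ l)) : z = z' := by
  obtain ⟨e, he⟩ := A7_equiv ht
  have hm : (Ideal.span {(Polynomial.X - Polynomial.C l : Polynomial k)}).IsMaximal :=
    PrincipalIdealRing.isMaximal_of_irreducible (Polynomial.irreducible_X_sub_C l)
  let f : Polynomial k ≃+* R i := (e.toRingEquiv).trans
    (Subalgebra.equivOfEq _ _ hR.symm).toRingEquiv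
  have hf : ∀ q, ((f q : R i) : C.left.functionField) = Polynomial.aeval t q := he
  have key : ∀ z : C.left, z ∈ U i → NonUnit (localRing k C z) (t - algebraMap k _ l) →
      ∀ g : R i, ((g : C.left.functionField) = 0 ∨
        (g : C.left.functionField)⁻¹ ∉ localRing k C z) ↔
        f.symm g ∈ Ideal.span {(Polynomial.X - Polynomial.C l : Polynomial k)} := by
    intro z hz h g
    obtain ⟨P, hP, hPz⟩ := c.exists_prime hz
    have hle : Ideal.span {(Polynomial.X - Polynomial.C l : Polynomial k)} ≤
        P.comap f.toRingHom := by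
      rw [Ideal.span_singleton_le_iff_mem, Ideal.mem_comap]
      refine (hPz _).2 ?_
      have h3 : ((f (Polynomial.X - Polynomial.C l) : R i) : C.left.functionField) =
          t - algebraMap k _ l := by
        rw [hf, map_sub, Polynomial.aeval_X, Polynomial.aeval_C]
      change ((f (Polynomial.X - Polynomial.C l) : R i) : C.left.functionField) = 0 ∨
        ((f (Polynomial.X - Polynomial.C l) : R i) : C.left.functionField)⁻¹ ∉ _
      rw [h3]
      exact h
    have hne : P.comap f.toRingHom ≠ ⊤ := (hP.comap _).ne_top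
    have heq := hm.eq_of_le hne hle
    rw [← hPz, heq, Ideal.mem_comap]
    change _ ↔ f (f.symm g) ∈ P
    rw [RingEquiv.apply_symm_apply]
  refine eq_of_localRing_eq c (localRing_eq c i (A5_le c hz) (A5_le c hz') fun g hg ↦ ?_)
  by_cases hg0 : g = 0
  · rw [hg0, inv_zero]
    exact ⟨fun _ ↦ zero_mem _, fun _ ↦ zero_mem _⟩
  have h3 := (key z hz h1 ⟨g, hg⟩).trans (key z' hz' h2 ⟨g, hg⟩).symm
  simp only [hg0, false_or] at h3
  exact not_iff_not.1 h3

/-- The codimension. -/
theorem A7_coheight (c : Charts C U R) (i : ι) {t : C.left.functionField}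
    (ht : Transcendental k t) (hR : R i = Algebra.adjoin k {t}) {z : C.left} (hz : z ∈ U i) :
    coheight z = 1 ↔ z ≠ genericPoint C.left := by
  have hpid : IsPrincipalIdealRing (R i) := by
    rw [hR]
    exact A7_pid ht
  obtain ⟨P, hP, hPz⟩ := c.exists_prime hz
  have hco := c.coheight hz P hPz
  constructor
  · rintro h rfl
    have h0 : coheight (genericPoint C.left) = 0 := by
      rw [Order.coheight_eq_zero]
      intro y _
      exact (genericPoint_spec C.left).specializes trivial
    rw [h0] at h
    exact zero_ne_one h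
  · intro h
    have hP0 : P.height ≠ 0 := by
      intro h0
      rw [← hco, Order.coheight_eq_zero] at h0
      have h1 : genericPoint C.left ⤳ z := (genericPoint_spec C.left).specializes trivial
      have h2 : z ⤳ genericPoint C.left := h0 h1
      exact h (h2.antisymm h1).eq
    rw [hco]
    refine le_antisymm ?_ (Order.one_le_iff_ne_zero.2 hP0)
    refine Ideal.height_le_one_of_isPrincipal_of_mem_minimalPrimes P P ?_
    rw [Ideal.minimalPrimes_eq_subsingleton_self]
    exact rfl

/-- Every point is a zero. -/
theorem A7_zero_at [IsAlgClosed k] (c : Charts C U R) (i : ι) {t : C.left.functionField}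
    (ht : Transcendental k t) (hR : R i = Algebra.adjoin k {t}) {z : C.left} (hz : z ∈ U i)
    (hz' : z ≠ genericPoint C.left) :
    ∃ l : k, NonUnit (localRing k C z) (t - algebraMap k _ l) := by
  obtain ⟨e, he⟩ := A7_equiv ht
  obtain ⟨P, hP, hPz⟩ := c.exists_prime hz
  have hco := c.coheight hz P hPz
  have h1 := (A7_coheight c i ht hR hz).2 hz'
  have hP0 : P ≠ ⊥ := by
    rintro rfl
    rw [h1, Ideal.height_bot] at hco
    exact one_ne_zero hco
  let f : Polynomial k ≃+* R i := (e.toRingEquiv).trans
    (Subalgebra.equivOfEq _ _ hR.symm).toRingEquiv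
  have hf : ∀ q, ((f q : R i) : C.left.functionField) = Polynomial.aeval t q := he
  let P' : Ideal (Polynomial k) := Ideal.comap f.toRingHom P
  have hP' : P'.IsPrime := hP.comap f.toRingHom
  have hP0' : P' ≠ ⊥ := by
    intro h2
    obtain ⟨a, ha, ha0⟩ := P.ne_bot_iff.1 hP0
    have h3 : f.symm a ∈ P' := by
      change f (f.symm a) ∈ P
      rw [RingEquiv.apply_symm_apply]
      exact ha
    rw [h2, Ideal.mem_bot] at h3
    exact ha0 (by rw [← f.apply_symm_apply a, h3, map_zero])
  obtain ⟨q, hq⟩ := (IsPrincipalIdealRing.principal P').principal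
  have hq' : P' = Ideal.span {q} := hq
  have hq0 : q ≠ 0 := by
    rintro rfl
    exact hP0' (by rw [hq']; simp)
  have hqp : Prime q := (Ideal.span_singleton_prime hq0).1 (hq' ▸ hP')
  obtain ⟨l, hl⟩ := Polynomial.exists_root_of_degree_eq_one
    (IsAlgClosed.degree_eq_one_of_irreducible k hqp.irreducible)
  have hd : Polynomial.X - Polynomial.C l ∣ q := Polynomial.dvd_iff_isRoot.2 hl
  have hass : Associated (Polynomial.X - Polynomial.C l) q :=
    (Polynomial.irreducible_X_sub_C l).associated_of_dvd hqp.irreducible hd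
  have hmem : Polynomial.X - Polynomial.C l ∈ P' := by
    rw [hq', Ideal.mem_span_singleton]
    exact hass.symm.dvd
  have h3 := (hPz (f (Polynomial.X - Polynomial.C l))).1 hmem
  rw [hf, map_sub, Polynomial.aeval_X, Polynomial.aeval_C] at h3
  exact ⟨l, h3⟩

end Chart

variable {C : Over (Spec (CommRingCat.of k))} [IsIntegral C.left]
  {U : Fin 2 → C.left.Opens} {t : C.left.functionField}

theorem A7_ring (h : P1Curve C U t) (i : Fin 2) : ∃ s : C.left.functionField,
    Transcendental k s ∧ (![Algebra.adjoin k {t}, Algebra.adjoin k {t⁻¹}] : Fin 2 → _) i =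
      Algebra.adjoin k {s} := by
  fin_cases i
  · exact ⟨t, h.tr, rfl⟩
  · exact ⟨t⁻¹, A7_inv h.tr, rfl⟩

/-- **A7a (S/M).** `Charts.variety` (AT14): `Algebra.adjoin k {t}` is finitely generated and
integrally closed, because it is isomorphic to `Polynomial k` (`t` is transcendental:
`AlgEquiv.ofInjective` / `Algebra.adjoin_singleton_eq_range_aeval`); same for `t⁻¹`
(`Transcendental` of the inverse). -/
theorem P1Curve.variety (h : P1Curve C U t) : Variety k C := by
  refine h.charts.variety (fun i ↦ ?_) fun i ↦ ?_
  · obtain ⟨s, -, hs⟩ := A7_ring h i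
    rw [hs]
    exact A7_fg s
  · obtain ⟨s, hs, hs'⟩ := A7_ring h i
    rw [hs']
    have := A7_pid hs
    infer_instance

/-- **A7b (S).** `Charts.isLocallyNoetherian` (AT13). -/
theorem P1Curve.isLocallyNoetherian (h : P1Curve C U t) : IsLocallyNoetherian C.left := by
  refine h.charts.isLocallyNoetherian fun i ↦ ?_
  obtain ⟨s, hs, hs'⟩ := A7_ring h i
  rw [hs']
  have := A7_pid hs
  infer_instance

/-- **A7c (M).** Codimension one means: not the generic point.
Proof: for `z` in the chart `i` with prime `P` (the non-units, AT8 direction by hand) AT12 gives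
`coheight z = P.height`; `Algebra.adjoin k {t}` is a principal ideal domain, so `P.height = 1` if
`P ≠ ⊥`; `P = ⊥` iff the local ring is the function field (A1f) iff `z` is the generic point. -/
theorem P1Curve.coheight_iff (h : P1Curve C U t) (z : C.left) :
    coheight z = 1 ↔ z ≠ genericPoint C.left := by
  obtain ⟨i, hi⟩ := h.charts.cover z
  obtain ⟨s, hs, hs'⟩ := A7_ring h i
  exact A7_coheight h.charts i hs hs' hi

/-- **A7d (M).** The points: `t - l` is a non-unit at exactly one point, and a point `z ≠ ξ` is
either a zero of some `t - l` or `t⁻¹` is a non-unit.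
Proof: existence by AT8 for the prime ideal generated by `t - l` in `Algebra.adjoin k {t}`; a point
of the first chart at which `t - l` is a non-unit corresponds to a prime which contains the maximal
ideal `(t - l)`; if `z` is not in the first chart then it is in the second one and `t⁻¹` is a
non-unit there (else `Algebra.adjoin k {t} ≤ localRing`, AT9), so also `t - l ∉ localRing`;
uniqueness by A1g, A1h. -/
theorem P1Curve.exists_zero (h : P1Curve C U t) (l : k) :
    ∃ z : C.left, z ∈ U 0 ∧ z ≠ genericPoint C.left ∧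
      NonUnit (localRing k C z) (t - algebraMap k _ l) :=
  A7_exists h.charts 0 h.tr rfl l

/-- **A7e (M).** See A7d. -/
theorem P1Curve.zero_unique (h : P1Curve C U t) (l : k) {z z' : C.left} (hz : z ∈ U 0)
    (hz' : z' ∈ U 0) (h1 : NonUnit (localRing k C z) (t - algebraMap k _ l))
    (h2 : NonUnit (localRing k C z') (t - algebraMap k _ l)) : z = z' :=
  A7_unique h.charts 0 h.tr rfl l hz hz' h1 h2

/-- **A7f (M).** `k` is algebraically closed: a point of the first chart which is not generic is a
zero of some `t - l`.  Proof: the prime ideal of `Algebra.adjoin k {t}` is generated by an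
irreducible polynomial, of degree one (`IsAlgClosed.degree_eq_one_of_irreducible`). -/
theorem P1Curve.exists_zero_at [IsAlgClosed k] (h : P1Curve C U t) {z : C.left} (hz : z ∈ U 0)
    (hz' : z ≠ genericPoint C.left) :
    ∃ l : k, NonUnit (localRing k C z) (t - algebraMap k _ l) :=
  A7_zero_at h.charts 0 h.tr rfl hz hz'

/-- **A7g (M).** The point at infinity: existence and uniqueness.
Proof: AT8 for the ideal generated by `t⁻¹` in `Algebra.adjoin k {t⁻¹}`. -/
theorem P1Curve.infinity (h : P1Curve C U t) :
    ∃ z : C.left, z ∉ U 0 ∧ z ≠ genericPoint C.left ∧ NonUnit (localRing k C z) t⁻¹ ∧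
      t⁻¹ ∈ localRing k C z ∧ ∀ z' : C.left, z' ∉ U 0 → z' = z := by
  have ht0 : t ≠ 0 := by
    rintro rfl
    exact h.tr isAlgebraic_zero
  obtain ⟨z, hz, hzg, hzt⟩ := A7_exists h.charts 1 (A7_inv h.tr) rfl 0
  rw [map_zero, sub_zero] at hzt
  have hz0 : z ∉ U 0 := by
    intro h0
    have h1 := A5_le h.charts h0 (Algebra.self_mem_adjoin_singleton k t)
    rcases hzt with h2 | h2
    · exact inv_ne_zero ht0 h2
    · rw [inv_inv] at h2
      exact h2 h1
  have hz1 : ∀ z : C.left, z ∉ U 0 → z ∈ U 1 := by
    intro z hz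
    obtain ⟨i, hi⟩ := h.charts.cover z
    fin_cases i
    · exact absurd hi hz
    · exact hi
  refine ⟨z, hz0, hzg, hzt, A5_le h.charts hz (Algebra.self_mem_adjoin_singleton k t⁻¹),
    fun z' hz' ↦ ?_⟩
  refine A7_unique h.charts 1 (A7_inv h.tr) rfl 0 (hz1 z' hz') hz ?_ ?_
  · rw [map_zero, sub_zero]
    by_contra hcon
    unfold NonUnit at hcon
    push Not at hcon
    rw [inv_inv] at hcon
    refine hz' ((h.charts.mem_iff 0 z').2 (Algebra.adjoin_le ?_))
    rintro _ rfl
    exact hcon.2
  · rw [map_zero, sub_zero]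
    exact hzt

end H1F.AMP
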