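import Pool.Agent.Lib.H1F.AMP.A6
import Pool.Agent.Lib.H1F.AMP.A7

/-!
# H1F AMP, chunk A8F: independence of the curve
-/

open CategoryTheory CategoryTheory.Limits AlgebraicGeometry Order

universe u

namespace H1F.AMP

variable {k : Type u} [Field k] {C C' X : Over (Spec (CommRingCat.of k))} [IsIntegral C.left]
  [IsIntegral C'.left] [IsIntegral X.left] [IsLocallyNoetherian C.left]
  [IsLocallyNoetherian C'.left] [IsLocallyNoetherian X.left]

omit [IsLocallyNoetherian C.left] [IsLocallyNoetherian C'.left] [IsLocallyNoetherian X.left]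
  [IsIntegral C'.left] in
/-- `red` as a ring homomorphism on the local ring at `j c`. -/
noncomputable def A8F_rho (j : C ⟶ X) (c : C.left) (x : X.left) (hx : j.left c = x) :
    localRing k X x →+* localRing k C c where
  toFun a := ⟨red j a, by subst hx; exact red_mem j c a.2⟩
  map_one' := Subtype.ext (A6_red_one j)
  map_zero' := Subtype.ext (A6_red_zero j)
  map_add' a b := by
    subst hx
    have h := localRing_le (specializes_of_hom j c)
    exact Subtype.ext (red_add j (h a.2) (h b.2))
  map_mul' a b := by
    subst hx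
    have h := localRing_le (specializes_of_hom j c)
    exact Subtype.ext (red_mul j (h a.2) (h b.2))

omit [IsLocallyNoetherian C.left] [IsLocallyNoetherian C'.left] [IsLocallyNoetherian X.left] in
/-- The transfer principle. -/
theorem A8F_transfer (j : C ⟶ X) (j' : C' ⟶ X)
    (hg : j.left (genericPoint C.left) = j'.left (genericPoint C'.left))
    {a b : X.left.functionField}
    (ha : a ∈ localRing k X (j.left (genericPoint C.left)))
    (hb : b ∈ localRing k X (j.left (genericPoint C.left))) (h : red j a = red j b) :
    red j' a = red j' b := by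
  have ha' := ha
  have hb' := hb
  rw [hg] at ha' hb'
  have h1 : red j (a - b) = 0 := by
    have h2 := red_add j (Subalgebra.sub_mem _ ha hb) hb
    rw [sub_add_cancel, h] at h2
    exact left_eq_add.1 (h2.trans (add_comm _ _))
  have h3 := (red_eq_zero_iff j (Subalgebra.sub_mem _ ha hb)).1 h1
  rw [hg] at h3
  have h4 := (red_eq_zero_iff j' (Subalgebra.sub_mem _ ha' hb')).2 h3
  have h5 := red_add j' (Subalgebra.sub_mem _ ha' hb') hb'
  rw [sub_add_cancel, h4, zero_add] at h5
  exact h5

omit [IsLocallyNoetherian C.left] [IsLocallyNoetherian C'.left] [IsLocallyNoetherian X.left] in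
theorem A8F_hasOrd (j : C ⟶ X) (j' : C' ⟶ X) [IsClosedImmersion j.left]
    [IsClosedImmersion j'.left]
    (hg : j.left (genericPoint C.left) = j'.left (genericPoint C'.left)) {c : C.left}
    {c' : C'.left} (hc : j.left c = j'.left c') {a : X.left.functionField}
    (ha : a ∈ localRing k X (j.left (genericPoint C.left))) {n : ℤ}
    (h : HasOrd (localRing k C c) (red j a) n) : HasOrd (localRing k C' c') (red j' a) n := by
  have hle : localRing k X (j.left c) ≤ localRing k X (j.left (genericPoint C.left)) :=
    localRing_le (specializes_of_hom j c)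
  let ρ := A8F_rho j c (j.left c) rfl
  let ρ' := A8F_rho j' c' (j.left c) hc.symm
  have hρ : Function.Surjective ρ := by
    rintro ⟨b, hb⟩
    obtain ⟨s, hs, hsb⟩ := exists_red j c hb
    exact ⟨⟨s, hs⟩, Subtype.ext hsb⟩
  have hρ' : Function.Surjective ρ' := by
    rintro ⟨b, hb⟩
    obtain ⟨s, hs, hsb⟩ := exists_red j' c' hb
    rw [← hc] at hs
    exact ⟨⟨s, hs⟩, Subtype.ext hsb⟩
  have hker : RingHom.ker ρ = RingHom.ker ρ' := by
    ext x
    rw [RingHom.mem_ker, RingHom.mem_ker]
    constructor
    · intro hx
      have h1 : red j (x : X.left.functionField) = red j 0 := by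
        rw [A6_red_zero]
        exact congrArg Subtype.val hx
      have h2 := A8F_transfer j j' hg (hle x.2) (Subalgebra.zero_mem _) h1
      rw [A6_red_zero] at h2
      exact Subtype.ext h2
    · intro hx
      have h1 : red j' (x : X.left.functionField) = red j' 0 := by
        rw [A6_red_zero]
        exact congrArg Subtype.val hx
      have h2 := A8F_transfer j' j hg.symm (by rw [← hg]; exact hle x.2)
        (Subalgebra.zero_mem _) h1
      rw [A6_red_zero] at h2
      exact Subtype.ext h2
  let e : localRing k C c ≃+* localRing k C' c' :=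
    ((RingHom.quotientKerEquivOfSurjective hρ).symm.trans (Ideal.quotEquivOfEq hker)).trans
      (RingHom.quotientKerEquivOfSurjective hρ')
  have he : ∀ x, e (ρ x) = ρ' x := by
    intro x
    have h1 : (RingHom.quotientKerEquivOfSurjective hρ).symm (ρ x) = Ideal.Quotient.mk _ x := by
      rw [RingEquiv.symm_apply_eq]
      rfl
    change (RingHom.quotientKerEquivOfSurjective hρ') ((Ideal.quotEquivOfEq hker)
      ((RingHom.quotientKerEquivOfSurjective hρ).symm (ρ x))) = _
    rw [h1]
    rfl
  obtain ⟨π, ⟨hπ, hirr⟩, u, hu⟩ := h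
  obtain ⟨q, hq⟩ := hρ ⟨π, hπ⟩
  obtain ⟨s, hs⟩ := hρ u
  have hq1 : red j (q : X.left.functionField) = π := congrArg Subtype.val hq
  have hs1 : red j (s : X.left.functionField) = ((u : localRing k C c) : C.left.functionField) :=
    congrArg Subtype.val hs
  have hirr' : Irreducible (ρ' q) := by
    rw [← he, hq]
    exact (MulEquiv.irreducible_iff e.toMulEquiv).2 hirr
  have hu' : IsUnit (ρ' s) := by
    rw [← he, hs]
    exact u.isUnit.map e
  refine ⟨red j' (q : X.left.functionField), ⟨(ρ' q).2, hirr'⟩, hu'.unit, ?_⟩
  change red j' a = red j' (q : X.left.functionField) ^ n * red j' (s : X.left.functionField)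
  have hqL := hle q.2
  have hsL := hle s.2
  have hgL : localRing k X (j.left (genericPoint C.left)) =
    localRing k X (j'.left (genericPoint C'.left)) := by rw [hg]
  have hpow : ∀ m : ℕ, red j ((q : X.left.functionField) ^ m) =
      red j (q : X.left.functionField) ^ m := by
    intro m
    have := red_aeval j hqL (Polynomial.X ^ m)
    simpa using this
  have hpow' : ∀ m : ℕ, red j' ((q : X.left.functionField) ^ m) =
      red j' (q : X.left.functionField) ^ m := by
    intro m
    have := red_aeval j' (hgL ▸ hqL) (Polynomial.X ^ m)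
    simpa using this
  obtain ⟨m, rfl | rfl⟩ := n.eq_nat_or_neg
  · rw [zpow_natCast] at hu ⊢
    have h1 : red j a = red j ((q : X.left.functionField) ^ m * s) := by
      rw [red_mul j (Subalgebra.pow_mem _ hqL m) hsL, hpow, hq1, hs1, hu]
    have h2 := A8F_transfer j j' hg ha (Subalgebra.mul_mem _ (Subalgebra.pow_mem _ hqL m) hsL) h1
    rw [h2, red_mul j' (hgL ▸ Subalgebra.pow_mem _ hqL m) (hgL ▸ hsL), hpow']
  · rw [zpow_neg, zpow_natCast] at hu ⊢
    have hπ0 : π ≠ 0 := by
      intro h0
      apply hirr.ne_zero
      exact Subtype.ext h0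
    have hπ0' : red j' (q : X.left.functionField) ≠ 0 := by
      intro h0
      apply hirr'.ne_zero
      exact Subtype.ext h0
    have h1 : red j (a * (q : X.left.functionField) ^ m) = red j s := by
      rw [red_mul j ha (Subalgebra.pow_mem _ hqL m), hpow, hq1, hs1, hu]
      field_simp
    have h2 := A8F_transfer j j' hg (Subalgebra.mul_mem _ ha (Subalgebra.pow_mem _ hqL m)) hsL h1
    rw [red_mul j' (hgL ▸ ha) (hgL ▸ Subalgebra.pow_mem _ hqL m), hpow'] at h2
    rw [← h2]
    field_simp

omit [IsLocallyNoetherian X.left] in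
/-- **A8f (M/L).** The orders on `C` are determined by the local rings of `X`. -/
theorem ord_red_eq (j : C ⟶ X) (j' : C' ⟶ X) [IsClosedImmersion j.left]
    [IsClosedImmersion j'.left] {U : Fin 2 → C.left.Opens} {t : C.left.functionField}
    (hC : P1Curve C U t) {U' : Fin 2 → C'.left.Opens} {t' : C'.left.functionField}
    (hC' : P1Curve C' U' t')
    (hg : j.left (genericPoint C.left) = j'.left (genericPoint C'.left)) {c : C.left}
    {c' : C'.left} (hc : j.left c = j'.left c') {a : X.left.functionField}
    (ha : a ∈ localRing k X (j.left (genericPoint C.left)))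
    (ha' : a⁻¹ ∈ localRing k X (j.left (genericPoint C.left))) :
    Scheme.ord (red j a) c = Scheme.ord (red j' a) c' := by
  by_cases h0 : a = 0
  · rw [h0, A6_red_zero, A6_red_zero, Scheme.ord_zero, Scheme.ord_zero]
    rfl
  have hn : ¬ NonUnit (localRing k X (j.left (genericPoint C.left))) a := by
    rintro (h | h)
    · exact h0 h
    · exact h ha'
  have hr : red j a ≠ 0 := fun h ↦ hn ((red_eq_zero_iff j ha).1 h)
  have hr' : red j' a ≠ 0 := fun h ↦ hn (by
    have := (red_eq_zero_iff j' (by rw [← hg]; exact ha)).1 h
    rw [← hg] at this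
    exact this)
  by_cases hξ : c = genericPoint C.left
  · have hξ' : c' = genericPoint C'.left := by
      apply j'.left.isClosedEmbedding.injective
      rw [← hc, hξ, hg]
    have h1 : coheight c ≠ 1 := fun h ↦ (hC.coheight_iff c).1 h hξ
    have h2 : coheight c' ≠ 1 := fun h ↦ (hC'.coheight_iff c').1 h hξ'
    rw [Scheme.ord_eq_zero_of_coheight_neq_one h1, Scheme.ord_eq_zero_of_coheight_neq_one h2]
  · have hξ' : c' ≠ genericPoint C'.left := by
      intro h
      apply hξ
      apply j.left.isClosedEmbedding.injective
      rw [hc, h, hg]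
    have h1 : coheight c = 1 := (hC.coheight_iff c).2 hξ
    have h2 : coheight c' = 1 := (hC'.coheight_iff c').2 hξ'
    have h3 := (hasOrd_iff hC.variety h1 hr (Scheme.ord (red j a) c)).2 rfl
    have h4 := A8F_hasOrd j j' hg hc ha h3
    exact ((hasOrd_iff hC'.variety h2 hr' _).1 h4).symm

omit [IsLocallyNoetherian X.left] in
/-- **A8g (M).** The sums agree. -/
theorem finsum_red_eq (j : C ⟶ X) (j' : C' ⟶ X) [IsClosedImmersion j.left]
    [IsClosedImmersion j'.left] {U : Fin 2 → C.left.Opens} {t : C.left.functionField}
    (hC : P1Curve C U t) {U' : Fin 2 → C'.left.Opens} {t' : C'.left.functionField}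
    (hC' : P1Curve C' U' t')
    (hg : j.left (genericPoint C.left) = j'.left (genericPoint C'.left))
    {u : X.left → X.left.functionField}
    (hu : ∀ x, j.left (genericPoint C.left) ⤳ x →
      u x ∈ localRing k X (j.left (genericPoint C.left)) ∧
      (u x)⁻¹ ∈ localRing k X (j.left (genericPoint C.left))) :
    ∑ᶠ c : C.left, Scheme.ord (red j (u (j.left c))) c =
      ∑ᶠ c : C'.left, Scheme.ord (red j' (u (j'.left c))) c := by
  have h1 : ∀ c : C.left, ∃ c' : C'.left, j'.left c' = j.left c := by
    intro c
    apply exists_preimage j'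
    rw [← hg]
    exact specializes_of_hom j c
  choose ε hε using h1
  have hinj : Function.Injective ε := by
    intro a b hab
    apply j.left.isClosedEmbedding.injective
    rw [← hε, ← hε, hab]
  have hsurj : Function.Surjective ε := by
    intro c'
    obtain ⟨c, hc⟩ := exists_preimage j (x := j'.left c') (by
      rw [hg]
      exact specializes_of_hom j' c')
    refine ⟨c, ?_⟩
    apply j'.left.isClosedEmbedding.injective
    rw [hε, hc]
  have h2 := finsum_comp_equiv (Equiv.ofBijective ε ⟨hinj, hsurj⟩)
    (f := fun c : C'.left ↦ Scheme.ord (red j' (u (j'.left c))) c)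
  rw [← h2]
  refine finsum_congr fun c ↦ ?_
  change _ = Scheme.ord (red j' (u (j'.left (ε c)))) (ε c)
  rw [hε]
  have h3 := hu (j.left c) (specializes_of_hom j c)
  exact ord_red_eq j j' hC hC' hg (hε c).symm h3.1 h3.2

end H1F.AMP
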