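import Pool.Agent.Lib.H1F.AMP.A6

/-!
# H1F AMP, chunk A6K: the curve is a projective line
-/

open CategoryTheory CategoryTheory.Limits AlgebraicGeometry Order

universe u

namespace H1F.AMP

variable {k : Type u} [Field k] {C X : Over (Spec (CommRingCat.of k))} [IsIntegral C.left]
  [IsIntegral X.left] (j : C ⟶ X)

/-- The restriction of the germ of a section. -/
theorem A6K_germ (V : X.left.Opens) (hV : j.left (genericPoint C.left) ∈ V)
    [Nonempty V] [Nonempty (j.left ⁻¹ᵁ V)] (s : Γ(X.left, V)) :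
    red j ((X.left.germToFunctionField V).hom s) =
      (C.left.germToFunctionField (j.left ⁻¹ᵁ V)).hom ((j.left.app V).hom s) := by
  have h1 := Scheme.algebraMap_germ_eq_germToFunctionField (X := X.left) (U := V) hV s
  have h2 := Scheme.Hom.germ_stalkMap_apply j.left V (genericPoint C.left) hV s
  change red j (X.left.germToFunctionField V s) = _
  rw [← h1, red_stalk]
  exact h2

theorem A6K_range [IsClosedImmersion j.left] {ι : Type} [Finite ι] [Nonempty ι]
    {U : ι → X.left.Opens} {R : ι → Subalgebra k X.left.functionField} (c : Charts X U R)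
    (i : ι) (hz : j.left (genericPoint C.left) ∈ U i) [Nonempty (j.left ⁻¹ᵁ (U i))]
    {t : X.left.functionField} (ht : t ∈ R i)
    (hred : ∀ a ∈ R i, ∃ q ∈ Algebra.adjoin k {t},
      NonUnit (localRing k X (j.left (genericPoint C.left))) (a - q))
    (f : C.left.functionField) :
    f ∈ Algebra.adjoin k {red j t} ↔ ∃ s : Γ(C.left, j.left ⁻¹ᵁ (U i)),
      (C.left.germToFunctionField (j.left ⁻¹ᵁ (U i))).hom s = f := by
  have := c.nonempty i
  have hle : R i ≤ localRing k X (j.left (genericPoint C.left)) := (c.mem_iff i _).1 hz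
  have htL := hle ht
  have hadj : Algebra.adjoin k {t} ≤ localRing k X (j.left (genericPoint C.left)) :=
    Algebra.adjoin_le (by simpa using htL)
  have hR : ∀ a ∈ R i, ∃ s : Γ(C.left, j.left ⁻¹ᵁ (U i)),
      (C.left.germToFunctionField (j.left ⁻¹ᵁ (U i))).hom s = red j a := by
    intro a ha
    obtain ⟨s, hs⟩ := (c.range i a).1 ha
    refine ⟨(j.left.app (U i)).hom s, ?_⟩
    rw [← A6K_germ j (U i) hz s]
    exact congrArg (red j) hs
  constructor
  · intro hf
    induction hf using Algebra.adjoin_induction with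
    | mem x hx =>
      rw [Set.mem_singleton_iff] at hx
      rw [hx]
      exact hR t ht
    | algebraMap r =>
      rw [← red_algebraMap j r]
      exact hR _ (Subalgebra.algebraMap_mem _ r)
    | add x y _ _ hx hy =>
      obtain ⟨a, rfl⟩ := hx
      obtain ⟨b, rfl⟩ := hy
      exact ⟨a + b, map_add _ _ _⟩
    | mul x y _ _ hx hy =>
      obtain ⟨a, rfl⟩ := hx
      obtain ⟨b, rfl⟩ := hy
      exact ⟨a * b, map_mul _ _ _⟩
  · rintro ⟨s, rfl⟩
    obtain ⟨s, rfl⟩ := Scheme.Hom.app_surjective j.left (U i) (c.affine i) s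
    have e := A6K_germ j (U i) hz s
    have ha : (X.left.germToFunctionField (U i)).hom s ∈ R i := (c.range i _).2 ⟨s, rfl⟩
    obtain ⟨q, hq, hn⟩ := hred _ ha
    have e2 : red j ((X.left.germToFunctionField (U i)).hom s) = red j q := by
      have h1 := (red_eq_zero_iff j (Subalgebra.sub_mem _ (hle ha) (hadj hq))).2 hn
      have h2 := red_add j (Subalgebra.sub_mem _ (hle ha) (hadj hq)) (hadj hq)
      rw [h1, zero_add, sub_add_cancel] at h2
      exact h2
    rw [Algebra.adjoin_singleton_eq_range_aeval] at hq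
    obtain ⟨P, hP⟩ := hq
    have hP : Polynomial.aeval t P = q := hP
    have e3 : (C.left.germToFunctionField (j.left ⁻¹ᵁ (U i))).hom ((j.left.app (U i)).hom s) =
        Polynomial.aeval (red j t) P := by
      rw [← e, e2, ← hP, red_aeval j htL]
    have e4 : Polynomial.aeval (red j t) P ∈ Algebra.adjoin k {red j t} :=
      Polynomial.aeval_mem_adjoin_singleton k _
    rw [← e3] at e4
    exact e4

/-- **A6k (M/L).** The curve `C` is covered by two affine charts. -/
theorem Line.p1Curve [IsClosedImmersion j.left] {ι : Type} [Finite ι] [Nonempty ι]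
    {U : ι → X.left.Opens} {R : ι → Subalgebra k X.left.functionField} (c : Charts X U R)
    {i₁ i₂ : ι} {θ : X.left.functionField} {z₀ : X.left}
    (hl : Line X (U i₁) (U i₂) (R i₁) (R i₂) z₀ θ) (hz : j.left (genericPoint C.left) = z₀) :
    P1Curve C ![j.left ⁻¹ᵁ (U i₁), j.left ⁻¹ᵁ (U i₂)] (red j θ) := by
  subst hz
  have h1 : genericPoint C.left ∈ j.left ⁻¹ᵁ (U i₁) := hl.mem₁
  have h2 : genericPoint C.left ∈ j.left ⁻¹ᵁ (U i₂) := hl.mem₂
  have n1 : Nonempty (j.left ⁻¹ᵁ (U i₁)) := ⟨⟨_, h1⟩⟩
  have n2 : Nonempty (j.left ⁻¹ᵁ (U i₂)) := ⟨⟨_, h2⟩⟩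
  have hθ : θ ∈ localRing k X (j.left (genericPoint C.left)) :=
    ((c.mem_iff i₁ _).1 hl.mem₁) hl.coord₁
  have hθi : θ⁻¹ ∈ localRing k X (j.left (genericPoint C.left)) :=
    ((c.mem_iff i₂ _).1 hl.mem₂) hl.coord₂
  have e : red j θ⁻¹ = (red j θ)⁻¹ := red_inv j hθ hθi
  refine ⟨⟨?_, ?_, ?_, ?_, ?_⟩, ?_⟩
  · have := c.separated
    have h3 : j.left ≫ X.hom = C.hom := Over.w j
    rw [← h3]
    infer_instance
  · intro i
    fin_cases i
    · exact (c.affine i₁).preimage j.left
    · exact (c.affine i₂).preimage j.left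
  · intro i
    fin_cases i
    · exact n1
    · exact n2
  · intro x
    rcases hl.cover (j.left x) (specializes_of_hom j x) with h | h
    · exact ⟨0, h⟩
    · exact ⟨1, h⟩
  · intro i f
    fin_cases i
    · exact A6K_range j c i₁ hl.mem₁ hl.coord₁ hl.red₁ f
    · have := A6K_range j c i₂ hl.mem₂ hl.coord₂ hl.red₂ f
      rw [e] at this
      exact this
  · rw [transcendental_iff]
    intro P hP
    by_contra hP0
    apply hl.unit P hP0
    have hadj : Algebra.adjoin k {θ} ≤ localRing k X (j.left (genericPoint C.left)) :=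
      Algebra.adjoin_le (by simpa using hθ)
    have hm : Polynomial.aeval θ P ∈ localRing k X (j.left (genericPoint C.left)) :=
      hadj (Polynomial.aeval_mem_adjoin_singleton k θ)
    rw [← red_eq_zero_iff j hm, red_aeval j hθ]
    exact hP

end H1F.AMP
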