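import Pool.Agent.Lib.H1F.AMP.A8D
import Pool.Agent.Lib.H1F.AMP.A6K

/-!
# H1F AMP, chunk A8H: a divisor of degree one
-/

open CategoryTheory CategoryTheory.Limits AlgebraicGeometry Order

universe u

namespace H1F.AMP

variable {k : Type u} [Field k] {C C' X : Over (Spec (CommRingCat.of k))} [IsIntegral C.left]
  [IsIntegral C'.left] [IsIntegral X.left] [IsLocallyNoetherian C.left]
  [IsLocallyNoetherian C'.left] [IsLocallyNoetherian X.left]

open Classical in
/-- **A8h (M).** A divisor of degree one. -/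
theorem degOn_one [IsAlgClosed k] (hX : Variety k X) (j : C ⟶ X) [IsClosedImmersion j.left]
    {ι : Type} [Finite ι] [Nonempty ι] {U : ι → X.left.Opens}
    {R : ι → Subalgebra k X.left.functionField} (c : Charts X U R)
    {i₁ i₂ : ι} {θ : X.left.functionField} {z₀ : X.left}
    (hl : Line X (U i₁) (U i₂) (R i₁) (R i₂) z₀ θ) (hz : j.left (genericPoint C.left) = z₀)
    {H : X.left → ℤ} {h₁ h₂ : X.left.functionField} (h10 : h₁ ≠ 0) (h12 : h₁ = θ * h₂)
    (hH₁ : ∀ z ∈ U i₁, coheight z = 1 → H z = Scheme.ord h₁ z)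
    (hH₂ : ∀ z ∈ U i₂, coheight z = 1 → H z = Scheme.ord h₂ z) : DegOn j.left H 1 := by
  subst hz
  have hC := hl.p1Curve j c rfl
  have hθ0 : θ ≠ 0 := by
    rintro rfl
    apply h10
    rw [h12, zero_mul]
  have h20 : h₂ ≠ 0 := by
    rintro rfl
    apply h10
    rw [h12, mul_zero]
  have hθ : θ ∈ localRing k X (j.left (genericPoint C.left)) :=
    ((c.mem_iff i₁ _).1 hl.mem₁) hl.coord₁
  have hθi : θ⁻¹ ∈ localRing k X (j.left (genericPoint C.left)) :=
    ((c.mem_iff i₂ _).1 hl.mem₂) hl.coord₂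
  let u : X.left → X.left.functionField := fun x ↦ if x ∈ U i₁ then 1 else θ⁻¹
  have hE : Eqs X (j.left (genericPoint C.left)) H h₁⁻¹ u := by
    refine ⟨inv_ne_zero h10, ?_, ?_⟩
    · intro x hx
      by_cases h : x ∈ U i₁
      · have e : u x = 1 := if_pos h
        rw [e]
        refine ⟨one_ne_zero, fun z hz hzx ↦ ?_⟩
        change Scheme.ord 1 z = H z + Scheme.ord h₁⁻¹ z
        rw [hH₁ z (hzx.mem_open (U i₁).isOpen h) hz, A2_ord_one, ord_inv, add_neg_cancel]
      · have e : u x = θ⁻¹ := if_neg h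
        have h2 : x ∈ U i₂ := (hl.cover x hx).resolve_left h
        rw [e]
        refine ⟨inv_ne_zero hθ0, fun z hz hzx ↦ ?_⟩
        change Scheme.ord θ⁻¹ z = H z + Scheme.ord h₁⁻¹ z
        rw [hH₂ z (hzx.mem_open (U i₂).isOpen h2) hz, ord_inv, ord_inv, h12,
          Scheme.ord_mul hθ0 h20]
        ring
    · intro x _
      by_cases h : x ∈ U i₁
      · have e : u x = 1 := if_pos h
        rw [e, inv_one]
        exact ⟨Subalgebra.one_mem _, Subalgebra.one_mem _⟩
      · have e : u x = θ⁻¹ := if_neg h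
        rw [e, inv_inv]
        exact ⟨hθi, hθ⟩
  rw [hE.degOn_iff hX j hC]
  obtain ⟨z, hz, _, _, _, huniq⟩ := hC.infinity
  rw [finsum_eq_single _ z]
  · have e : u (j.left z) = θ⁻¹ := if_neg hz
    have h3 := hC.ord_infinity 0 hz
    rw [map_zero, sub_zero] at h3
    rw [e, red_inv j hθ hθi, ord_inv, h3, neg_neg]
  · intro z' hz'
    have h4 : j.left z' ∈ U i₁ := by
      by_contra hcon
      exact hz' (huniq z' hcon)
    have e : u (j.left z') = 1 := if_pos h4
    rw [e, A6_red_one, A2_ord_one]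

end H1F.AMP
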