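import Pool.Agent.Lib.H1F.AMP.A7

/-!
# H1F AMP, chunk A7D: the dimension of the projective line
-/

open CategoryTheory CategoryTheory.Limits AlgebraicGeometry Order

universe u

namespace H1F.AMP

variable {k : Type u} [Field k] {C : Over (Spec (CommRingCat.of k))} [IsIntegral C.left]
  {U : Fin 2 → C.left.Opens} {t : C.left.functionField}

/-- The generic point has codimension zero. -/
theorem A7D_generic {Y : Scheme.{u}} [IsIntegral Y] : coheight (genericPoint Y) = 0 := by
  rw [Order.coheight_eq_zero]
  intro y _
  exact (genericPoint_spec Y).specializes trivial

theorem A7D_krull (Y : Scheme.{u}) : topologicalKrullDim Y = Order.krullDim Y := by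
  rw [topologicalKrullDim]
  exact Order.krullDim_eq_of_orderIso irreducibleSetEquivPoints

/-- **A7k (M).** The dimension is one.
Proof: `topologicalKrullDim` is the Krull dimension of the order of irreducible closed sets, which
is the order of points (`irreducibleSetEquivPoints`, specialization order; schemes are sober and
T0).  Every point `z ≠ ξ` has coheight one (A7c), there is such a point (A7g), so the Krull
dimension (supremum of the coheights, `Order.krullDim_eq_iSup_coheight`...) is one. -/
theorem P1Curve.dim (h : P1Curve C U t) : topologicalKrullDim C.left = 1 := by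
  rw [A7D_krull, Order.krullDim_eq_iSup_coheight]
  apply le_antisymm
  · refine iSup_le fun z ↦ ?_
    by_cases hz : z = genericPoint C.left
    · rw [hz, A7D_generic]
      exact zero_le_one
    · rw [(h.coheight_iff z).2 hz]
      exact le_rfl
  · obtain ⟨z, _, hz, _⟩ := h.infinity
    refine le_trans ?_ (le_iSup _ z)
    rw [(h.coheight_iff z).2 hz]
    exact le_rfl

end H1F.AMP
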