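import Pool.Agent.Lib.H1F.AMP.A0

/-!
# H1F AMP, chunk A7L: atlas of a scheme with charts
-/

open CategoryTheory CategoryTheory.Limits AlgebraicGeometry Order

universe u

namespace H1F.AMP

variable {k : Type u} [Field k]

/-- **A7l (M).** A scheme with charts is an atlas in its function field.
Proof: `U i` is affine with ring of functions isomorphic to `R i` (`c.range`,
`Scheme.germToFunctionField_injective`); `c i` is `Spec (R i) ≅ Spec Γ(X, U i) ⟶ X`
(`IsAffineOpen.fromSpec`).  `compat`: both compositions are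
`X.left.fromSpecStalk (genericPoint X.left)` (`IsAffineOpen.fromSpecStalk`...). -/
theorem exists_atlas_of_charts {X : Over (Spec (CommRingCat.of k))} [IsIntegral X.left] {ι : Type}
    [Finite ι] [Nonempty ι] {U : ι → X.left.Opens}
    {R : ι → Subalgebra k X.left.functionField} (c : Charts X U R) :
    ∃ a : Atlas R X, ∀ i, Set.range (a.c i) = U i := by
  have key : ∀ i, ∃ j : SpecS (R i) ⟶ X.left, IsOpenImmersion j ∧
      Set.range j = U i ∧ specGen (R i) ≫ j = A6_gen X := fun i ↦ by
    have hU := c.affine i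
    have hne := c.nonempty i
    obtain ⟨θ, hθ⟩ := A5_equiv c i
    let Θ : Γ(X.left, U i) ⟶ CommRingCat.of (R i) := CommRingCat.ofHom θ.toRingHom
    have hiso : IsIso (Spec.map Θ) := isIso_SpecMap_iff.2 θ.bijective
    have hg : genericPoint X.left ∈ U i := by
      obtain ⟨⟨x, hx⟩⟩ := hne
      exact ((genericPoint_spec X.left).specializes trivial).mem_open (U i).isOpen hx
    refine ⟨Spec.map Θ ≫ hU.fromSpec, inferInstance, ?_, ?_⟩
    · rw [← hU.range_fromSpec, Scheme.Hom.comp_base, TopCat.coe_comp, Set.range_comp]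
      have : Set.range (Spec.map Θ) = Set.univ := (Spec.map Θ).surjective.range_eq
      rw [this, Set.image_univ]
    · have h2 : Θ ≫ CommRingCat.ofHom (R i).val.toRingHom =
          X.left.presheaf.germ (U i) (genericPoint X.left) hg := by
        ext s
        exact hθ s
      rw [specGen, ← Category.assoc, ← Spec.map_comp, h2]
      exact hU.fromSpecStalk_eq_fromSpecStalk hg
  choose j hj1 hj2 hj3 using key
  refine ⟨⟨j, hj1, fun i ↦ ?_, fun x ↦ ?_, fun i i' ↦ by rw [hj3, hj3], c.separated⟩, hj2⟩
  · have h1 : A6_gen X ≫ X.hom =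
        Spec.map (CommRingCat.ofHom (algebraMap k X.left.functionField)) := by
      rw [A6_gen, A3_fromSpecStalk]
      rfl
    rw [← hj3 i, Category.assoc] at h1
    rw [← Spec.map_preimage (j i ≫ X.hom)] at h1 ⊢
    rw [specGen, ← Spec.map_comp] at h1
    have h2 := Spec.map_injective h1
    rw [specBase]
    congr 1
    ext c
    exact congrArg (fun q ↦ q.hom c) h2
  · obtain ⟨i, hi⟩ := c.cover x
    have h1 : x ∈ Set.range (j i) := by
      rw [hj2 i]
      exact hi
    obtain ⟨y, hy⟩ := h1
    exact ⟨i, y, hy⟩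

end H1F.AMP
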