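import Pool.Agent.Lib.H1F.AMP.A7
import Pool.Agent.Lib.H1F.AMP.A7L
import Pool.Agent.Lib.H1F.FLIP.F3

/-!
# H1F AMP, chunk A7P: the projective line is proper
-/

open CategoryTheory CategoryTheory.Limits AlgebraicGeometry Order

universe u

namespace H1F.AMP

variable {k : Type u} [Field k] {C : Over (Spec (CommRingCat.of k))} [IsIntegral C.left]
  {U : Fin 2 → C.left.Opens} {t : C.left.functionField}

theorem A7P_isIso (K : Type u) [Field K] [Algebra k K] :
    IsIso (specBase (⊥ : Subalgebra k K)) := by
  have hb : Function.Bijective (algebraMap k (⊥ : Subalgebra k K)) := by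
    refine ⟨(algebraMap k (⊥ : Subalgebra k K)).injective, ?_⟩
    rintro ⟨x, hx⟩
    obtain ⟨a, ha⟩ := Algebra.mem_bot.1 hx
    exact ⟨a, Subtype.ext ha⟩
  have : IsIso (CommRingCat.ofHom (algebraMap k (⊥ : Subalgebra k K))) := by
    rw [ConcreteCategory.isIso_iff_bijective]
    exact hb
  rw [specBase]
  infer_instance

/-- **A7m (M).** The projective line is proper. -/
theorem P1Curve.proper (h : P1Curve C U t) : IsProper C.hom := by
  obtain ⟨a, ha⟩ := exists_atlas_of_charts h.charts
  have hiso := A7P_isIso (k := k) C.left.functionField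
  let S : Unit → Subalgebra k C.left.functionField := fun _ ↦ ⊥
  let Y : Over (Spec (CommRingCat.of k)) :=
    Over.mk (specBase (⊥ : Subalgebra k C.left.functionField))
  have hiso' : IsIso Y.hom := hiso
  let b : Atlas S Y :=
    { c := fun _ ↦ 𝟙 _
      isOpen := fun _ ↦ inferInstance
      base := fun _ ↦ Category.id_comp _
      cover := fun x ↦ ⟨(), x, rfl⟩
      compat := fun _ _ ↦ rfl
      separated := by
        change IsSeparated Y.hom
        infer_instance }
  let f : C ⟶ Y := Over.homMk (C.hom ≫ inv Y.hom) (by simp)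
  have hf : IsProper f.left := by
    have ht0 : t ≠ 0 := by
      rintro rfl
      exact h.tr (isAlgebraic_zero)
    refine FLIP.isProper_of_two_charts a b f ?_ ?_ (fun _ _ ↦ True) ?_ ?_
    · intro i j hij
      change a.c i ≫ (C.hom ≫ inv Y.hom) = specIncl hij ≫ 𝟙 _
      rw [← Category.assoc, a.base, IsIso.comp_inv_eq, Category.comp_id]
      change _ = specIncl hij ≫ specBase (⊥ : Subalgebra k C.left.functionField)
      rw [specIncl, specBase, specBase, ← Spec.map_comp, ← CommRingCat.ofHom_comp]
      rfl
    · intro i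
      fin_cases i
      · exact Subalgebra.fg_def.2 ⟨{t}, Set.finite_singleton _, rfl⟩
      · exact Subalgebra.fg_def.2 ⟨{t⁻¹}, Set.finite_singleton _, rfl⟩
    · intro x _ _
      obtain ⟨i, y, hy⟩ := a.cover x
      exact ⟨i, trivial, y, hy⟩
    · intro i j _
      right
      fin_cases i
      · exact ⟨t, 1, ht0, trivial, (bot_sup_eq _).symm, (bot_sup_eq _).symm⟩
      · refine ⟨t⁻¹, 0, inv_ne_zero ht0, trivial, (bot_sup_eq _).symm, ?_⟩
        rw [inv_inv]
        exact (bot_sup_eq _).symm
  have e : C.hom = f.left ≫ Y.hom := (Over.w f).symm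
  rw [e]
  infer_instance

end H1F.AMP
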