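import Pool.Agent.Lib.H1F.AMP.A6K
import Pool.Agent.Lib.H1F.AMP.A7D
import Pool.Agent.Lib.H1F.AMP.A7P

/-!
# H1F AMP, chunk A9B: the contracted curve
-/

open CategoryTheory CategoryTheory.Limits AlgebraicGeometry Order

universe u

namespace H1F.AMP

variable {k : Type u} [Field k] {X Y : Over (Spec (CommRingCat.of k))} [IsIntegral X.left]

/-- **A9b (S/M).** The closure of `z₀` is a contracted curve. -/
theorem contractedCurve_of_line (f : X ⟶ Y) {C : Over (Spec (CommRingCat.of k))}
    [IsIntegral C.left] (j : C ⟶ X) [IsClosedImmersion j.left] {ι : Type} [Finite ι] [Nonempty ι]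
    {U : ι → X.left.Opens} {R : ι → Subalgebra k X.left.functionField} (c : Charts X U R)
    {i₁ i₂ : ι} {θ : X.left.functionField} {z₀ : X.left}
    (hl : Line X (U i₁) (U i₂) (R i₁) (R i₂) z₀ θ) (hz : j.left (genericPoint C.left) = z₀)
    (hf : ∀ x : X.left, z₀ ⤳ x → f.left x = f.left z₀) : ContractedCurve k f j.left := by
  have hC := hl.p1Curve j c hz
  refine ⟨inferInstance, inferInstance, ?_, hC.dim, f.left z₀, fun c ↦ ?_⟩
  · have h3 : j.left ≫ X.hom = C.hom := Over.w j
    rw [h3]
    exact hC.proper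
  · apply hf
    rw [← hz]
    exact specializes_of_hom j c

end H1F.AMP
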