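import Pool.Agent.Lib.H1F.AMP.A9A
import Pool.Agent.Lib.H1F.AMP.A9B
import Pool.Agent.Lib.H1F.AMP.A8F
import Pool.Agent.Lib.H1F.AMP.A8H

/-!
# H1F AMP, chunk A9C: the relative Picard number
-/

open CategoryTheory CategoryTheory.Limits AlgebraicGeometry Order

universe u

namespace H1F.AMP

variable {k : Type u} [Field k] {X Y : Over (Spec (CommRingCat.of k))} [IsIntegral X.left]

theorem A9C_red_zpow {C : Over (Spec (CommRingCat.of k))} [IsIntegral C.left] (j : C ⟶ X)
    {q : X.left.functionField} (hq : q ∈ localRing k X (j.left (genericPoint C.left)))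
    (hq' : q⁻¹ ∈ localRing k X (j.left (genericPoint C.left))) (n : ℤ) :
    red j (q ^ n) = red j q ^ n := by
  have hpow : ∀ {a : X.left.functionField} (_ : a ∈ localRing k X (j.left (genericPoint C.left)))
      (m : ℕ), red j (a ^ m) = red j a ^ m := by
    intro a ha m
    have := red_aeval j ha (Polynomial.X ^ m)
    simpa using this
  obtain ⟨m, rfl | rfl⟩ := n.eq_nat_or_neg
  · rw [zpow_natCast, zpow_natCast, hpow hq]
  · rw [zpow_neg, zpow_natCast, ← inv_pow, hpow hq', red_inv j hq hq', inv_pow, zpow_neg,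
      zpow_natCast]

theorem A9C_zpow_mem {L : Subalgebra k X.left.functionField} {q : X.left.functionField}
    (hq : q ∈ L) (hq' : q⁻¹ ∈ L) (n : ℤ) : q ^ n ∈ L := by
  obtain ⟨m, rfl | rfl⟩ := n.eq_nat_or_neg
  · rw [zpow_natCast]
    exact Subalgebra.pow_mem _ hq m
  · rw [zpow_neg, zpow_natCast, ← inv_pow]
    exact Subalgebra.pow_mem _ hq' m

/-- **A9c (M).** The relative Picard number is one. -/
theorem relPicardOne_of_line [IsAlgClosed k] [IsLocallyNoetherian X.left] (f : X ⟶ Y)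
    (hX : Variety k X) {ι : Type} [Finite ι] [Nonempty ι]
    {U : ι → X.left.Opens} {R : ι → Subalgebra k X.left.functionField} (c : Charts X U R)
    {i₁ i₂ : ι} {θ : X.left.functionField} {z₀ : X.left}
    (hl : Line X (U i₁) (U i₂) (R i₁) (R i₂) z₀ θ)
    (hf : ∀ x : X.left, z₀ ⤳ x → f.left x = f.left z₀)
    (hgen : ∀ (C : Scheme.{u}) (_ : IsIntegral C) (i : C ⟶ X.left),
      ContractedCurve k f i → i (genericPoint C) = z₀)
    {H : X.left → ℤ} (hH : IsCartier H) {h₁ h₂ : X.left.functionField} (h10 : h₁ ≠ 0)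
    (h12 : h₁ = θ * h₂)
    (hH₁ : ∀ z ∈ U i₁, coheight z = 1 → H z = Scheme.ord h₁ z)
    (hH₂ : ∀ z ∈ U i₂, coheight z = 1 → H z = Scheme.ord h₂ z) : RelPicardOne k f := by
  obtain ⟨C₀, hint, j₀, hcl, hj₀⟩ := exists_curve hX z₀
  have hC₀ := hl.p1Curve j₀ c hj₀
  have hn₀ := hC₀.isLocallyNoetherian
  have hcc₀ := contractedCurve_of_line f j₀ c hl hj₀ hf
  have hdeg₀ : DegOn j₀.left H 1 := degOn_one hX j₀ c hl hj₀ h10 h12 hH₁ hH₂
  refine ⟨H, hH, ?_, ?_⟩
  · intro h
    exact one_ne_zero (h C₀.left hint hn₀ j₀.left hcc₀ 1 hdeg₀)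
  intro D hD
  subst hj₀
  obtain ⟨g, u, hE⟩ := exists_eqs hX hD (j₀.left (genericPoint C₀.left))
  obtain ⟨g', u', hE'⟩ := exists_eqs hX hH (j₀.left (genericPoint C₀.left))
  have h1 := (hE'.degOn_iff hX j₀ hC₀ 1).1 hdeg₀
  refine ⟨1, ∑ᶠ c : C₀.left, Scheme.ord (red j₀ (u (j₀.left c))) c, one_ne_zero, ?_⟩
  set b := ∑ᶠ c : C₀.left, Scheme.ord (red j₀ (u (j₀.left c))) c with hb
  intro C hCi hCn i hcc n hn
  have hi := hgen C hCi i hcc
  let C' : Over (Spec (CommRingCat.of k)) := Over.mk (i ≫ X.hom)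
  let j : C' ⟶ X := Over.homMk i
  have hCi' : IsIntegral C'.left := hCi
  have hCn' : IsLocallyNoetherian C'.left := hCn
  have hcl' : IsClosedImmersion j.left := hcc.closed
  have hj : j.left (genericPoint C'.left) = j₀.left (genericPoint C₀.left) := hi
  have hC' := hl.p1Curve j c hj
  have hEj : Eqs X (j.left (genericPoint C'.left)) D g u := by rw [hj]; exact hE
  have hEj' : Eqs X (j.left (genericPoint C'.left)) H g' u' := by rw [hj]; exact hE'
  have hcomb := hEj.comb hEj' 1 (-b)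
  have hfun : (fun z ↦ 1 * D z - b * H z) = fun z ↦ 1 * D z + -b * H z := by
    funext z
    ring
  rw [hfun] at hn
  have hn' : DegOn j.left (fun z ↦ 1 * D z + -b * H z) n := hn
  have h2 := (hcomb.degOn_iff hX j hC' n).1 hn'
  have hF := hEj.finite hX j hC' hD
  have hG := hEj'.finite hX j hC' hH
  have key : ∀ c : C'.left,
      Scheme.ord (red j (u (j.left c) ^ (1 : ℤ) * u' (j.left c) ^ (-b))) c =
        Scheme.ord (red j (u (j.left c))) c + -b * Scheme.ord (red j (u' (j.left c))) c := by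
    intro c
    have h3 := hEj.unit _ (specializes_of_hom j c)
    have h4 := hEj'.unit _ (specializes_of_hom j c)
    have h5 := (hEj.eq _ (specializes_of_hom j c)).1
    have h6 := (hEj'.eq _ (specializes_of_hom j c)).1
    have h7 : red j (u (j.left c)) ≠ 0 := fun h ↦
      A8D_ne_zero h5 h3.2 ((red_eq_zero_iff j h3.1).1 h)
    have h8 : red j (u' (j.left c)) ≠ 0 := fun h ↦
      A8D_ne_zero h6 h4.2 ((red_eq_zero_iff j h4.1).1 h)
    rw [red_mul j (A9C_zpow_mem h3.1 h3.2 1) (A9C_zpow_mem h4.1 h4.2 (-b)),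
      A9C_red_zpow j h3.1 h3.2, A9C_red_zpow j h4.1 h4.2,
      Scheme.ord_mul (zpow_ne_zero _ h7) (zpow_ne_zero _ h8), ord_zpow, ord_zpow, one_mul]
  rw [h2, finsum_congr key, finsum_add_distrib hF (hG.subset ?_), ← mul_finsum _ (-b),
    finsum_red_eq j j₀ hC' hC₀ hj (fun x hx ↦ hEj.unit x hx),
    finsum_red_eq j j₀ hC' hC₀ hj (fun x hx ↦ hEj'.unit x hx), ← hb, ← h1]
  · ring
  · intro c hc
    rw [Function.mem_support] at hc ⊢
    intro h0
    apply hc
    rw [h0, mul_zero]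

end H1F.AMP
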