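import Pool.Agent.Lib.H1F.AMP.A3
import Pool.Agent.Lib.H1F.AMP.A9C
import Pool.Agent.Lib.H1F.AMP.A10D
import Pool.Agent.Lib.H1F.AMP.A10E
import Pool.Agent.Lib.H1F.AMP.A10F
import Pool.Agent.Lib.H1F.AMP.A10G
import Pool.Agent.Lib.H1F.AMP.A11
import Pool.Agent.Lib.H1F.MO.M14
import Pool.Agent.Lib.H1F.MO.M12

/-!
# H1F AMP, A12: assembly

`X`, `Y`, `X'` are given by charts in the function field (`Charts`), `FiberData` describes the
morphisms to `Y` (`fiberData_of_locData` in A11).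
-/

open CategoryTheory CategoryTheory.Limits AlgebraicGeometry Order MvPolynomial

universe u

namespace H1F.AMP

section Algebra

variable {k K : Type*} [Field k] [Field K] [Algebra k K] {p : ℕ} [Fact p.Prime] [CharP k p]
  {A v w : K}

/-- **A12a (S).** From `fn_ne_zero` (M11). -/
theorem gen_of_ind (hp : 5 ≤ p) (h : AlgebraicIndependent k ![A, v, w]) : FLIP.Gen A v w := by
  have hN := fn_ne_zero (k := k) p hp h
  refine ⟨hN 0, hN 1, hN 2, ?_, ?_, ?_, ?_⟩
  · exact sub_ne_zero.1 (hN 3)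
  · exact sub_ne_zero.1 (hN 4)
  · exact sub_ne_zero.1 (hN 5)
  · exact sub_ne_zero.1 (hN 6)

/-- **A12b (S).** `y ≠ 0`: otherwise `A - 1 = (v-1)^(p-1) (w-1)`, a relation between `A`, `v`, `w`
(evaluate the polynomial `X 0 - 1 - (X 1 - 1)^(p-1) (X 2 - 1)` at `(2, 1, 1)`, or compare
coefficients, to see that it is not zero). -/
theorem yy_ne_zero (hp : 5 ≤ p) (h : AlgebraicIndependent k ![A, v, w]) : yy p A v w ≠ 0 := by
  have hN := fn_ne_zero (k := k) p hp h
  have h3 : v - 1 ≠ 0 := hN 3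
  have h4 : w - 1 ≠ 0 := hN 4
  have h5 : v - w ≠ 0 := hN 5
  unfold yy
  refine div_ne_zero ?_ (mul_ne_zero (mul_ne_zero h3 h4) h5)
  intro h0
  have h1 : aeval ![A, v, w] ((X 0 : MvPolynomial (Fin 3) k) - 1 -
      (X 1 - 1) ^ (p - 1) * (X 2 - 1)) = 0 := by
    simpa using h0
  have h2 := (map_eq_zero_iff (aeval ![A, v, w] : MvPolynomial (Fin 3) k →ₐ[k] K) h).1 h1
  have h6 := congrArg (MvPolynomial.eval (![0, 1, 1] : Fin 3 → k)) h2
  have h7 : p - 1 ≠ 0 := by omega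
  simp [h7] at h6

/-- **A12c (S).** The chart `P1` (M14). -/
theorem frData_P1 (hp : 5 ≤ p) (h : AlgebraicIndependent k ![A, v, w]) :
    FrData k (ring k p A v w .P1) ![(w - 1) / (v - 1), v - 1, -((v - 1) ^ 2 * yy p A v w)] := by
  have := charP_of_algebra k K p
  have hN := fn_ne_zero (k := k) p hp h
  have hy := (yy_eq p hN).2.2
  have hc : coo p A v w .P1 = ![(w - 1) / (v - 1), v - 1, -((v - 1) ^ 2 * yy p A v w)] := by
    rw [← hy]
    rfl
  rw [← hc]
  refine ⟨coo_ind p hp h .P1 (by simp) (by simp), cden k p .P1, ?_, ?_⟩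
  · rw [ring_eq_FrR p hp hN .P1 trivial, FrR, Fr]
    congr 4
  · simp [cden]

/-- **A12d (S).** The chart `P2` (M14). -/
theorem frData_P2 (hp : 5 ≤ p) (h : AlgebraicIndependent k ![A, v, w]) :
    FrData k (ring k p A v w .P2) ![(v - 1) / (w - 1), w - 1, (w - 1) ^ 2 * yy p A v w] := by
  have := charP_of_algebra k K p
  have hN := fn_ne_zero (k := k) p hp h
  have hy := (yy_eq p hN).2.1
  have hc : coo p A v w .P2 = ![(v - 1) / (w - 1), w - 1, (w - 1) ^ 2 * yy p A v w] := by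
    rw [← hy]
    rfl
  rw [← hc]
  refine ⟨coo_ind p hp h .P2 (by simp) (by simp), cden k p .P2, ?_, ?_⟩
  · rw [ring_eq_FrR p hp hN .P2 trivial, FrR, Fr]
    congr 4
  · simp [cden]

end Algebra

variable {k : Type u} [Field k] {X Y : Over (Spec (CommRingCat.of k))} [IsIntegral X.left]
  [IsLocallyNoetherian X.left] {p : ℕ} [Fact p.Prime] [CharP k p]
  {A v w : X.left.functionField}

/-- `X` is quasi-projective; the divisor has the local equation `(s c)⁻¹` on the chart `c`. -/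
theorem quasiProjective_X {U : {c : Ch // c.inX} → X.left.Opens} (hX : Variety k X)
    (c : Charts X U (fun c ↦ ring k p A v w c.1)) (hp : 5 ≤ p)
    (h : AlgebraicIndependent k ![A, v, w]) :
    ∃ D : X.left → ℤ, Ample X.hom D ∧ ∀ (c : {c : Ch // c.inX}) z, z ∈ U c → coheight z = 1 →
      D z = Scheme.ord (mono p A v w (es p c.1))⁻¹ z := by
  have hN := fn_ne_zero (k := k) p hp h
  refine exists_ample hX c (fun c ↦ mono p A v w (es p c.1)) (fun c ↦ mono_ne_zero hN _) ?_ ?_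
  · intro i j
    rw [← mono_sub hN]
    exact section_mem p hp hN i.1 j.1 i.2 j.2
  · intro i j
    rw [← mono_sub hN]
    exact sup_eq p hp hN i.1 j.1 i.2 j.2

/-- `Y` is quasi-projective. -/
theorem quasiProjective_Y {U : {c : Ch // c.inY} → X.left.Opens} (hX : Variety k X)
    (c : Charts X U (fun c ↦ ring k p A v w c.1)) (hp : 5 ≤ p)
    (h : AlgebraicIndependent k ![A, v, w]) : ∃ D : X.left → ℤ, Ample X.hom D := by
  have hN := fn_ne_zero (k := k) p hp h
  obtain ⟨D, hD, _⟩ := exists_ample hX c (fun c ↦ mono p A v w (es p c.1))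
    (fun c ↦ mono_ne_zero hN _)
    (fun i j ↦ by
      rw [← mono_sub hN]
      exact (section_mem_Y p hp h i.1 j.1 i.2 j.2).1)
    (fun i j ↦ by
      rw [← mono_sub hN]
      exact (section_mem_Y p hp h i.1 j.1 i.2 j.2).2)
  exact ⟨D, hD⟩

/-- The relative Picard number of `f : X ⟶ Y` is one. -/
theorem picard [IsAlgClosed k] {U : {c : Ch // c.inX} → X.left.Opens} (hX : Variety k X)
    (c : Charts X U (fun c ↦ ring k p A v w c.1)) (hp : 5 ≤ p)
    (h : AlgebraicIndependent k ![A, v, w]) (f : X ⟶ Y)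
    {V : {c : Ch // c.inY} → Y.left.Opens}
    (hf : FiberData f V (fun c ↦ ring k p A v w c.1)) : RelPicardOne k f := by
  have hN := fn_ne_zero (k := k) p hp h
  have hg := gen_of_ind (k := k) hp h
  have hy := yy_ne_zero (k := k) hp h
  obtain ⟨z₀, hl, hz1, hz2, hz3, hi1⟩ := exists_line c hg (frData_P1 hp h)
  have hz0 : (v - 1) / (w - 1) ∈ localRing k X z₀ := by
    have : ring k p A v w .P2 ≤ localRing k X z₀ := (c.mem_iff ⟨.P2, trivial⟩ z₀).1 hl.mem₂
    exact this (Algebra.subset_adjoin (by simp))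
  have hz0' : (w - 1) / (v - 1) ∈ localRing k X z₀ := by
    have : ring k p A v w .P1 ≤ localRing k X z₀ := (c.mem_iff ⟨.P1, trivial⟩ z₀).1 hl.mem₁
    exact this (Algebra.subset_adjoin (by simp))
  have hz4 : NonUnit (localRing k X z₀) ((w - 1) ^ 2 * yy p A v w) := by
    have e : (w - 1) ^ 2 * yy p A v w =
        (v - 1) ^ 2 * yy p A v w * ((w - 1) / (v - 1)) ^ 2 := by
      have : v - 1 ≠ 0 := hN 3
      field_simp
    rw [e]
    exact nonUnit_mul (Subalgebra.pow_mem _ hz0' 2) hz3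
  have hi2 := Line.ideal_P2 c hg (frData_P2 hp h) hl hz2 hz4
  obtain ⟨H, hH, hH'⟩ := quasiProjective_X hX c hp h
  have e1 : mono p A v w (es p .P1) = (v - 1) ^ 2 * (w - 1) * (v - w) := by
    simp [mono, es, fn, Fin.prod_univ_succ]
    ring
  have e2 : mono p A v w (es p .P2) = (v - 1) * (w - 1) ^ 2 * (v - w) := by
    simp [mono, es, fn, Fin.prod_univ_succ]
    ring
  refine relPicardOne_of_line f hX c hl (map_eq_of_line c hg f hf hl hz1 hz3)
    (fun C hC i hCi ↦ genericPoint_eq_of_contracted c hg hy f hf hl hi1 hi2 C hC i hCi) hH.1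
    (h₁ := (mono p A v w (es p .P1))⁻¹) (h₂ := (mono p A v w (es p .P2))⁻¹)
    (inv_ne_zero (mono_ne_zero hN _)) ?_ (fun z hz hz1 ↦ hH' ⟨.P1, trivial⟩ z hz hz1)
    (fun z hz hz1 ↦ hH' ⟨.P2, trivial⟩ z hz hz1)
  rw [e1, e2]
  have h3 : v - 1 ≠ 0 := hN 3
  have h4 : w - 1 ≠ 0 := hN 4
  have h5 : v - w ≠ 0 := hN 5
  field_simp

/-- A divisor with prescribed local equations. -/
theorem exists_divisor {X : Over (Spec (CommRingCat.of k))} [IsIntegral X.left]
    [IsLocallyNoetherian X.left] {ι : Type} [Finite ι] [Nonempty ι] {U : ι → X.left.Opens}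
    {R : ι → Subalgebra k X.left.functionField} (c : Charts X U R)
    (d : ι → X.left.functionField) (E : X.left → ℚ)
    (hE : ∀ i z, z ∈ U i → coheight z = 1 → (Scheme.ord (d i) z : ℚ) = E z) :
    ∃ D : X.left → ℤ, (∀ z, coheight z = 1 → (D z : ℚ) = E z) ∧
      ∀ i z, z ∈ U i → coheight z = 1 → D z = Scheme.ord (d i) z := by
  choose i hi using c.cover
  refine ⟨fun z ↦ Scheme.ord (d (i z)) z, fun z hz ↦ hE (i z) z (hi z) hz, ?_⟩
  intro j z hz hz1
  have e1 := hE (i z) z (hi z) hz1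
  have e2 := hE j z hz hz1
  exact_mod_cast e1.trans e2.symm

/-- `-(K + Δ)` is `f`-ample. -/
theorem negative {U : {c : Ch // c.inX} → X.left.Opens} (hX : Variety k X)
    (c : Charts X U (fun c ↦ ring k p A v w c.1)) (h : FLIP.Gen A v w) (f : X ⟶ Y)
    {V : {c : Ch // c.inY} → Y.left.Opens}
    (hf : FiberData f V (fun c ↦ ring k p A v w c.1)) (KX : X.left → ℤ) (Δ : X.left → ℚ)
    (d : Ch → X.left.functionField) (hd0 : ∀ c, d c ≠ 0)
    (hD : ∀ (c : {c : Ch // c.inX}) (z : X.left), z ∈ U c → coheight z = 1 →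
      (Scheme.ord (d c.1) z : ℚ) = 10 * (KX z + Δ z))
    (h12 : d .P1 = (v - 1) / (w - 1) * d .P2) : AmpleQ f.left (fun z ↦ -(KX z + Δ z)) := by
  obtain ⟨D, hD1, hD2⟩ := exists_divisor c (fun c ↦ d c.1) (fun z ↦ 10 * (KX z + Δ z)) hD
  refine ⟨10, fun z ↦ - D z, by norm_num, ?_, ample_negative hX c h f hf D d hd0 hD2 h12⟩
  intro z hz
  push_cast
  rw [hD1 z hz]
  ring

/-- `K' + Δ'` is `f'`-ample (the scheme `X` is `X'` here). -/
theorem positive {U : {c : Ch // c.inX'} → X.left.Opens} (hX : Variety k X)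
    (c : Charts X U (fun c ↦ ring k p A v w c.1)) (h : FLIP.Gen A v w) (hy : yy p A v w ≠ 0)
    (f : X ⟶ Y) {V : {c : Ch // c.inY} → Y.left.Opens}
    (hf : FiberData f V (fun c ↦ ring k p A v w c.1)) (KX : X.left → ℤ) (Δ : X.left → ℚ)
    (d : Ch → X.left.functionField) (hd0 : ∀ c, d c ≠ 0)
    (hD : ∀ (c : {c : Ch // c.inX'}) (z : X.left), z ∈ U c → coheight z = 1 →
      (Scheme.ord (d c.1) z : ℚ) = 20 * (KX z + Δ z))
    (h34 : d .P4 = d .P3 / yy p A v w) : AmpleQ f.left (fun z ↦ KX z + Δ z) := by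
  obtain ⟨D, hD1, hD2⟩ := exists_divisor c (fun c ↦ d c.1) (fun z ↦ 20 * (KX z + Δ z)) hD
  refine ⟨20, D, by norm_num, ?_, ample_positive hX c h hy f hf D d hd0 hD2 h34⟩
  intro z hz
  rw [hD1 z hz]
  norm_num

end H1F.AMP
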