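import Pool.Agent.Lib.H1F.AMP.A12
import Pool.Agent.Lib.H1F.FLIP.F16
import Pool.Agent.Lib.H1F.KLT.KDefs

/-!
# H1F AMP, A13: the results in terms of atlases over an abstract field `K`
-/

open CategoryTheory CategoryTheory.Limits AlgebraicGeometry Order MvPolynomial

universe u

namespace H1F.AMP

variable {k : Type u} [Field k] {K : Type u} [Field K] [Algebra k K] {p : ℕ} [Fact p.Prime]
  [CharP k p] {A v w : K}

theorem charts_ring {P : Ch → Prop} [Finite {c : Ch // P c}] [Nonempty {c : Ch // P c}]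
    {X : Over (Spec (CommRingCat.of k))} [IsIntegral X.left]
    (a : Atlas (fun c : {c : Ch // P c} ↦ ring k p A v w c.1) X)
    (hR : ∀ c : {c : Ch // P c}, IsFractionRing (ring k p A v w c.1) K)
    {e : X.left.functionField ≃ₐ[k] K} (he : a.IsFF e) :
    Charts X (fun i ↦ (a.c i).opensRange (H := a.isOpen i))
      (fun i ↦ ring k p (e.symm A) (e.symm v) (e.symm w) i.1) := by
  have h := a.charts hR he
  have e1 : (fun i : {c : Ch // P c} ↦ (ring k p A v w i.1).comap e.toAlgHom) =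
      fun i ↦ ring k p (e.symm A) (e.symm v) (e.symm w) i.1 := by
    funext i
    exact ring_comap e p A v w i.1
  rw [e1] at h
  exact h

theorem ind_symm {F : Type u} [Field F] [Algebra k F] (e : F ≃ₐ[k] K)
    (h : AlgebraicIndependent k ![A, v, w]) :
    AlgebraicIndependent k ![e.symm A, e.symm v, e.symm w] := by
  have h1 := h.map' (f := e.symm.toAlgHom) e.symm.injective
  have e1 : (e.symm.toAlgHom ∘ ![A, v, w]) = ![e.symm A, e.symm v, e.symm w] := by
    ext i
    fin_cases i <;> rfl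
  rw [e1] at h1
  exact h1

theorem yy_symm {F : Type u} [Field F] [Algebra k F] (e : F ≃ₐ[k] K) :
    yy p (e.symm A) (e.symm v) (e.symm w) = e.symm (yy p A v w) := by
  simp [yy]

section

variable {X Y : Over (Spec (CommRingCat.of k))} [IsIntegral X.left]

theorem fiberData_ring {P : Ch → Prop} [Finite {c : Ch // P c}] [Nonempty {c : Ch // P c}]
    (a : Atlas (fun c : {c : Ch // P c} ↦ ring k p A v w c.1) X)
    (hR : ∀ c : {c : Ch // P c}, IsFractionRing (ring k p A v w c.1) K)
    {e : X.left.functionField ≃ₐ[k] K} (he : a.IsFF e)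
    (b : Atlas (fun c : {c : Ch // c.inY} ↦ ring k p A v w c.1) Y)
    {M : Y.left → Subalgebra k K} (hM : FLIP.LocData b M) (f : X ⟶ Y)
    (hf : ∀ (i : {c : Ch // P c}) (j : {c : Ch // c.inY})
      (hij : ring k p A v w j.1 ≤ ring k p A v w i.1),
      a.c i ≫ f.left = specIncl hij ≫ b.c j)
    (hs : ∀ i : {c : Ch // P c}, ∃ j : {c : Ch // c.inY},
      ring k p A v w j.1 ≤ ring k p A v w i.1) :
    FiberData f (fun j ↦ (b.c j).opensRange (H := b.isOpen j))
      (fun c ↦ ring k p (e.symm A) (e.symm v) (e.symm w) c.1) := by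
  have h := fiberData_of_locData a b e (FLIP.locData_of_isFF a hR he) hM f hf hs
  have e1 : (fun i : {c : Ch // c.inY} ↦ (ring k p A v w i.1).comap e.toAlgHom) =
      fun i ↦ ring k p (e.symm A) (e.symm v) (e.symm w) i.1 := by
    funext i
    exact ring_comap e p A v w i.1
  rw [e1] at h
  exact h

variable [IsLocallyNoetherian X.left]

/-- `X` is quasi-projective. -/
theorem quasiProjective_X_K (hX : Variety k X)
    (a : Atlas (fun c : {c : Ch // c.inX} ↦ ring k p A v w c.1) X)
    (hR : ∀ c : {c : Ch // c.inX}, IsFractionRing (ring k p A v w c.1) K)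
    {e : X.left.functionField ≃ₐ[k] K} (he : a.IsFF e) (hp : 5 ≤ p)
    (h : AlgebraicIndependent k ![A, v, w]) : ∃ D : X.left → ℤ, Ample X.hom D := by
  obtain ⟨D, hD, _⟩ := quasiProjective_X hX (charts_ring a hR he) hp (ind_symm e h)
  exact ⟨D, hD⟩

/-- `Y` is quasi-projective (the scheme `X` is `Y` here). -/
theorem quasiProjective_Y_K (hX : Variety k X)
    (a : Atlas (fun c : {c : Ch // c.inY} ↦ ring k p A v w c.1) X)
    (hR : ∀ c : {c : Ch // c.inY}, IsFractionRing (ring k p A v w c.1) K)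
    {e : X.left.functionField ≃ₐ[k] K} (he : a.IsFF e) (hp : 5 ≤ p)
    (h : AlgebraicIndependent k ![A, v, w]) : ∃ D : X.left → ℤ, Ample X.hom D :=
  quasiProjective_Y hX (charts_ring a hR he) hp (ind_symm e h)

/-- The relative Picard number is one. -/
theorem picard_K [IsAlgClosed k] (hX : Variety k X)
    (a : Atlas (fun c : {c : Ch // c.inX} ↦ ring k p A v w c.1) X)
    (hR : ∀ c : {c : Ch // c.inX}, IsFractionRing (ring k p A v w c.1) K)
    {e : X.left.functionField ≃ₐ[k] K} (he : a.IsFF e) (hp : 5 ≤ p)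
    (h : AlgebraicIndependent k ![A, v, w])
    (b : Atlas (fun c : {c : Ch // c.inY} ↦ ring k p A v w c.1) Y)
    {M : Y.left → Subalgebra k K} (hM : FLIP.LocData b M) (f : X ⟶ Y)
    (hf : ∀ (i : {c : Ch // c.inX}) (j : {c : Ch // c.inY})
      (hij : ring k p A v w j.1 ≤ ring k p A v w i.1),
      a.c i ≫ f.left = specIncl hij ≫ b.c j) : RelPicardOne k f := by
  have hK := charP_of_algebra k K p
  exact picard hX (charts_ring a hR he) hp (ind_symm e h) f
    (fiberData_ring a hR he b hM f hf (FLIP.hs_X (gen_of_ind (k := k) hp h)))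

/-- `-(K + Δ)` is `f`-ample. -/
theorem negative_K (hX : Variety k X)
    (a : Atlas (fun c : {c : Ch // c.inX} ↦ ring k p A v w c.1) X)
    (hR : ∀ c : {c : Ch // c.inX}, IsFractionRing (ring k p A v w c.1) K)
    {e : X.left.functionField ≃ₐ[k] K} (he : a.IsFF e) (hp : 5 ≤ p)
    (h : AlgebraicIndependent k ![A, v, w])
    (b : Atlas (fun c : {c : Ch // c.inY} ↦ ring k p A v w c.1) Y)
    {M : Y.left → Subalgebra k K} (hM : FLIP.LocData b M) (f : X ⟶ Y)
    (hf : ∀ (i : {c : Ch // c.inX}) (j : {c : Ch // c.inY})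
      (hij : ring k p A v w j.1 ≤ ring k p A v w i.1),
      a.c i ≫ f.left = specIncl hij ≫ b.c j)
    (KX : X.left → ℤ) (Δ : X.left → ℚ) (hd0 : ∀ c, dd p A v w c ≠ 0)
    (hD : ∀ (i : {c : Ch // c.inX}) (z : X.left), z ∈ Set.range (a.c i) → coheight z = 1 →
        (Scheme.ord (e.symm (dd p A v w i)) z : ℚ) = 10 * (KX z + Δ z)) :
    AmpleQ f.left (fun z ↦ -(KX z + Δ z)) := by
  have hK := charP_of_algebra k K p
  have hg := gen_of_ind (k := k) hp h
  have h1 : v - 1 ≠ 0 := sub_ne_zero.2 hg.v1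
  have h2 : w - 1 ≠ 0 := sub_ne_zero.2 hg.w1
  have h3 : v - w ≠ 0 := sub_ne_zero.2 hg.vw
  refine negative hX (charts_ring a hR he) (gen_of_ind (k := k) hp (ind_symm e h)) f
    (fiberData_ring a hR he b hM f hf (FLIP.hs_X hg)) KX Δ (fun c ↦ e.symm (dd p A v w c)) ?_ hD ?_
  · intro c h0
    exact hd0 c ((map_eq_zero e.symm).1 h0)
  · have e1 : dd p A v w .P1 = (v - 1) / (w - 1) * dd p A v w .P2 := by
      simp only [dd, JJ, FF, RR]
      field_simp
    change e.symm (dd p A v w .P1) = (e.symm v - 1) / (e.symm w - 1) * e.symm (dd p A v w .P2)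
    rw [e1, map_mul, map_div₀, map_sub, map_sub, map_one]

/-- `K' + Δ'` is `f'`-ample (the scheme `X` is `X'` here). -/
theorem positive_K (hX : Variety k X)
    (a : Atlas (fun c : {c : Ch // c.inX'} ↦ ring k p A v w c.1) X)
    (hR : ∀ c : {c : Ch // c.inX'}, IsFractionRing (ring k p A v w c.1) K)
    {e : X.left.functionField ≃ₐ[k] K} (he : a.IsFF e) (hp : 5 ≤ p)
    (h : AlgebraicIndependent k ![A, v, w])
    (b : Atlas (fun c : {c : Ch // c.inY} ↦ ring k p A v w c.1) Y)
    {M : Y.left → Subalgebra k K} (hM : FLIP.LocData b M) (f : X ⟶ Y)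
    (hf : ∀ (i : {c : Ch // c.inX'}) (j : {c : Ch // c.inY})
      (hij : ring k p A v w j.1 ≤ ring k p A v w i.1),
      a.c i ≫ f.left = specIncl hij ≫ b.c j)
    (KX : X.left → ℤ) (Δ : X.left → ℚ) (hd0 : ∀ c, dd' p A v w c ≠ 0)
    (hD : ∀ (i : {c : Ch // c.inX'}) (z : X.left), z ∈ Set.range (a.c i) → coheight z = 1 →
        (Scheme.ord (e.symm (dd' p A v w i)) z : ℚ) = 20 * (KX z + Δ z)) :
    AmpleQ f.left (fun z ↦ KX z + Δ z) := by
  have hK := charP_of_algebra k K p
  have hg := gen_of_ind (k := k) hp h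
  have hy : yy p (e.symm A) (e.symm v) (e.symm w) ≠ 0 :=
    yy_ne_zero (k := k) hp (ind_symm e h)
  refine positive hX (charts_ring a hR he) (gen_of_ind (k := k) hp (ind_symm e h)) hy f
    (fiberData_ring a hR he b hM f hf (FLIP.hs_X' hg)) KX Δ (fun c ↦ e.symm (dd' p A v w c)) ?_ hD
    ?_
  · intro c h0
    exact hd0 c ((map_eq_zero e.symm).1 h0)
  · change e.symm (dd' p A v w .P4) = e.symm (dd' p A v w .P3) /
      yy p (e.symm A) (e.symm v) (e.symm w)
    rw [yy_symm, ← map_div₀]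
    rfl

end

end H1F.AMP
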