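import Pool.Agent.Lib.H1F.AMP.A1

/-!
# H1F AMP, chunk A2: elementary facts on orders of vanishing
-/

open CategoryTheory CategoryTheory.Limits AlgebraicGeometry Order

universe u

namespace H1F.AMP

variable {k : Type u} [Field k] {X : Over (Spec (CommRingCat.of k))} [IsIntegral X.left]
  [IsLocallyNoetherian X.left]

theorem A2_ord_one (z : X.left) : Scheme.ord (1 : X.left.functionField) z = 0 := by
  have h := Scheme.ord_mul (x := z) (f := (1 : X.left.functionField))
    (g := (1 : X.left.functionField)) one_ne_zero one_ne_zero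
  rw [mul_one] at h
  linarith

/-- **A2b (S).** -/
theorem ord_inv {q : X.left.functionField} (z : X.left) :
    Scheme.ord q⁻¹ z = - Scheme.ord q z := by
  by_cases hq : q = 0
  · simp [hq]
  have h := Scheme.ord_mul (x := z) hq (inv_ne_zero hq)
  rw [mul_inv_cancel₀ hq, A2_ord_one] at h
  linarith

/-- **A2a (S).** A unit of the local ring has order zero. -/
theorem ord_eq_zero_of_unit (hX : Variety k X) {z : X.left} {q : X.left.functionField}
    (h : q ∈ localRing k X z) (h' : q⁻¹ ∈ localRing k X z) : Scheme.ord q z = 0 := by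
  by_cases hq : q = 0
  · simp [hq]
  by_cases hz : coheight z = 1
  · have h1 := (ord_nonneg_iff hX hz hq).2 h
    have h2 := (ord_nonneg_iff hX hz (inv_ne_zero hq)).2 h'
    rw [ord_inv] at h2
    linarith
  · exact Scheme.ord_eq_zero_of_coheight_neq_one hz q

theorem A2_ord_pow {q : X.left.functionField} (z : X.left) (n : ℕ) :
    Scheme.ord (q ^ n) z = n * Scheme.ord q z := by
  by_cases hq : q = 0
  · rcases Nat.eq_zero_or_pos n with rfl | hn
    · rw [pow_zero, A2_ord_one]; simp
    · rw [hq, zero_pow hn.ne', Scheme.ord_zero]; simp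
  induction n with
  | zero => rw [pow_zero, A2_ord_one]; simp
  | succ n ih =>
    rw [pow_succ, Scheme.ord_mul (pow_ne_zero n hq) hq, ih]
    push_cast
    ring

/-- **A2c (S).** -/
theorem ord_zpow {q : X.left.functionField} (z : X.left) (n : ℤ) :
    Scheme.ord (q ^ n) z = n * Scheme.ord q z := by
  obtain ⟨m, rfl | rfl⟩ := n.eq_nat_or_neg
  · rw [zpow_natCast, A2_ord_pow]
  · rw [zpow_neg, zpow_natCast, ord_inv, A2_ord_pow]
    ring

/-- **A2d (S).** Hartogs: AT18 for `q` and `q⁻¹`. -/
theorem unit_of_ord_eq_zero (hX : Variety k X) (x : X.left) {q : X.left.functionField}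
    (h : ∀ z, coheight z = 1 → z ⤳ x → Scheme.ord q z = 0) :
    q ∈ localRing k X x ∧ q⁻¹ ∈ localRing k X x := by
  constructor
  · exact mem_localRing_of_ord_nonneg hX x q fun z hz hzx ↦ (h z hz hzx).ge
  · refine mem_localRing_of_ord_nonneg hX x q⁻¹ fun z hz hzx ↦ ?_
    rw [ord_inv, h z hz hzx, neg_zero]

/-- **A2e (S).** Two local equations differ by a unit (A2d). -/
theorem localEq_unit (hX : Variety k X) {D : X.left → ℤ} {x : X.left}
    {h h' : X.left.functionField} (hh : LocalEq D x h) (hh' : LocalEq D x h') :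
    h / h' ∈ localRing k X x ∧ h' / h ∈ localRing k X x := by
  have := unit_of_ord_eq_zero hX x (q := h / h') fun z hz hzx ↦ by
    rw [div_eq_mul_inv, Scheme.ord_mul hh.1 (inv_ne_zero hh'.1), ord_inv, hh.2 z hz hzx,
      hh'.2 z hz hzx]
    ring
  rwa [inv_div] at this

/-- **A2f (S).** `IsCartier` gives local equations at all points. -/
theorem exists_localEq {D : X.left → ℤ} (hD : IsCartier D) (x : X.left) :
    ∃ h, LocalEq D x h := by
  obtain ⟨U, hx, h, h0, hU⟩ := hD x
  exact ⟨h, h0, fun z hz hzx ↦ hU z (hzx.mem_open U.isOpen hx) hz⟩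

end H1F.AMP
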