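import Pool.Agent.Lib.H1F.AMP.A2

/-!
# H1F AMP, chunk A3: quasi-projectivity
-/

open CategoryTheory CategoryTheory.Limits AlgebraicGeometry Order

universe u

namespace H1F.AMP

variable {k : Type u} [Field k] {X : Over (Spec (CommRingCat.of k))} [IsIntegral X.left]
  [IsLocallyNoetherian X.left]

/-- **A3 (M).** The divisor `D` with the local equation `(s i)⁻¹` on the chart `U i` is ample. -/
theorem exists_ample {ι : Type} [Finite ι] [Nonempty ι] {U : ι → X.left.Opens}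
    {R : ι → Subalgebra k X.left.functionField} (hX : Variety k X) (c : Charts X U R)
    (s : ι → X.left.functionField) (hs0 : ∀ i, s i ≠ 0) (hs : ∀ i j, s i / s j ∈ R j)
    (hsup : ∀ i j, R i ⊔ R j = R j ⊔ Algebra.adjoin k {(s i / s j)⁻¹}) :
    ∃ D : X.left → ℤ, Ample X.hom D ∧
      ∀ i z, z ∈ U i → coheight z = 1 → D z = Scheme.ord (s i)⁻¹ z := by
  have hsup' : ∀ i j, (s i / s j)⁻¹ ∈ R i ⊔ R j := fun i j ↦ by
    rw [hsup i j]
    exact (le_sup_right : Algebra.adjoin k {(s i / s j)⁻¹} ≤ _) (Algebra.subset_adjoin rfl)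
  have hord : ∀ i j z, z ∈ U i → z ∈ U j → Scheme.ord (s i)⁻¹ z = Scheme.ord (s j)⁻¹ z := by
    intro i j z hi hj
    have hle : R i ⊔ R j ≤ localRing k X z :=
      sup_le ((c.mem_iff i z).1 hi) ((c.mem_iff j z).1 hj)
    have h0 := ord_eq_zero_of_unit hX (q := s i / s j)
      (hle ((le_sup_right : R j ≤ R i ⊔ R j) (hs i j))) (hle (hsup' i j))
    rw [div_eq_mul_inv, Scheme.ord_mul (hs0 i) (inv_ne_zero (hs0 j)), ord_inv] at h0
    rw [ord_inv, ord_inv]
    linarith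
  choose i hi using c.cover
  refine ⟨fun z ↦ Scheme.ord (s (i z))⁻¹ z, ?_, fun j z hz _ ↦ hord (i z) j z (hi z) hz⟩
  refine ample_of_sections X.hom hX c (d := fun j ↦ (s j)⁻¹) (fun j ↦ inv_ne_zero (hs0 j))
    (fun j z hz _ ↦ hord (i z) j z (hi z) hz) (fun _ : Unit ↦ ⊤)
    (fun _ ↦ isAffineOpen_top _) (fun y ↦ ⟨(), trivial⟩) (fun _ _ ↦ True)
    (fun _ _ _ x _ ↦ trivial) (fun x _ _ ↦ ⟨i x, trivial, hi x⟩) (fun _ _ ↦ 1)
    (fun _ _ ↦ one_pos) (fun j _ ↦ s j) (fun j _ ↦ hs0 j) ?_ ?_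
  · intro _ j j' _ _
    rw [pow_one, ← div_eq_mul_inv]
    exact hs j j'
  · intro _ j j' _ _ x hx
    rw [pow_one, ← div_eq_mul_inv]
    have hx' := (c.mem_iff j' x).1 hx
    constructor
    · intro h
      rw [c.mem_iff]
      refine (le_sup_left : R j ≤ R j ⊔ R j').trans ?_
      rw [hsup j j']
      refine sup_le hx' (Algebra.adjoin_le ?_)
      rw [Set.singleton_subset_iff]
      exact h
    · intro h
      exact (sup_le ((c.mem_iff j x).1 h) hx') (hsup' j j')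

end H1F.AMP
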