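import Pool.Agent.Lib.H1F.AMP.A1

/-!
# H1F AMP, chunk A6: restriction of rational functions to closed subschemes
-/

open CategoryTheory CategoryTheory.Limits AlgebraicGeometry Order

universe u

namespace H1F.AMP

variable {k : Type u} [Field k] {C X : Over (Spec (CommRingCat.of k))} [IsIntegral C.left]
  [IsIntegral X.left] (j : C ⟶ X)

/-- **A6a (S).** The value of `red` on the image of the stalk (`algebraMap` is injective). -/
theorem red_stalk (s : X.left.presheaf.stalk (j.left (genericPoint C.left))) :
    red j (algebraMap _ X.left.functionField s) =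
      (j.left.stalkMap (genericPoint C.left)).hom s := by
  have h : ∃ s' : X.left.presheaf.stalk (j.left (genericPoint C.left)),
      algebraMap _ X.left.functionField s' = algebraMap _ X.left.functionField s := ⟨s, rfl⟩
  rw [red, dif_pos h]
  congr 1
  exact A1_inj _ h.choose_spec

/-- The value of `red` on a function which is regular at `j c`. -/
theorem A6_red_alg (c : C.left) (s : X.left.presheaf.stalk (j.left c)) :
    red j (algebraMap _ X.left.functionField s) =
      algebraMap (C.left.presheaf.stalk c) C.left.functionField ((j.left.stalkMap c).hom s) := by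
  have hc : genericPoint C.left ⤳ c := (genericPoint_spec C.left).specializes trivial
  have h : j.left (genericPoint C.left) ⤳ j.left c := j.left.base.hom.map_specializes hc
  rw [← A1_alg h s, red_stalk]
  exact Scheme.Hom.stalkSpecializes_stalkMap_apply j.left _ _ hc s

/-- **A6b (S).** `red` is a ring homomorphism on the local ring at `j ξ` (AT6, A6a). -/
theorem red_add {a b : X.left.functionField}
    (ha : a ∈ localRing k X (j.left (genericPoint C.left)))
    (hb : b ∈ localRing k X (j.left (genericPoint C.left))) :
    red j (a + b) = red j a + red j b := by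
  obtain ⟨s, rfl⟩ := (mem_localRing X _ _).1 ha
  obtain ⟨t, rfl⟩ := (mem_localRing X _ _).1 hb
  rw [← map_add, red_stalk, red_stalk, red_stalk, map_add]

/-- **A6b (S).** -/
theorem red_mul {a b : X.left.functionField}
    (ha : a ∈ localRing k X (j.left (genericPoint C.left)))
    (hb : b ∈ localRing k X (j.left (genericPoint C.left))) :
    red j (a * b) = red j a * red j b := by
  obtain ⟨s, rfl⟩ := (mem_localRing X _ _).1 ha
  obtain ⟨t, rfl⟩ := (mem_localRing X _ _).1 hb
  rw [← map_mul, red_stalk, red_stalk, red_stalk, map_mul]

theorem A6_red_one : red j 1 = 1 := by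
  have := red_stalk j 1
  rwa [map_one, map_one] at this

theorem A6_red_zero : red j 0 = 0 := by
  have := red_stalk j 0
  rwa [map_zero, map_zero] at this

theorem A6_alg_k (X : Over (Spec (CommRingCat.of k))) [IsIntegral X.left] (x : X.left) (c : k) :
    algebraMap k X.left.functionField c = algebraMap (X.left.presheaf.stalk x)
      X.left.functionField ((X.left.presheaf.germ ⊤ x trivial).hom
        (X.hom.appTop.hom ((Scheme.ΓSpecIso (CommRingCat.of k)).inv.hom c))) := by
  have : Nonempty (⊤ : X.left.Opens) := ⟨⟨x, trivial⟩⟩
  exact (Scheme.algebraMap_germ_eq_germToFunctionField (X := X.left) (U := ⊤) (x := x)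
    trivial _).symm

/-- **A6c (M).** `red` is `k`-linear. -/
theorem red_algebraMap (c : k) : red j (algebraMap k _ c) = algebraMap k _ c := by
  rw [A6_alg_k X (j.left (genericPoint C.left)) c, A6_red_alg, A6_alg_k C (genericPoint C.left) c]
  congr 1
  have h1 := Scheme.Hom.germ_stalkMap_apply j.left ⊤ (genericPoint C.left) trivial
    (X.hom.appTop.hom ((Scheme.ΓSpecIso (CommRingCat.of k)).inv.hom c))
  refine h1.trans ?_
  have h2 : X.hom.appTop ≫ j.left.app ⊤ = C.hom.appTop := by
    have h3 : j.left ≫ X.hom = C.hom := Over.w j
    rw [← h3]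
    rfl
  have h4 := congrArg (fun q ↦ q.hom ((Scheme.ΓSpecIso (CommRingCat.of k)).inv.hom c)) h2
  have h5 : (j.left.app ⊤).hom
      (X.hom.appTop.hom ((Scheme.ΓSpecIso (CommRingCat.of k)).inv.hom c)) =
      C.hom.appTop.hom ((Scheme.ΓSpecIso (CommRingCat.of k)).inv.hom c) := h4
  exact congrArg (C.left.presheaf.germ ⊤ (genericPoint C.left) trivial).hom h5

/-- **A6d (S).** The stalk map is a local homomorphism into a field. -/
theorem red_eq_zero_iff {a : X.left.functionField}
    (ha : a ∈ localRing k X (j.left (genericPoint C.left))) :
    red j a = 0 ↔ NonUnit (localRing k X (j.left (genericPoint C.left))) a := by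
  obtain ⟨s, rfl⟩ := (mem_localRing X _ _).1 ha
  rw [red_stalk, ← not_iff_not, ← A1_isUnit_iff,
    ← isUnit_map_iff (j.left.stalkMap (genericPoint C.left)).hom s]
  exact isUnit_iff_ne_zero.symm

/-- **A6e (S).** -/
theorem red_inv {a : X.left.functionField}
    (ha : a ∈ localRing k X (j.left (genericPoint C.left)))
    (ha' : a⁻¹ ∈ localRing k X (j.left (genericPoint C.left))) :
    red j a⁻¹ = (red j a)⁻¹ := by
  by_cases h0 : a = 0
  · rw [h0, inv_zero, A6_red_zero, inv_zero]
  · have h1 := red_mul j ha ha'
    rw [mul_inv_cancel₀ h0, A6_red_one] at h1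
    exact eq_inv_of_mul_eq_one_right h1.symm

/-- **A6f (S).** Polynomials. -/
theorem red_aeval {a : X.left.functionField}
    (ha : a ∈ localRing k X (j.left (genericPoint C.left))) (P : Polynomial k) :
    red j (Polynomial.aeval a P) = Polynomial.aeval (red j a) P := by
  have hmem : ∀ Q : Polynomial k, Polynomial.aeval a Q ∈
      localRing k X (j.left (genericPoint C.left)) := by
    intro Q
    have h1 : Polynomial.aeval a Q ∈ Algebra.adjoin k {a} :=
      Polynomial.aeval_mem_adjoin_singleton k a
    exact (Algebra.adjoin_le (by simpa using ha)) h1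
  have hpow : ∀ n : ℕ, red j (a ^ n) = red j a ^ n := by
    intro n
    induction n with
    | zero => rw [pow_zero, pow_zero, A6_red_one]
    | succ n ih => rw [pow_succ, pow_succ, red_mul j (Subalgebra.pow_mem _ ha n) ha, ih]
  induction P using Polynomial.induction_on' with
  | add P Q hP hQ => rw [map_add, map_add, red_add j (hmem P) (hmem Q), hP, hQ]
  | monomial n c =>
    rw [Polynomial.aeval_monomial, Polynomial.aeval_monomial,
      red_mul j (Subalgebra.algebraMap_mem _ c) (Subalgebra.pow_mem _ ha n), red_algebraMap, hpow]

/-- **A6g (S).** The image of the generic point specializes to all points of the image. -/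
theorem specializes_of_hom (c : C.left) : j.left (genericPoint C.left) ⤳ j.left c :=
  j.left.base.hom.map_specializes ((genericPoint_spec C.left).specializes trivial)

/-- **A6h (M).** Functions regular at `j c` restrict to functions regular at `c`. -/
theorem red_mem (c : C.left) {a : X.left.functionField} (ha : a ∈ localRing k X (j.left c)) :
    red j a ∈ localRing k C c := by
  obtain ⟨s, rfl⟩ := (mem_localRing X _ _).1 ha
  rw [A6_red_alg]
  exact (mem_localRing C c _).2 ⟨_, rfl⟩

/-- **A6i (M).** For a closed immersion every function regular at `c` is the restriction of a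
function regular at `j c`. -/
theorem exists_red [IsClosedImmersion j.left] (c : C.left) {b : C.left.functionField}
    (hb : b ∈ localRing k C c) : ∃ a ∈ localRing k X (j.left c), red j a = b := by
  obtain ⟨t, rfl⟩ := (mem_localRing C _ _).1 hb
  obtain ⟨s, hs⟩ := j.left.stalkMap_surjective c t
  refine ⟨algebraMap _ X.left.functionField s, (mem_localRing X _ _).2 ⟨s, rfl⟩, ?_⟩
  rw [A6_red_alg]
  exact congrArg _ hs

/-- **A6j (S).** The image of a closed immersion is closed. -/
theorem exists_preimage [IsClosedImmersion j.left] {x : X.left}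
    (hx : j.left (genericPoint C.left) ⤳ x) : ∃ c : C.left, j.left c = x := by
  have h1 : IsClosed (Set.range j.left) := j.left.isClosedEmbedding.isClosed_range
  exact hx.mem_closed h1 ⟨_, rfl⟩

end H1F.AMP
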