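import Pool.Agent.Lib.H1F.AMP.A7

/-!
# H1F AMP, chunk A7O: orders on the projective line
-/

open CategoryTheory CategoryTheory.Limits AlgebraicGeometry Order

universe u

namespace H1F.AMP

section

variable {k K : Type u} [Field k] [Field K] [Algebra k K]

theorem A7O_not_nonUnit_one (O : Subalgebra k K) : ¬ NonUnit O (1 : K) := by
  rintro (h | h)
  · exact one_ne_zero h
  · rw [inv_one] at h
    exact h (one_mem _)

/-- Division by `s - l` in `k[s]`. -/
theorem A7O_div (s : K) (l : k) {a : K} (ha : a ∈ Algebra.adjoin k {s}) :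
    ∃ c : k, ∃ q ∈ Algebra.adjoin k {s}, a = algebraMap k K c + (s - algebraMap k K l) * q := by
  have hs : s ∈ Algebra.adjoin k {s} := Algebra.subset_adjoin rfl
  have hl : algebraMap k K l ∈ Algebra.adjoin k {s} := (Algebra.adjoin k {s}).algebraMap_mem l
  induction ha using Algebra.adjoin_induction with
  | mem x hx =>
    rw [Set.mem_singleton_iff] at hx
    subst hx
    exact ⟨l, 1, one_mem _, by ring⟩
  | algebraMap r => exact ⟨r, 0, zero_mem _, by ring⟩
  | add x y _ _ ihx ihy =>
    obtain ⟨c, q, hq, hc⟩ := ihx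
    obtain ⟨d, r, hr, hd⟩ := ihy
    exact ⟨c + d, q + r, add_mem hq hr, by rw [hc, hd, map_add]; ring⟩
  | mul x y _ _ ihx ihy =>
    obtain ⟨c, q, hq, hc⟩ := ihx
    obtain ⟨d, r, hr, hd⟩ := ihy
    refine ⟨c * d, algebraMap k K c * r + q * algebraMap k K d + (s - algebraMap k K l) * q * r,
      ?_, by rw [hc, hd, map_mul]; ring⟩
    have h1 := (Algebra.adjoin k {s}).algebraMap_mem c
    have h2 := (Algebra.adjoin k {s}).algebraMap_mem d
    exact add_mem (add_mem (mul_mem h1 hr) (mul_mem hq h2)) (mul_mem (mul_mem (sub_mem hs hl) hq) hr)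

theorem A7O_unit (O : Subalgebra k K) {x : K} (hx : x ∈ O) :
    IsUnit (⟨x, hx⟩ : O) ↔ ¬ NonUnit O x := by
  constructor
  · rintro h1 (h | h)
    · have : (⟨x, hx⟩ : O) = 0 := Subtype.ext h
      rw [this] at h1
      exact not_isUnit_zero h1
    · obtain ⟨z, hz⟩ := h1.exists_right_inv
      have : x * z = 1 := congrArg Subtype.val hz
      rw [← eq_inv_of_mul_eq_one_right this] at h
      exact h z.2
  · intro h
    unfold NonUnit at h
    push Not at h
    exact IsUnit.of_mul_eq_one ⟨x⁻¹, h.2⟩ (Subtype.ext (mul_inv_cancel₀ h.1))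

theorem A7O_hasOrd (O : Subalgebra k K) (s : K) (l : k) (hs : s ∈ O)
    (hs0 : s - algebraMap k K l ≠ 0)
    (hadd : ∀ a ∈ O, ∀ b ∈ O, NonUnit O a → NonUnit O b → NonUnit O (a + b))
    (hnu : NonUnit O (s - algebraMap k K l))
    (hloc : ∀ f ∈ O, ∃ a ∈ Algebra.adjoin k {s}, ∃ b ∈ Algebra.adjoin k {s},
      b ≠ 0 ∧ b⁻¹ ∈ O ∧ f = a * b⁻¹) : HasOrd O (s - algebraMap k K l) 1 := by
  have hle : Algebra.adjoin k {s} ≤ O := by
    refine Algebra.adjoin_le ?_
    rw [Set.singleton_subset_iff]
    exact hs
  have hπ : s - algebraMap k K l ∈ O := sub_mem hs (O.algebraMap_mem l)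
  have key : ∀ f ∈ O, NonUnit O f → ∃ g ∈ O, f = (s - algebraMap k K l) * g := by
    intro f hf hf'
    obtain ⟨a, ha, b, hb, hb0, hbi, rfl⟩ := hloc f hf
    obtain ⟨c, q, hq, rfl⟩ := A7O_div s l ha
    have h1 : NonUnit O ((algebraMap k K c + (s - algebraMap k K l) * q) * b⁻¹ * b) :=
      nonUnit_mul (hle hb) hf'
    rw [mul_assoc, inv_mul_cancel₀ hb0, mul_one] at h1
    have h2 : NonUnit O ((s - algebraMap k K l) * q) := nonUnit_mul (hle hq) hnu
    have h2' : NonUnit O ((s - algebraMap k K l) * q * (-1)) :=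
      nonUnit_mul (neg_mem (one_mem _)) h2
    have h3 := hadd _ (hle ha) _ (mul_mem (mul_mem hπ (hle hq)) (neg_mem (one_mem _))) h1 h2'
    have h4 : algebraMap k K c + (s - algebraMap k K l) * q +
        (s - algebraMap k K l) * q * (-1) = algebraMap k K c := by ring
    rw [h4] at h3
    have h5 : c = 0 := by
      by_contra hc
      exact not_nonUnit_algebraMap O hc h3
    refine ⟨q * b⁻¹, mul_mem (hle hq) hbi, ?_⟩
    rw [h5, map_zero, zero_add, mul_assoc]
  refine ⟨s - algebraMap k K l, ⟨hπ, ?_, ?_⟩, 1, ?_⟩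
  · rw [A7O_unit, not_not]
    exact hnu
  · rintro ⟨a, ha⟩ ⟨b, hb⟩ hab
    have hab' : s - algebraMap k K l = a * b := congrArg Subtype.val hab
    rw [A7O_unit, A7O_unit]
    by_contra hcon
    push Not at hcon
    obtain ⟨a', ha', rfl⟩ := key a ha hcon.1
    obtain ⟨b', hb', rfl⟩ := key b hb hcon.2
    refine A7O_not_nonUnit_one O ?_
    have h1 : (1 : K) = (s - algebraMap k K l) * (a' * b') := by
      have h2 : (s - algebraMap k K l) * 1 =
          (s - algebraMap k K l) * ((s - algebraMap k K l) * (a' * b')) := by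
        rw [mul_one]
        calc s - algebraMap k K l = (s - algebraMap k K l) * a' * ((s - algebraMap k K l) * b') :=
              hab'
          _ = _ := by ring
      exact mul_left_cancel₀ hs0 h2
    rw [h1]
    exact nonUnit_mul (mul_mem ha' hb') hnu
  · rw [zpow_one, Units.val_one, OneMemClass.coe_one, mul_one]

end

variable {k : Type u} [Field k] {C : Over (Spec (CommRingCat.of k))} [IsIntegral C.left]
  {U : Fin 2 → C.left.Opens} {t : C.left.functionField}

theorem A7O_ne (h : P1Curve C U t) (l : k) : t - algebraMap k _ l ≠ 0 := by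
  intro h0
  refine h.tr ?_
  rw [sub_eq_zero.1 h0]
  exact isAlgebraic_algebraMap l

variable [IsLocallyNoetherian C.left]

/-- **A7h (M).** `ord (t - l) = 1` at the zero of `t - l`.
Proof: AT17 (`hasOrd_iff`): `t - l` is a uniformizer: the local ring is the localization of
`Algebra.adjoin k {t}` at the ideal generated by `t - l` (AT7), so every non-unit is a multiple of
`t - l`, and `t - l` is a non-unit; it is irreducible. -/
theorem P1Curve.ord_zero (h : P1Curve C U t) (l : k) {z : C.left} (hz : z ∈ U 0)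
    (hz' : NonUnit (localRing k C z) (t - algebraMap k _ l)) :
    Scheme.ord (t - algebraMap k _ l) z = 1 := by
  have hgen : z ≠ genericPoint C.left := by
    obtain ⟨z', h1, h2, h3⟩ := h.exists_zero l
    rw [h.zero_unique l hz h1 hz' h3]
    exact h2
  rw [← hasOrd_iff h.variety ((h.coheight_iff z).2 hgen) (A7O_ne h l)]
  have hle : Algebra.adjoin k {t} ≤ localRing k C z := A5_le h.charts hz
  refine A7O_hasOrd _ t l (hle (Algebra.subset_adjoin rfl)) (A7O_ne h l) ?_ hz' ?_
  · intro a ha b hb ha' hb'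
    exact nonUnit_add ha hb ha' hb'
  · intro f hf
    exact (h.charts.mem_localRing hz f).1 hf

/-- **A7i (M).** `ord (t - l) = -1` at infinity: `t - l = t (1 - l t⁻¹)`, `1 - l t⁻¹` is a unit at
infinity, and `t⁻¹` is a uniformizer there (as in A7h with `Algebra.adjoin k {t⁻¹}`). -/
theorem P1Curve.ord_infinity (h : P1Curve C U t) (l : k) {z : C.left} (hz : z ∉ U 0) :
    Scheme.ord (t - algebraMap k _ l) z = -1 := by
  obtain ⟨ζ, h0, h1, h2, h3, h4⟩ := h.infinity
  have hzζ : z = ζ := h4 z hz
  subst hzζ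
  have ht0 : t ≠ 0 := by
    have := A7O_ne h 0
    rwa [map_zero, sub_zero] at this
  have hz1 : z ∈ U 1 := by
    obtain ⟨i, hi⟩ := h.charts.cover z
    fin_cases i
    · exact absurd hi hz
    · exact hi
  have hord : Scheme.ord t⁻¹ z = 1 := by
    rw [← hasOrd_iff h.variety ((h.coheight_iff z).2 h1) (inv_ne_zero ht0)]
    have h5 := A7O_hasOrd (localRing k C z) t⁻¹ 0 h3
      (by rw [map_zero, sub_zero]; exact inv_ne_zero ht0)
      (fun a ha b hb ha' hb' ↦ nonUnit_add ha hb ha' hb')
      (by rw [map_zero, sub_zero]; exact h2)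
      (fun f hf ↦ (h.charts.mem_localRing hz1 f).1 hf)
    rwa [map_zero, sub_zero] at h5
  have hu : (1 - algebraMap k _ l * t⁻¹ : C.left.functionField) ∈ localRing k C z :=
    sub_mem (one_mem _) (mul_mem ((localRing k C z).algebraMap_mem l) h3)
  have hu' : ¬ NonUnit (localRing k C z) (1 - algebraMap k _ l * t⁻¹ : C.left.functionField) := by
    intro hcon
    have h5 : NonUnit (localRing k C z) (t⁻¹ * algebraMap k C.left.functionField l) :=
      nonUnit_mul ((localRing k C z).algebraMap_mem l) h2
    have h6 := nonUnit_add hu (mul_mem h3 ((localRing k C z).algebraMap_mem l)) hcon h5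
    have h7 : (1 - algebraMap k C.left.functionField l * t⁻¹ + t⁻¹ *
        algebraMap k C.left.functionField l) = 1 := by ring
    rw [h7] at h6
    exact A7O_not_nonUnit_one _ h6
  unfold NonUnit at hu'
  push Not at hu'
  have e : t - algebraMap k C.left.functionField l =
      (t⁻¹)⁻¹ * (1 - algebraMap k C.left.functionField l * t⁻¹) := by
    rw [inv_inv, mul_sub, mul_one, mul_comm (algebraMap k C.left.functionField l), ← mul_assoc,
      mul_inv_cancel₀ ht0, one_mul]
  rw [e, Scheme.ord_mul (inv_ne_zero (inv_ne_zero ht0)) hu'.1, ord_inv, hord,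
    ord_eq_zero_of_unit h.variety hu hu'.2]
  norm_num

/-- principal divisor of degree zero -/
def A7OGood (f : C.left.functionField) : Prop :=
  (Function.support (Scheme.ord f)).Finite ∧ ∑ᶠ z : C.left, Scheme.ord f z = 0

theorem A7O_good_mul {f g : C.left.functionField} (hf : f ≠ 0) (hg : g ≠ 0) (h : A7OGood f)
    (h' : A7OGood g) : A7OGood (f * g) := by
  have e : ∀ z, Scheme.ord (f * g) z = Scheme.ord f z + Scheme.ord g z := fun z ↦
    Scheme.ord_mul hf hg
  constructor
  · refine (h.1.union h'.1).subset ?_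
    intro z hz
    rw [Function.mem_support, e z] at hz
    rw [Set.mem_union, Function.mem_support, Function.mem_support]
    by_contra hcon
    push Not at hcon
    rw [hcon.1, hcon.2] at hz
    exact hz rfl
  · rw [finsum_congr e, finsum_add_distrib h.1 h'.1, h.2, h'.2, add_zero]

theorem A7O_good_inv {f : C.left.functionField} (h : A7OGood f) : A7OGood f⁻¹ := by
  have e : ∀ z, Scheme.ord f⁻¹ z = - Scheme.ord f z := fun z ↦ ord_inv z
  constructor
  · refine h.1.subset ?_
    intro z hz
    rw [Function.mem_support, e z] at hz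
    rw [Function.mem_support]
    intro h0
    rw [h0] at hz
    exact hz neg_zero
  · rw [finsum_congr e, finsum_neg_distrib, h.2, neg_zero]

theorem A7O_good_const (h : P1Curve C U t) (c : k) :
    A7OGood (algebraMap k C.left.functionField c) := by
  have e : ∀ z, Scheme.ord (algebraMap k C.left.functionField c) z = 0 := fun z ↦
    ord_eq_zero_of_unit h.variety ((localRing k C z).algebraMap_mem c)
      (by rw [← map_inv₀]; exact (localRing k C z).algebraMap_mem _)
  constructor
  · refine Set.finite_empty.subset ?_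
    intro z hz
    exact hz (e z)
  · rw [finsum_congr e, finsum_zero]

theorem A7O_good_linear (h : P1Curve C U t) (l : k) :
    A7OGood (t - algebraMap k C.left.functionField l) := by
  classical
  obtain ⟨z0, h1, h2, h3⟩ := h.exists_zero l
  obtain ⟨ζ, i0, i1, i2, i3, i4⟩ := h.infinity
  have hne : z0 ≠ ζ := fun e ↦ i0 (e ▸ h1)
  have e0 := h.ord_zero l h1 h3
  have e1 := h.ord_infinity l i0
  have hs : Function.support (Scheme.ord (t - algebraMap k C.left.functionField l)) ⊆
      (({z0, ζ} : Finset C.left) : Set C.left) := by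
    intro z hz
    rw [Finset.coe_insert, Finset.coe_singleton, Set.mem_insert_iff, Set.mem_singleton_iff]
    by_contra hcon
    push Not at hcon
    refine hz ?_
    by_cases hzU : z ∈ U 0
    · have hle : Algebra.adjoin k {t} ≤ localRing k C z := A5_le h.charts hzU
      have hnu : ¬ NonUnit (localRing k C z) (t - algebraMap k C.left.functionField l) :=
        fun hc ↦ hcon.1 (h.zero_unique l hzU h1 hc h3)
      unfold NonUnit at hnu
      push Not at hnu
      exact ord_eq_zero_of_unit h.variety (sub_mem (hle (Algebra.subset_adjoin rfl))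
        ((localRing k C z).algebraMap_mem l)) hnu.2
    · exact absurd (i4 z hzU) hcon.2
  refine ⟨(Finset.finite_toSet _).subset hs, ?_⟩
  rw [finsum_eq_sum_of_support_subset _ hs, Finset.sum_insert (by
    rw [Finset.mem_singleton]; exact hne), Finset.sum_singleton, e0, e1]
  norm_num

theorem A7O_good_poly [IsAlgClosed k] (h : P1Curve C U t) (n : ℕ) : ∀ P : Polynomial k,
    P.natDegree = n → P ≠ 0 → A7OGood (Polynomial.aeval t P) ∧ Polynomial.aeval t P ≠ 0 := by
  have hinj : ∀ P : Polynomial k, P ≠ 0 → Polynomial.aeval t P ≠ 0 := fun P hP h0 ↦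
    h.tr ⟨P, hP, h0⟩
  induction n with
  | zero =>
    intro P hP hP0
    refine ⟨?_, hinj P hP0⟩
    rw [Polynomial.eq_C_of_natDegree_eq_zero hP, Polynomial.aeval_C]
    exact A7O_good_const h _
  | succ n ih =>
    intro P hP hP0
    refine ⟨?_, hinj P hP0⟩
    obtain ⟨l, hl⟩ := IsAlgClosed.exists_root P (by
      intro h0
      have h1 := Polynomial.natDegree_eq_of_degree_eq_some (n := 0) h0
      omega)
    obtain ⟨Q, rfl⟩ := Polynomial.dvd_iff_isRoot.2 hl
    have hQ0 : Q ≠ 0 := right_ne_zero_of_mul hP0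
    have hdeg : Q.natDegree = n := by
      rw [Polynomial.natDegree_mul (Polynomial.X_sub_C_ne_zero l) hQ0,
        Polynomial.natDegree_X_sub_C] at hP
      omega
    rw [map_mul, map_sub, Polynomial.aeval_X, Polynomial.aeval_C]
    exact A7O_good_mul (A7O_ne h l) (ih Q hdeg hQ0).2 (A7O_good_linear h l) (ih Q hdeg hQ0).1

/-- **A7j (M).** Principal divisors have finite support and degree zero.
Proof: `f = a / b`, `a, b ∈ Algebra.adjoin k {t}` nonzero (A1f), `a` is a constant times a product
of factors `t - l` (`IsAlgClosed.splits`).  By `Scheme.ord_mul`, A2b and induction it suffices to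
treat constants (`ord = 0`, A2a) and `f = t - l`: the support consists of the zero of `t - l` (value
`1`, A7h) and the point at infinity (value `-1`, A7i): at the other points of `U 0`, `t - l` is a unit
(A7e); at the generic point `ord = 0` since `coheight ≠ 1` (A7c).  `finsum_add_distrib`. -/
theorem P1Curve.finsum_ord [IsAlgClosed k] (h : P1Curve C U t) {f : C.left.functionField}
    (hf : f ≠ 0) : (Function.support (Scheme.ord f)).Finite ∧
      ∑ᶠ z : C.left, Scheme.ord f z = 0 := by
  obtain ⟨a, ha, b, hb, hb0, rfl⟩ := exists_div h.charts 0 f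
  change a ∈ Algebra.adjoin k {t} at ha
  change b ∈ Algebra.adjoin k {t} at hb
  rw [Algebra.adjoin_singleton_eq_range_aeval] at ha hb
  obtain ⟨P, rfl⟩ := ha
  obtain ⟨Q, rfl⟩ := hb
  have hP : P ≠ 0 := by
    rintro rfl
    refine hf ?_
    simp
  have hQ : Q ≠ 0 := by
    rintro rfl
    refine hb0 ?_
    simp
  obtain ⟨h1, h2⟩ := A7O_good_poly h _ P rfl hP
  obtain ⟨h3, h4⟩ := A7O_good_poly h _ Q rfl hQ
  have h5 : A7OGood (Polynomial.aeval t P * (Polynomial.aeval t Q)⁻¹) :=
    A7O_good_mul h2 (inv_ne_zero h4) h1 (A7O_good_inv h3)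
  exact h5

end H1F.AMP
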