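import Pool.Agent.Lib.H1F.AMP.A6
import Pool.Agent.Lib.H1F.AMP.A2

/-!
# H1F AMP, chunk A8: local equations along a curve
-/

open CategoryTheory CategoryTheory.Limits AlgebraicGeometry Order

universe u

namespace H1F.AMP

variable {k : Type u} [Field k] {C C' X : Over (Spec (CommRingCat.of k))} [IsIntegral C.left]
  [IsIntegral C'.left] [IsIntegral X.left] [IsLocallyNoetherian C.left]
  [IsLocallyNoetherian C'.left] [IsLocallyNoetherian X.left]

/-- Local equations of `D + div g` along the closure of `z₀`, which are units at `z₀`. -/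
structure Eqs (X : Over (Spec (CommRingCat.of k))) [IsIntegral X.left] [IsLocallyNoetherian X.left]
    (z₀ : X.left) (D : X.left → ℤ) (g : X.left.functionField)
    (u : X.left → X.left.functionField) : Prop where
  ne : g ≠ 0
  eq : ∀ x : X.left, z₀ ⤳ x → LocalEq (fun z ↦ D z + Scheme.ord g z) x (u x)
  unit : ∀ x : X.left, z₀ ⤳ x → u x ∈ localRing k X z₀ ∧ (u x)⁻¹ ∈ localRing k X z₀

/-- **A8a (M).** `DegOn` in terms of `red`. -/
theorem degOn_iff (j : C ⟶ X) (D : X.left → ℤ) (n : ℤ) :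
    DegOn j.left D n ↔ ∃ (g : X.left.functionField) (u : C.left → X.left.functionField), g ≠ 0 ∧
      (∀ c, LocalEq (fun z ↦ D z + Scheme.ord g z) (j.left c) (u c)) ∧
      (∀ c, u c ∈ localRing k X (j.left (genericPoint C.left)) ∧
        (u c)⁻¹ ∈ localRing k X (j.left (genericPoint C.left))) ∧
      n = ∑ᶠ c : C.left, Scheme.ord (red j (u c)) c := by
  constructor
  · rintro ⟨g, u, t, hg, hu, ht, hn⟩
    refine ⟨g, u, hg, hu, ?_, ?_⟩
    · intro c
      constructor
      · exact (mem_localRing X _ _).2 ⟨_, ht c⟩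
      · refine (mem_localRing X _ _).2 ⟨((t c)⁻¹ : (X.left.presheaf.stalk _)ˣ), ?_⟩
        have h1 : algebraMap (X.left.presheaf.stalk (j.left (genericPoint C.left)))
            X.left.functionField (t c) * algebraMap (X.left.presheaf.stalk
              (j.left (genericPoint C.left))) X.left.functionField
              (((t c)⁻¹ : (X.left.presheaf.stalk _)ˣ) : X.left.presheaf.stalk _) = 1 := by
          rw [← map_mul, Units.mul_inv, map_one]
        rw [ht c] at h1
        exact eq_inv_of_mul_eq_one_right h1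
    · rw [hn]
      refine finsum_congr fun c ↦ ?_
      rw [← ht c, red_stalk]
  · rintro ⟨g, u, hg, hu, hL, hn⟩
    have hex : ∀ c, ∃ t : (X.left.presheaf.stalk (j.left (genericPoint C.left)))ˣ,
        algebraMap _ X.left.functionField
          (t : X.left.presheaf.stalk (j.left (genericPoint C.left))) = u c := by
      intro c
      obtain ⟨s, hs⟩ := (mem_localRing X _ _).1 (hL c).1
      have hunit : IsUnit s := by
        rw [A1_isUnit_iff (k := k), hs]
        rintro (h | h)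
        · exact (hu c).1 h
        · exact h (hL c).2
      exact ⟨hunit.unit, hs⟩
    choose t ht using hex
    refine ⟨g, u, t, hg, hu, ht, ?_⟩
    rw [hn]
    refine finsum_congr fun c ↦ ?_
    rw [← ht c, red_stalk]

/-- **A8b (M).** Existence. -/
theorem exists_eqs (hX : Variety k X) {D : X.left → ℤ} (hD : IsCartier D) (z₀ : X.left) :
    ∃ g u, Eqs X z₀ D g u := by
  obtain ⟨h, hh⟩ := exists_localEq hD z₀
  choose u hu using fun x ↦ exists_localEq hD x
  refine ⟨h⁻¹, fun x ↦ u x * h⁻¹, inv_ne_zero hh.1, ?_, ?_⟩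
  · intro x hx
    refine ⟨mul_ne_zero (hu x).1 (inv_ne_zero hh.1), ?_⟩
    intro z hz hzx
    rw [Scheme.ord_mul (hu x).1 (inv_ne_zero hh.1), (hu x).2 z hz hzx]
  · intro x hx
    apply unit_of_ord_eq_zero hX z₀
    intro z hz hzz
    rw [Scheme.ord_mul (hu x).1 (inv_ne_zero hh.1), ord_inv, hh.2 z hz hzz,
      (hu x).2 z hz (hzz.trans hx)]
    ring

/-- **A8c (M).** Linear combinations (A2c, `Scheme.ord_mul`, `zpow_ne_zero`). -/
theorem Eqs.comb {z₀ : X.left} {D D' : X.left → ℤ} {g g' : X.left.functionField}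
    {u u' : X.left → X.left.functionField} (h : Eqs X z₀ D g u) (h' : Eqs X z₀ D' g' u')
    (a b : ℤ) : Eqs X z₀ (fun z ↦ a * D z + b * D' z) (g ^ a * g' ^ b)
      (fun x ↦ u x ^ a * u' x ^ b) := by
  have hz : ∀ (q : X.left.functionField) (n : ℤ), q ∈ localRing k X z₀ →
      q⁻¹ ∈ localRing k X z₀ → q ^ n ∈ localRing k X z₀ := by
    intro q n hq hq'
    obtain ⟨m, rfl | rfl⟩ := n.eq_nat_or_neg
    · rw [zpow_natCast]
      exact Subalgebra.pow_mem _ hq m
    · rw [zpow_neg, zpow_natCast, ← inv_pow]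
      exact Subalgebra.pow_mem _ hq' m
  refine ⟨mul_ne_zero (zpow_ne_zero _ h.ne) (zpow_ne_zero _ h'.ne), ?_, ?_⟩
  · intro x hx
    obtain ⟨h1, h2⟩ := h.eq x hx
    obtain ⟨h3, h4⟩ := h'.eq x hx
    refine ⟨mul_ne_zero (zpow_ne_zero _ h1) (zpow_ne_zero _ h3), ?_⟩
    intro z hz hzx
    have h5 : Scheme.ord (u x) z = D z + Scheme.ord g z := h2 z hz hzx
    have h6 : Scheme.ord (u' x) z = D' z + Scheme.ord g' z := h4 z hz hzx
    change Scheme.ord (u x ^ a * u' x ^ b) z =
      a * D z + b * D' z + Scheme.ord (g ^ a * g' ^ b) z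
    rw [Scheme.ord_mul (zpow_ne_zero _ h1) (zpow_ne_zero _ h3),
      Scheme.ord_mul (zpow_ne_zero _ h.ne) (zpow_ne_zero _ h'.ne), ord_zpow, ord_zpow, ord_zpow,
      ord_zpow, h5, h6]
    ring
  · intro x hx
    obtain ⟨h1, h2⟩ := h.unit x hx
    obtain ⟨h3, h4⟩ := h'.unit x hx
    refine ⟨Subalgebra.mul_mem _ (hz _ a h1 h2) (hz _ b h3 h4), ?_⟩
    rw [mul_inv, ← zpow_neg, ← zpow_neg]
    exact Subalgebra.mul_mem _ (hz _ _ h1 h2) (hz _ _ h3 h4)

end H1F.AMP
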