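import Pool.Agent.Lib.H1F.AMP.A8
import Pool.Agent.Lib.H1F.AMP.A7O

/-!
# H1F AMP, chunk A8D: the degree of a Cartier divisor
-/

open CategoryTheory CategoryTheory.Limits AlgebraicGeometry Order

universe u

namespace H1F.AMP

variable {k : Type u} [Field k] {C C' X : Over (Spec (CommRingCat.of k))} [IsIntegral C.left]
  [IsIntegral C'.left] [IsIntegral X.left] [IsLocallyNoetherian C.left]
  [IsLocallyNoetherian C'.left] [IsLocallyNoetherian X.left]

theorem A8D_ne_zero {L : Subalgebra k X.left.functionField} {b : X.left.functionField}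
    (hb0 : b ≠ 0) (hb' : b⁻¹ ∈ L) : ¬ NonUnit L b := by
  rintro (h | h)
  · exact hb0 h
  · exact h hb'

/-- Multiplication with a unit at `j c` does not change the order of the restriction. -/
theorem A8D_ord (j : C ⟶ X) (hC : Variety k C) {c : C.left} {a b q : X.left.functionField}
    (hq : q ∈ localRing k X (j.left c)) (hq' : q⁻¹ ∈ localRing k X (j.left c)) (hq0 : q ≠ 0)
    (hb : b ∈ localRing k X (j.left (genericPoint C.left)))
    (hb' : b⁻¹ ∈ localRing k X (j.left (genericPoint C.left))) (hb0 : b ≠ 0) (hab : a = q * b) :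
    Scheme.ord (red j a) c = Scheme.ord (red j b) c := by
  have hle := localRing_le (specializes_of_hom j c)
  have h1 : red j b ≠ 0 := fun h ↦ A8D_ne_zero hb0 hb' ((red_eq_zero_iff j hb).1 h)
  have h2 : red j q ≠ 0 := fun h ↦
    A8D_ne_zero hq0 (hle hq') ((red_eq_zero_iff j (hle hq)).1 h)
  have h3 : Scheme.ord (red j q) c = 0 := by
    refine ord_eq_zero_of_unit hC (red_mem j c hq) ?_
    rw [← red_inv j (hle hq) (hle hq')]
    exact red_mem j c hq'
  rw [hab, red_mul j (hle hq) hb, Scheme.ord_mul h2 h1, h3, zero_add]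

/-- **A8d (M).** Finiteness. -/
theorem Eqs.finite [IsAlgClosed k] (hX : Variety k X) (j : C ⟶ X) [IsClosedImmersion j.left]
    {U : Fin 2 → C.left.Opens} {t : C.left.functionField} (hC : P1Curve C U t)
    {D : X.left → ℤ} (hD : IsCartier D) {g : X.left.functionField}
    {u : X.left → X.left.functionField} (h : Eqs X (j.left (genericPoint C.left)) D g u) :
    (Function.support fun c : C.left ↦ Scheme.ord (red j (u (j.left c))) c).Finite := by
  choose W hW f hf0 hf using fun c : C.left ↦ hD (j.left c)
  have hz₀W : ∀ c, j.left (genericPoint C.left) ∈ W c := fun c ↦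
    (specializes_of_hom j c).mem_open (W c).isOpen (hW c)
  have hloc : ∀ c (x : X.left), x ∈ W c →
      LocalEq (fun z ↦ D z + Scheme.ord g z) x (f c * g) := by
    intro c x hx
    refine ⟨mul_ne_zero (hf0 c) h.ne, fun z hz hzx ↦ ?_⟩
    rw [Scheme.ord_mul (hf0 c) h.ne, hf c z (hzx.mem_open (W c).isOpen hx) hz]
  have hunit : ∀ c, f c * g ∈ localRing k X (j.left (genericPoint C.left)) ∧
      (f c * g)⁻¹ ∈ localRing k X (j.left (genericPoint C.left)) := by
    intro c
    have h0 := h.eq (j.left (genericPoint C.left)) specializes_rfl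
    have h1 := localEq_unit hX (hloc c _ (hz₀W c)) h0
    have h2 := h.unit (j.left (genericPoint C.left)) specializes_rfl
    constructor
    · have e : f c * g = f c * g / u (j.left (genericPoint C.left)) *
          u (j.left (genericPoint C.left)) := by
        rw [div_mul_cancel₀ _ h0.1]
      rw [e]
      exact Subalgebra.mul_mem _ h1.1 h2.1
    · have e : (f c * g)⁻¹ = u (j.left (genericPoint C.left)) / (f c * g) *
          (u (j.left (genericPoint C.left)))⁻¹ := by
        have := h0.1
        have := hf0 c
        have := h.ne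
        field_simp
      rw [e]
      exact Subalgebra.mul_mem _ h1.2 h2.2
  have key : ∀ c c' : C.left, j.left c' ∈ W c →
      Scheme.ord (red j (u (j.left c'))) c' = Scheme.ord (red j (f c * g)) c' := by
    intro c c' hc'
    have h0 := h.eq (j.left c') (specializes_of_hom j c')
    have h1 := hloc c _ hc'
    have h2 := localEq_unit hX h0 h1
    refine A8D_ord j hC.variety h2.1 ?_ (div_ne_zero h0.1 h1.1) (hunit c).1 (hunit c).2 h1.1 ?_
    · rw [inv_div]
      exact h2.2
    · rw [div_mul_cancel₀ _ h1.1]
  have hfin : ∀ c, (Function.support (Scheme.ord (red j (f c * g)))).Finite := by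
    intro c
    refine (hC.finsum_ord ?_).1
    intro h0
    exact A8D_ne_zero (mul_ne_zero (hf0 c) h.ne) (hunit c).2
      ((red_eq_zero_iff j (hunit c).1).1 h0)
  have : CompactSpace C.left := by
    have := hC.variety.quasiCompact
    exact QuasiCompact.compactSpace_of_compactSpace C.hom
  obtain ⟨T, hT⟩ := CompactSpace.elim_nhds_subcover
    (fun c : C.left ↦ ((j.left ⁻¹ᵁ (W c) : C.left.Opens) : Set C.left))
    (fun c ↦ (j.left ⁻¹ᵁ (W c)).isOpen.mem_nhds (hW c))
  refine (Set.Finite.biUnion T.finite_toSet fun c _ ↦ hfin c).subset ?_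
  intro c' hc'
  have h1 : c' ∈ ⋃ c ∈ T, ((j.left ⁻¹ᵁ (W c) : C.left.Opens) : Set C.left) := by
    rw [hT]
    trivial
  simp only [Set.mem_iUnion] at h1
  obtain ⟨c, hcT, hc⟩ := h1
  simp only [Set.mem_iUnion]
  refine ⟨c, hcT, ?_⟩
  rw [Function.mem_support] at hc' ⊢
  rw [← key c c' hc]
  exact hc'

/-- **A8e (M).** The degree can be computed with any equations. -/
theorem Eqs.degOn_iff [IsAlgClosed k] (hX : Variety k X) (j : C ⟶ X) [IsClosedImmersion j.left]
    {U : Fin 2 → C.left.Opens} {t : C.left.functionField} (hC : P1Curve C U t)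
    {D : X.left → ℤ} {g : X.left.functionField}
    {u : X.left → X.left.functionField} (h : Eqs X (j.left (genericPoint C.left)) D g u) (n : ℤ) :
    DegOn j.left D n ↔ n = ∑ᶠ c : C.left, Scheme.ord (red j (u (j.left c))) c := by
  constructor
  · intro hn
    obtain ⟨g', u', hg', hu', hL', hn⟩ := (AMP.degOn_iff j D n).1 hn
    have hr0 : g' / g ≠ 0 := div_ne_zero hg' h.ne
    have hq : ∀ c : C.left, u' c / (u (j.left c) * (g' / g)) ∈ localRing k X (j.left c) ∧
        (u' c / (u (j.left c) * (g' / g)))⁻¹ ∈ localRing k X (j.left c) := by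
      intro c
      have h0 := h.eq (j.left c) (specializes_of_hom j c)
      apply unit_of_ord_eq_zero hX
      intro z hz hzx
      have h1 : Scheme.ord (u' c) z = D z + Scheme.ord g' z := (hu' c).2 z hz hzx
      have h2 : Scheme.ord (u (j.left c)) z = D z + Scheme.ord g z := h0.2 z hz hzx
      rw [div_eq_mul_inv, Scheme.ord_mul (hu' c).1 (inv_ne_zero (mul_ne_zero h0.1 hr0)), ord_inv,
        Scheme.ord_mul h0.1 hr0, div_eq_mul_inv, Scheme.ord_mul hg' (inv_ne_zero h.ne), ord_inv,
        h1, h2]
      ring
    have hr : g' / g ∈ localRing k X (j.left (genericPoint C.left)) ∧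
        (g' / g)⁻¹ ∈ localRing k X (j.left (genericPoint C.left)) := by
      have h0 := h.eq (j.left (genericPoint C.left)) specializes_rfl
      have h1 := h.unit (j.left (genericPoint C.left)) specializes_rfl
      have h2 := hL' (genericPoint C.left)
      have h3 := hq (genericPoint C.left)
      have h4 := (hu' (genericPoint C.left)).1
      have h5 := h0.1
      have h6 := h.ne
      constructor
      · have e : g' / g = u' (genericPoint C.left) *
            (u' (genericPoint C.left) / (u (j.left (genericPoint C.left)) * (g' / g)))⁻¹ *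
            (u (j.left (genericPoint C.left)))⁻¹ := by
          field_simp
        rw [e]
        exact Subalgebra.mul_mem _ (Subalgebra.mul_mem _ h2.1 h3.2) h1.2
      · have e : (g' / g)⁻¹ = (u' (genericPoint C.left))⁻¹ *
            (u' (genericPoint C.left) / (u (j.left (genericPoint C.left)) * (g' / g))) *
            (u (j.left (genericPoint C.left))) := by
          field_simp
        rw [e]
        exact Subalgebra.mul_mem _ (Subalgebra.mul_mem _ h2.2 h3.1) h1.1
    have hrr : red j (g' / g) ≠ 0 := fun h0 ↦
      A8D_ne_zero hr0 hr.2 ((red_eq_zero_iff j hr.1).1 h0)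
    obtain ⟨hfin, hsum⟩ := hC.finsum_ord hrr
    have key : ∀ c : C.left, Scheme.ord (red j (u' c)) c =
        Scheme.ord (red j (u (j.left c))) c + Scheme.ord (red j (g' / g)) c := by
      intro c
      have h0 := h.eq (j.left c) (specializes_of_hom j c)
      have h1 := h.unit (j.left c) (specializes_of_hom j c)
      have h2 := A8D_ord j hC.variety (hq c).1 (hq c).2
        (div_ne_zero (hu' c).1 (mul_ne_zero h0.1 hr0))
        (a := u' c) (b := u (j.left c) * (g' / g)) (Subalgebra.mul_mem _ h1.1 hr.1)
        (by rw [mul_inv]; exact Subalgebra.mul_mem _ h1.2 hr.2) (mul_ne_zero h0.1 hr0)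
        (by rw [div_mul_cancel₀ _ (mul_ne_zero h0.1 hr0)])
      have h3 : red j (u (j.left c)) ≠ 0 := fun h ↦
        A8D_ne_zero h0.1 h1.2 ((red_eq_zero_iff j h1.1).1 h)
      rw [h2, red_mul j h1.1 hr.1, Scheme.ord_mul h3 hrr]
    rw [hn, finsum_congr key]
    by_cases hF : (Function.support
        fun c : C.left ↦ Scheme.ord (red j (u (j.left c))) c).Finite
    · rw [finsum_add_distrib hF hfin, hsum, add_zero]
    · rw [finsum_of_infinite_support hF, finsum_of_infinite_support]
      intro hF'
      apply hF
      refine (hF'.union hfin).subset ?_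
      intro c hc
      by_contra hcon
      rw [Set.mem_union, Function.mem_support, Function.mem_support] at hcon
      push Not at hcon
      rw [Function.mem_support] at hc
      apply hc
      have := hcon.1
      rw [hcon.2, add_zero] at this
      exact this
  · intro hn
    refine (AMP.degOn_iff j D n).2 ⟨g, fun c ↦ u (j.left c), h.ne, ?_, ?_, hn⟩
    · exact fun c ↦ h.eq _ (specializes_of_hom j c)
    · exact fun c ↦ h.unit _ (specializes_of_hom j c)

end H1F.AMP
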