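import Pool.Agent.Lib.H1F.AMP.A0

/-!
# H1F AMP, chunk A9A: the closure of a point
-/

open CategoryTheory CategoryTheory.Limits AlgebraicGeometry Order

universe u

namespace H1F.AMP

variable {k : Type u} [Field k] {X Y : Over (Spec (CommRingCat.of k))} [IsIntegral X.left]

/-- The scheme theoretic image of a reduced scheme is reduced. -/
theorem A9A_reduced {X Y : Scheme.{u}} (f : X ⟶ Y) [QuasiCompact f] [IsReduced X] :
    IsReduced f.image := by
  apply +allowSynthFailures isReduced_of_isReduced_stalk
  intro x
  obtain ⟨U, hU, hx, -⟩ := TopologicalSpace.Opens.isBasis_iff_nbhd.mp Y.isBasis_affineOpens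
    (show f.imageι x ∈ (⊤ : Y.Opens) from trivial)
  have h1 := f.toImage_app_injective ⟨U, hU⟩
  have h2 : _root_.IsReduced Γ(f.image, f.imageι ⁻¹ᵁ U) :=
    isReduced_of_injective (f.toImage.app (f.imageι ⁻¹ᵁ U)).hom h1
  have h3 : IsAffineOpen (f.imageι ⁻¹ᵁ U) := hU.preimage _
  have h4 := h3.isLocalization_stalk ⟨x, hx⟩
  let := f.image.presheaf.algebra_section_stalk (⟨x, hx⟩ : (f.imageι ⁻¹ᵁ U : f.image.Opens))
  exact isReduced_localizationPreserves (h3.primeIdealOf ⟨x, hx⟩).asIdeal.primeCompl _ h2

theorem A9A_generic {X Y : Scheme.{u}} (f : X ⟶ Y) [QuasiCompact f] (x : X)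
    (hx : ∀ y : X, y = x) : IsGenericPoint (f.toImage x) (Set.univ : Set f.image) := by
  have h1 : DenseRange f.toImage := f.toImage.denseRange
  have h2 : Set.range f.toImage = {f.toImage x} := by
    ext y
    constructor
    · rintro ⟨z, rfl⟩
      rw [hx z]
      rfl
    · rintro rfl
      exact ⟨x, rfl⟩
  rw [IsGenericPoint, ← h2]
  exact h1.closure_range

/-- **A9a (M/L).** The reduced closed subscheme on the closure of a point.
Proof: let `g = X.left.fromSpecResidueField z₀` (quasi-compact, because `X` is quasi-separated and
the source is compact) and `C = g.image`, `j = g.imageι` (closed immersion,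
`Mathlib/AlgebraicGeometry/IdealSheaf/Subscheme.lean`).  `g.toImage` is dominant, so `C` is
irreducible with generic point the image of the point of the source, and its stalks inject into a
field (`Scheme.Hom.stalkFunctor_toImage_injective`), or its affine rings do
(`Scheme.Hom.toImage_app_injective`), so `C` is integral.  Alternatively use the ideal sheaf
`vanishingIdeal` of the closure.  `C` is a `k`-scheme by `j ≫ X.hom`. -/
theorem exists_curve (hX : Variety k X) (z₀ : X.left) :
    ∃ (C : Over (Spec (CommRingCat.of k))) (_ : IsIntegral C.left) (j : C ⟶ X),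
      IsClosedImmersion j.left ∧ j.left (genericPoint C.left) = z₀ := by
  let g := X.left.fromSpecResidueField z₀
  have hred := A9A_reduced g
  let x : Spec (X.left.residueField z₀) := IsLocalRing.closedPoint _
  have hgen := A9A_generic g x (fun y ↦ Subsingleton.elim (α := PrimeSpectrum _) y x)
  have hirr : IrreducibleSpace g.image := by
    have h1 : IsIrreducible (Set.univ : Set g.image) := by
      rw [← hgen.def]
      exact isIrreducible_singleton.closure
    exact (irreducibleSpace_def _).2 h1
  have hint : IsIntegral g.image := isIntegral_of_irreducibleSpace_of_isReduced _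
  refine ⟨Over.mk (g.imageι ≫ X.hom), hint, Over.homMk g.imageι rfl, ?_, ?_⟩
  · change IsClosedImmersion g.imageι
    infer_instance
  · change g.imageι (genericPoint g.image) = z₀
    rw [← hgen.eq (genericPoint_spec g.image), ← Scheme.Hom.comp_apply, g.toImage_imageι]
    exact X.left.fromSpecResidueField_apply z₀ x

end H1F.AMP
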